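import Pool.Agent.Lib.MTS.ClosB1

/-!
# MTS.ClosB2 (MP_e46137_lc): small covers
-/

namespace MTS

open Classical Finset

variable {r N : ℕ}

/-- the coloured vertex of `W` in layer `j`, with both colours -/
def newV (W : PC r N) (j : Fin r) : Finset (Fin r × Fin N × Bool) :=
  match W j with
  | none => ∅
  | some x => {(j, x.1, true), (j, x.1, false)}

theorem card_newV (W : PC r N) (j : Fin r) : (newV W j).card ≤ 2 := by
  unfold newV
  split
  · simp
  · exact card_le_two

theorem mem_newV {W : PC r N} {j : Fin r} {x : Fin N × Bool} (h : W j = some x) (c : Bool) :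
    (j, x.1, c) ∈ newV W j := by
  unfold newV
  rw [h]
  cases c <;> simp

/-- all the coloured vertices of the members of a list, with both colours -/
noncomputable def allV (l : List (PC r N)) : Finset (Fin r × Fin N × Bool) :=
  l.toFinset.biUnion (fun W => univ.biUnion (fun j => newV W j))

theorem card_allV (l : List (PC r N)) : (allV l).card ≤ 2 * l.length * r := by
  unfold allV
  calc _ ≤ ∑ W ∈ l.toFinset, (univ.biUnion (fun j => newV W j)).card := card_biUnion_le
    _ ≤ ∑ _W ∈ l.toFinset, r * 2 := by
        apply sum_le_sum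
        intro W _
        calc _ ≤ ∑ j : Fin r, (newV W j).card := card_biUnion_le
          _ ≤ ∑ _j : Fin r, 2 := sum_le_sum (fun j _ => card_newV W j)
          _ = r * 2 := by simp
    _ = l.toFinset.card * (r * 2) := by simp
    _ ≤ l.length * (r * 2) := Nat.mul_le_mul_right _ (List.toFinset_card_le l)
    _ = 2 * l.length * r := by ring

/-- the new vertices of the extensions of `U` in `F` meet a small set -/
theorem exists_cover {θ K : ℕ} {F : Finset (PC r N)} (hF : Closed θ F)
    (hK : (2 ^ r - 1) ^ K * 2 ^ (r * N) ≤ θ * (2 ^ r) ^ K) {U : PC r N} (hU : U ∉ F) :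
    ∃ H : Finset (Fin r × Fin N × Bool), H.card ≤ 2 * K * r ∧ ∀ W ∈ F, Sub U W →
      ∃ x ∈ H, U x.1 = none ∧ W x.1 = some x.2 := by
  by_contra hno
  push Not at hno
  have key : ∀ n, n ≤ K → ∃ l : List (PC r N), l.length = n ∧ (∀ W ∈ l, W ∈ F ∧ Sub U W) ∧
      l.Pairwise (fun W W' => ∀ j, U j = none → ∀ x x', W j = some x → W' j = some x' →
        x.1 ≠ x'.1) := by
    intro n
    induction n with
    | zero =>
      intro _
      exact ⟨[], rfl, by simp, List.Pairwise.nil⟩
    | succ n ih =>
      intro hn
      obtain ⟨l, hl, hlF, hlP⟩ := ih (by omega)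
      have hcard : (allV l).card ≤ 2 * K * r := by
        refine (card_allV l).trans ?_
        rw [hl]
        exact Nat.mul_le_mul_right _ (Nat.mul_le_mul_left _ (by omega))
      obtain ⟨W, hW, hUW, hWx⟩ := hno (allV l) hcard
      refine ⟨W :: l, by simp [hl], ?_, ?_⟩
      · intro V hV
        rcases List.mem_cons.1 hV with rfl | hV
        · exact ⟨hW, hUW⟩
        · exact hlF V hV
      · refine List.Pairwise.cons ?_ hlP
        intro W' hW' j hj x x' hx hx' he
        have hmem : (j, x.1, x.2) ∈ allV l := by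
          unfold allV
          rw [mem_biUnion]
          refine ⟨W', List.mem_toFinset.2 hW', ?_⟩
          rw [mem_biUnion]
          refine ⟨j, mem_univ _, ?_⟩
          rw [he]
          exact mem_newV hx' x.2
        exact hWx _ hmem hj hx
  obtain ⟨l, hl, hlF, hlP⟩ := key K le_rfl
  have h1 := avoid_card U l (fun W hW => (hlF W hW).2) hlP
  rw [hl] at h1
  have h2 : (univ.filter (fun χ : Col r N => Agree U χ ∧ ∀ W ∈ l, ¬ Agree W χ)).card ≤ θ := by
    have hpos : 0 < (2 ^ r) ^ K := by positivity
    exact Nat.le_of_mul_le_mul_right (h1.trans hK) hpos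
  apply hU
  apply hF U
  refine (card_le_card ?_).trans h2
  intro χ hχ
  rw [mem_filter] at hχ ⊢
  refine ⟨mem_univ _, hχ.2.1, ?_⟩
  intro W hW hA
  exact hχ.2.2 ⟨W, (hlF W hW).1, hA⟩

end MTS
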