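import Mathlib

/-!
# MTS.Spec (MP_e46137_lc): the definitions used in the final statement
-/

namespace MTS

/-- A monotone machine with `S` bits of memory and input bits indexed by `A`.  Step `t` reads the
input bit `arc t` and replaces the content `σ` of the memory by `next t σ x`, where `x` is the value
of this input bit.  The map `next t` is an arbitrary monotone map; nothing is uniform in `t`. -/
structure Mach (A : Type) (S : ℕ) where
  init : Fin S → Bool
  arc : ℕ → A
  next : ℕ → (Fin S → Bool) → Bool → (Fin S → Bool)
  mono : ∀ t (σ σ' : Fin S → Bool) (x x' : Bool), σ ≤ σ' → x ≤ x' → next t σ x ≤ next t σ' x'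

/-- the memory after `t` steps on the input `g` -/
def Mach.run {A : Type} {S : ℕ} (M : Mach A S) (g : A → Bool) : ℕ → Fin S → Bool
  | 0 => M.init
  | t + 1 => M.next t (M.run g t) (g (M.arc t))

/-- `G` has a walk with exactly `l` arcs from `u` to `v` -/
def HasWalk {V : Type} (G : V → V → Bool) : ℕ → V → V → Prop
  | 0, u, v => u = v
  | l + 1, u, v => ∃ w, HasWalk G l u w ∧ G w v = true

/-- `v` is reachable from `u` in `G` -/
def Reach {V : Type} (G : V → V → Bool) (u v : V) : Prop :=
  Relation.ReflTransGen (fun a b => G a b = true) u v

/-- The machine `M` with `S` bits of memory decides, within `T` steps and on undirected graphs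
(symmetric `G`), reachability of `t` from `s` by at most `l` edges: after `T` steps the bit `out` of
the memory is `true` if there is a walk with at most `l` edges, and it is `false` if `t` is not
reachable from `s`. -/
def Decides {n S : ℕ} (M : Mach (Fin n × Fin n) S) (out : Fin S) (T l : ℕ) (s t : Fin n) : Prop :=
  ∀ G : Fin n → Fin n → Bool, (∀ a b, G a b = G b a) →
    ((∃ l' ≤ l, HasWalk G l' s t) → M.run (fun e => G e.1 e.2) T out = true) ∧
    (¬ Reach G s t → M.run (fun e => G e.1 e.2) T out = false)

/-- instructions of a monotone straight line program with registers `ι` -/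
inductive Instr (ι : Type) where
  | const (i : ι) (b : Bool)
  | input (i : ι)
  | and (i j l : ι)
  | or (i j l : ι)

/-- effect of an instruction on the registers, `x` = the input bit of this step -/
def Instr.apply {ι : Type} [DecidableEq ι] : Instr ι → (ι → Bool) → Bool → (ι → Bool)
  | .const i b, σ, _ => Function.update σ i b
  | .input i, σ, x => Function.update σ i x
  | .and i j l, σ, _ => Function.update σ i (σ j && σ l)
  | .or i j l, σ, _ => Function.update σ i (σ j || σ l)

/-- `M` is a monotone straight line program (a monotone circuit of width `S`): every step executes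
one instruction: a constant, the input bit of this step, AND or OR of two registers -/
def IsSLP {A : Type} {S : ℕ} (M : Mach A S) : Prop := ∀ t, ∃ I : Instr (Fin S), M.next t = I.apply

/-- the vertices `s, P 0, …, P (r - 1), t` of the walk through `P` -/
def walkVertex {n r : ℕ} (s t : Fin n) (P : Fin r → Fin n) : ℕ → Fin n
  | 0 => s
  | i + 1 => if h : i < r then P ⟨i, h⟩ else t

open Classical in
/-- the undirected path with the vertices `s, P 0, …, P (r - 1), t` -/
noncomputable def pathGraph {n r : ℕ} (s t : Fin n) (P : Fin r → Fin n) (u v : Fin n) : Bool :=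
  decide (∃ q ≤ r, (u = walkVertex s t P q ∧ v = walkVertex s t P (q + 1)) ∨
    (v = walkVertex s t P q ∧ u = walkVertex s t P (q + 1)))

/-- the graph consisting of two cliques, one on `C` and one on the complement of `C` -/
def cutGraph {n : ℕ} (C : Finset (Fin n)) (u v : Fin n) : Bool := decide (u ∈ C ↔ v ∈ C)

open Classical in
/-- the sequences of `r` distinct vertices different from `s` and `t` -/
noncomputable def seqs (n r : ℕ) (s t : Fin n) : Finset (Fin r → Fin n) :=
  Finset.univ.filter (fun P => Function.Injective P ∧ ∀ i, P i ≠ s ∧ P i ≠ t)

/-- the sets of vertices which contain `s` but not `t` -/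
def cuts (n : ℕ) (s t : Fin n) : Finset (Finset (Fin n)) :=
  Finset.univ.filter (fun C => s ∈ C ∧ t ∉ C)

/-- The probability that the bit `out` of the machine is `true` after `T` steps on a uniformly
random path with `r + 1` edges from `s` to `t`. -/
noncomputable def accPath {n S : ℕ} (M : Mach (Fin n × Fin n) S) (out : Fin S) (T r : ℕ)
    (s t : Fin n) : ℝ :=
  (((seqs n r s t).filter (fun P =>
    M.run (fun e => pathGraph s t P e.1 e.2) T out = true)).card : ℝ) / (seqs n r s t).card

/-- The probability that the bit `out` of the machine is `true` after `T` steps on the graph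
consisting of two cliques which separate `s` from `t`, for a uniformly random cut. -/
noncomputable def accCut {n S : ℕ} (M : Mach (Fin n × Fin n) S) (out : Fin S) (T : ℕ)
    (s t : Fin n) : ℝ :=
  (((cuts n s t).filter (fun C =>
    M.run (fun e => cutGraph C e.1 e.2) T out = true)).card : ℝ) / (cuts n s t).card

/-- A probabilistic monotone machine (the machine `M ω` is used with probability `p ω`) with
two-sided error at most `1 / 3`, on undirected graphs: it accepts with probability at least `2 / 3`
if there is a walk with at most `l` edges from `s` to `t`, and with probability at most `1 / 3` if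
`t` is not reachable from `s`. -/
def DecidesProb {Ω : Type} [Fintype Ω] (p : Ω → ℝ) {n S : ℕ} (M : Ω → Mach (Fin n × Fin n) S)
    (out : Ω → Fin S) (T l : ℕ) (s t : Fin n) : Prop :=
  ∀ G : Fin n → Fin n → Bool, (∀ a b, G a b = G b a) →
    ((∃ l' ≤ l, HasWalk G l' s t) →
      2 / 3 ≤ ∑ ω ∈ Finset.univ.filter (fun ω =>
        (M ω).run (fun e => G e.1 e.2) T (out ω) = true), p ω) ∧
    (¬ Reach G s t →
      ∑ ω ∈ Finset.univ.filter (fun ω =>
        (M ω).run (fun e => G e.1 e.2) T (out ω) = true), p ω ≤ 1 / 3)

end MTS
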