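import Pool.Agent.Lib.MTS.Spec

/-!
# MTS.Record (MP_e46137_lc): `T + 1` bits of memory suffice for `T` steps
-/

namespace MTS

/-- the run of the machine on a stream of input bits -/
def recRun {A : Type} {S : ℕ} (M : Mach A S) (x : ℕ → Bool) : ℕ → Fin S → Bool
  | 0 => M.init
  | t + 1 => M.next t (recRun M x t) (x t)

theorem recRun_mono {A : Type} {S : ℕ} (M : Mach A S) (x y : ℕ → Bool) (h : x ≤ y) (t : ℕ) :
    recRun M x t ≤ recRun M y t := by
  induction t with
  | zero => exact le_refl _
  | succ t ih => exact M.mono t _ _ _ _ ih (h t)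

theorem recRun_eq {A : Type} {S : ℕ} (M : Mach A S) (g : A → Bool) (x : ℕ → Bool) (T : ℕ)
    (h : ∀ i < T, x i = g (M.arc i)) : recRun M x T = M.run g T := by
  induction T with
  | zero => rfl
  | succ t ih =>
    show M.next t (recRun M x t) (x t) = M.next t (M.run g t) (g (M.arc t))
    rw [ih (fun i hi => h i (Nat.lt_succ_of_lt hi)), h t (Nat.lt_succ_self t)]

/-- the recorded bits -/
def recBits (T : ℕ) (σ : Fin (T + 1) → Bool) (i : ℕ) : Bool :=
  if h : i < T then σ ⟨i, Nat.lt_succ_of_lt h⟩ else false

theorem recBits_mono (T : ℕ) (σ σ' : Fin (T + 1) → Bool) (h : σ ≤ σ') :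
    recBits T σ ≤ recBits T σ' := by
  intro i
  unfold recBits
  split_ifs with hi
  · exact h _
  · exact le_refl _

/-- the recording machine -/
def recMach {A : Type} {S : ℕ} (M : Mach A S) (out : Fin S) (T : ℕ) : Mach A (T + 1) where
  init := fun _ => false
  arc := M.arc
  next := fun t σ x => if h : t < T then Function.update σ ⟨t, Nat.lt_succ_of_lt h⟩ x
    else Function.update σ (Fin.last T) (recRun M (recBits T σ) T out)
  mono := by
    intro t σ σ' x x' hσ hx
    by_cases h : t < T
    · simp only [h, dite_true]
      intro i
      by_cases hi : i = ⟨t, Nat.lt_succ_of_lt h⟩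
      · subst hi
        simpa using hx
      · simpa [Function.update_of_ne hi] using hσ i
    · simp only [h, dite_false]
      intro i
      by_cases hi : i = Fin.last T
      · subst hi
        simpa using recRun_mono M _ _ (recBits_mono T σ σ' hσ) T out
      · simpa [Function.update_of_ne hi] using hσ i

theorem recMach_run {A : Type} {S : ℕ} (M : Mach A S) (out : Fin S) (T : ℕ) (g : A → Bool)
    (t : ℕ) (ht : t ≤ T) (i : ℕ) (hi : i < t) :
    (recMach M out T).run g t ⟨i, Nat.lt_succ_of_lt (lt_of_lt_of_le hi ht)⟩ = g (M.arc i) := by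
  induction t with
  | zero => exact absurd hi (Nat.not_lt_zero _)
  | succ t ih =>
    have htT : t < T := ht
    show (if h : t < T then
        Function.update ((recMach M out T).run g t) ⟨t, Nat.lt_succ_of_lt h⟩ (g (M.arc t))
      else Function.update ((recMach M out T).run g t) (Fin.last T)
        (recRun M (recBits T ((recMach M out T).run g t)) T out)) _ = _
    rw [dif_pos htT]
    by_cases hit : i = t
    · subst hit
      simp
    · have hlt : i < t := lt_of_le_of_ne (Nat.lt_succ_iff.mp hi) hit
      rw [Function.update_of_ne]
      · exact ih (le_of_lt htT) hlt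
      · intro hh
        exact hit (by simpa using congrArg Fin.val hh)

/-- Record all input bits which are read, compute the output bit in one more step. -/
theorem record {A : Type} {S : ℕ} (M : Mach A S) (out : Fin S) (T : ℕ) :
    ∃ (M' : Mach A (T + 1)) (out' : Fin (T + 1)), ∀ g, M'.run g (T + 1) out' = M.run g T out := by
  refine ⟨recMach M out T, Fin.last T, fun g => ?_⟩
  show (if h : T < T then
        Function.update ((recMach M out T).run g T) ⟨T, Nat.lt_succ_of_lt h⟩ (g (M.arc T))
      else Function.update ((recMach M out T).run g T) (Fin.last T)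
        (recRun M (recBits T ((recMach M out T).run g T)) T out)) _ = _
  rw [dif_neg (lt_irrefl T), Function.update_self]
  rw [recRun_eq M g _ T]
  intro i hi
  unfold recBits
  rw [dif_pos hi]
  exact recMach_run M out T g T (le_refl T) i hi

end MTS
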