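import Pool.Agent.Lib.MTS.ArithP
import Pool.Agent.Lib.MTS.Record

/-!
# MTS.Adv (MP_e46137_lc): the correlation bound
-/

namespace MTS

open Classical Finset

namespace AdvAux

theorem accPath_le_one {n S : ℕ} (M : Mach (Fin n × Fin n) S) (out : Fin S) (T r : ℕ)
    (s t : Fin n) : accPath M out T r s t ≤ 1 := by
  unfold accPath
  apply div_le_one_of_le₀
  · exact_mod_cast Finset.card_filter_le _ _
  · positivity

theorem accCut_nonneg {n S : ℕ} (M : Mach (Fin n × Fin n) S) (out : Fin S) (T : ℕ)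
    (s t : Fin n) : 0 ≤ accCut M out T s t := by
  unfold accCut
  positivity

theorem cuts_pos {n : ℕ} {s t : Fin n} (hst : s ≠ t) : 0 < (cuts n s t).card := by
  rw [Finset.card_pos]
  refine ⟨{s}, ?_⟩
  unfold cuts
  rw [Finset.mem_filter]
  exact ⟨Finset.mem_univ _, Finset.mem_singleton_self _, by
    rw [Finset.mem_singleton]
    exact Ne.symm hst⟩

theorem zero_time {n S : ℕ} (M : Mach (Fin n × Fin n) S) (out : Fin S) (r : ℕ)
    {s t : Fin n} (hst : s ≠ t) : accPath M out 0 r s t - accCut M out 0 s t ≤ 0 := by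
  by_cases h : M.init out = true
  · have h1 : accCut M out 0 s t = 1 := by
      unfold accCut
      have h2 : (cuts n s t).filter (fun C =>
          M.run (fun e => cutGraph C e.1 e.2) 0 out = true) = cuts n s t := by
        apply Finset.filter_true_of_mem
        intro C _
        exact h
      rw [h2]
      apply div_self
      have := cuts_pos hst
      exact_mod_cast this.ne'
    have h2 := accPath_le_one M out 0 r s t
    linarith
  · have h1 : accPath M out 0 r s t = 0 := by
      unfold accPath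
      have h2 : (seqs n r s t).filter (fun P =>
          M.run (fun e => pathGraph s t P e.1 e.2) 0 out = true) = ∅ := by
        apply Finset.filter_false_of_mem
        intro P _
        exact h
      rw [h2]
      simp
    have h2 := accCut_nonneg M out 0 s t
    linarith

theorem accPath_congr {n S S' : ℕ} (M : Mach (Fin n × Fin n) S) (out : Fin S) (T : ℕ)
    (M' : Mach (Fin n × Fin n) S') (out' : Fin S') (T' : ℕ)
    (h : ∀ g, M'.run g T' out' = M.run g T out) (r : ℕ) (s t : Fin n) :
    accPath M' out' T' r s t = accPath M out T r s t := by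
  unfold accPath
  simp only [h]

theorem accCut_congr {n S S' : ℕ} (M : Mach (Fin n × Fin n) S) (out : Fin S) (T : ℕ)
    (M' : Mach (Fin n × Fin n) S') (out' : Fin S') (T' : ℕ)
    (h : ∀ g, M'.run g T' out' = M.run g T out) (s t : Fin n) :
    accCut M' out' T' s t = accCut M out T s t := by
  unfold accCut
  simp only [h]

end AdvAux

/-- **Correlation bound.** -/
theorem adv (k r : ℕ) (hk : 2 ^ (k + 1) ≤ r) : ∃ c : ℕ, ∀ (n S T : ℕ) (s t : Fin n), s ≠ t →
    ∀ (M : Mach (Fin n × Fin n) S) (out : Fin S),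
      accPath M out T r s t - accCut M out T s t ≤
        T * (S : ℝ) ^ k * (c * Real.log n) ^ c / (n : ℝ) ^ (k + 2) := by
  obtain ⟨c₀, h₀⟩ := adv_bound k r hk
  rcases Nat.eq_zero_or_pos k with hk0 | hk1
  · subst hk0
    refine ⟨c₀ + 3, ?_⟩
    intro n S T s t hst M out
    have hn2 : 2 ≤ n := by
      by_contra h
      apply hst
      apply Fin.ext
      have h1 := s.isLt
      have h2 := t.isLt
      omega
    have hnR : (2 : ℝ) ≤ n := by exact_mod_cast hn2
    have hlog : (0.69 : ℝ) ≤ Real.log n := by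
      have h1 : Real.log 2 ≤ Real.log n := Real.log_le_log (by norm_num) hnR
      have h2 := Real.log_two_gt_d9
      linarith
    have hc0 : (0 : ℝ) ≤ c₀ := Nat.cast_nonneg _
    have hbig : (2 : ℝ) ≤ ((c₀ + 3 : ℕ) : ℝ) * Real.log n := by
      push_cast
      nlinarith
    have hpow : 2 * ((c₀ : ℝ) * Real.log n) ^ c₀ ≤
        (((c₀ + 3 : ℕ) : ℝ) * Real.log n) ^ (c₀ + 3) := by
      have h1 : ((c₀ : ℝ) * Real.log n) ^ c₀ ≤ (((c₀ + 3 : ℕ) : ℝ) * Real.log n) ^ c₀ := by
        apply pow_le_pow_left₀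
        · positivity
        · apply mul_le_mul_of_nonneg_right
          · push_cast
            linarith
          · linarith
      have h2 : (2 : ℝ) ≤ (((c₀ + 3 : ℕ) : ℝ) * Real.log n) ^ 3 := by
        have h3 : (1 : ℝ) ≤ (((c₀ + 3 : ℕ) : ℝ) * Real.log n) ^ 2 := by
          apply one_le_pow₀
          linarith
        calc (2 : ℝ) = 1 * 2 := by norm_num
          _ ≤ (((c₀ + 3 : ℕ) : ℝ) * Real.log n) ^ 2 * (((c₀ + 3 : ℕ) : ℝ) * Real.log n) := by
              apply mul_le_mul h3 hbig (by norm_num) (by positivity)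
          _ = _ := by ring
      rw [pow_add]
      calc 2 * ((c₀ : ℝ) * Real.log n) ^ c₀
          = ((c₀ : ℝ) * Real.log n) ^ c₀ * 2 := by ring
        _ ≤ (((c₀ + 3 : ℕ) : ℝ) * Real.log n) ^ c₀ *
            (((c₀ + 3 : ℕ) : ℝ) * Real.log n) ^ 3 := by
          apply mul_le_mul h1 h2 (by norm_num)
          have : (0 : ℝ) ≤ ((c₀ + 3 : ℕ) : ℝ) * Real.log n := by linarith
          positivity
    have hn2pos : (0 : ℝ) < (n : ℝ) ^ (0 + 2) := by
      have : (0 : ℝ) < n := by linarith
      positivity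
    have hone : (1 : ℝ) ≤ (((c₀ + 3 : ℕ) : ℝ) * Real.log n) ^ (c₀ + 3) := by
      apply one_le_pow₀
      linarith
    rw [pow_zero, mul_one]
    rcases Nat.eq_zero_or_pos T with hT | hT
    · subst hT
      have h1 := AdvAux.zero_time M out r hst
      have h2 : ((0 : ℕ) : ℝ) * (((c₀ + 3 : ℕ) : ℝ) * Real.log n) ^ (c₀ + 3) /
          (n : ℝ) ^ (0 + 2) = 0 := by simp
      rw [h2]
      exact h1
    · by_cases hTn : T + 1 ≤ n ^ 3
      · obtain ⟨M', out', hM'⟩ := record M out T
        have h1 := h₀ n (T + 1) (T + 1) s t hst M' out' (Or.inl hTn)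
        rw [AdvAux.accPath_congr M out T M' out' (T + 1) hM' r s t,
          AdvAux.accCut_congr M out T M' out' (T + 1) hM' s t, pow_zero, mul_one] at h1
        refine h1.trans ?_
        apply div_le_div_of_nonneg_right _ hn2pos.le
        have hT1 : ((T + 1 : ℕ) : ℝ) ≤ 2 * T := by
          have : T + 1 ≤ 2 * T := by omega
          exact_mod_cast this
        have hnn : (0 : ℝ) ≤ ((c₀ : ℝ) * Real.log n) ^ c₀ := by
          have : (0 : ℝ) ≤ (c₀ : ℝ) * Real.log n := mul_nonneg hc0 (by linarith)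
          positivity
        calc ((T + 1 : ℕ) : ℝ) * ((c₀ : ℝ) * Real.log n) ^ c₀
            ≤ (2 * T) * ((c₀ : ℝ) * Real.log n) ^ c₀ := mul_le_mul_of_nonneg_right hT1 hnn
          _ = T * (2 * ((c₀ : ℝ) * Real.log n) ^ c₀) := by ring
          _ ≤ T * (((c₀ + 3 : ℕ) : ℝ) * Real.log n) ^ (c₀ + 3) :=
              mul_le_mul_of_nonneg_left hpow (Nat.cast_nonneg _)
      · have h1 := AdvAux.accPath_le_one M out T r s t
        have h2 := AdvAux.accCut_nonneg M out T s t
        have hT3 : n ^ 3 ≤ T := by omega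
        have hT3' : (n : ℝ) ^ 3 ≤ T := by exact_mod_cast hT3
        have h3 : (1 : ℝ) ≤ T * (((c₀ + 3 : ℕ) : ℝ) * Real.log n) ^ (c₀ + 3) /
            (n : ℝ) ^ (0 + 2) := by
          rw [le_div_iff₀ hn2pos, one_mul]
          calc (n : ℝ) ^ (0 + 2) ≤ (n : ℝ) ^ 3 := by
                apply pow_le_pow_right₀ (by linarith) (by norm_num)
            _ = (n : ℝ) ^ 3 * 1 := by ring
            _ ≤ T * (((c₀ + 3 : ℕ) : ℝ) * Real.log n) ^ (c₀ + 3) :=
                mul_le_mul hT3' hone (by norm_num) (Nat.cast_nonneg _)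
        linarith
  · exact ⟨c₀, fun n S T s t hst M out => h₀ n S T s t hst M out (Or.inr hk1)⟩

end MTS
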