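import Pool.Agent.Lib.MTS.Embed

/-!
# MTS.ArithA (MP_e46137_lc): choice of the parameters
-/

namespace MTS

open Classical Finset

private theorem pow_succ_bound (a n : ℕ) :
    a ^ (n + 1) + (n + 1) * a ^ n ≤ (a + 1) ^ (n + 1) := by
  induction n with
  | zero => simp
  | succ n ih =>
    have h1 := Nat.mul_le_mul_right (a + 1) ih
    calc a ^ (n + 1 + 1) + (n + 1 + 1) * a ^ (n + 1)
        ≤ (a ^ (n + 1) + (n + 1) * a ^ n) * (a + 1) := by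
          have h2 : (a ^ (n + 1) + (n + 1) * a ^ n) * (a + 1) =
              a ^ (n + 1 + 1) + (n + 1 + 1) * a ^ (n + 1) + (n + 1) * a ^ n := by ring
          rw [h2]
          exact Nat.le_add_right _ _
      _ ≤ (a + 1) ^ (n + 1) * (a + 1) := h1
      _ = (a + 1) ^ (n + 1 + 1) := (pow_succ _ _).symm

private theorem two_mul_pow_le (a : ℕ) : 2 * a ^ (a + 1) ≤ (a + 1) ^ (a + 1) := by
  refine le_trans ?_ (pow_succ_bound a a)
  have h1 : a ^ (a + 1) ≤ (a + 1) * a ^ a := by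
    rw [pow_succ, mul_comm]
    exact Nat.mul_le_mul_right _ (Nat.le_succ a)
  omega

/-- `K = w 2 ^ r` pairs of disjoint sets suffice for the error `θ = 2 ^ (r N - w)` -/
theorem pow_le_of_w {r N w : ℕ} (hr : 1 ≤ r) (hw : w ≤ r * N) :
    (2 ^ r - 1) ^ (w * 2 ^ r) * 2 ^ (r * N) ≤ 2 ^ (r * N - w) * (2 ^ r) ^ (w * 2 ^ r) := by
  have hM : 2 ^ r - 1 + 1 = 2 ^ r := Nat.sub_add_cancel Nat.one_le_two_pow
  have h1 := two_mul_pow_le (2 ^ r - 1)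
  rw [hM] at h1
  have h2 := Nat.pow_le_pow_left h1 w
  rw [mul_pow, ← pow_mul, ← pow_mul, mul_comm (2 ^ r) w] at h2
  have h3 : 2 ^ (r * N) = 2 ^ (r * N - w) * 2 ^ w := by
    rw [← pow_add, Nat.sub_add_cancel hw]
  rw [h3]
  calc (2 ^ r - 1) ^ (w * 2 ^ r) * (2 ^ (r * N - w) * 2 ^ w)
      = 2 ^ (r * N - w) * (2 ^ w * (2 ^ r - 1) ^ (w * 2 ^ r)) := by ring
    _ ≤ _ := Nat.mul_le_mul_left _ h2

theorem explicit_w {n S T r N k w : ℕ} (hn : r * N + 2 ≤ n) (hN : 1 ≤ N) (hr : 1 ≤ r)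
    {s t : Fin n} (hst : s ≠ t) (M : Mach (Fin n × Fin n) S) (out : Fin S)
    (hM : Decides M out T (r + 1) s t) (hw : T * (S * (2 * N + 1) ^ r) * 2 ^ r < 2 ^ w)
    (hw2 : w ≤ r * N) (hk : 2 ^ (k + 1) ≤ r) :
    N ^ (k + 2) ≤ T * (S * (r * (2 * (w * 2 ^ r) * r + 1) ^ r) * Nat.clog 2 T) ^ k := by
  refine explicit (θ := 2 ^ (r * N - w)) hn hN hst M out hM ?_ (pow_le_of_w hr hw2) hk
  have hrN : r ≤ r * N := Nat.le_mul_of_pos_right r hN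
  have h1 : 2 ^ (r * N) = 2 ^ (r * N - r) * 2 ^ r := by
    rw [← pow_add, Nat.sub_add_cancel hrN]
  have h2 : 2 ^ (r * N) = 2 ^ w * 2 ^ (r * N - w) := by
    rw [← pow_add, Nat.add_sub_cancel' hw2]
  have h3 := Nat.mul_lt_mul_of_pos_right hw (k := 2 ^ (r * N - w)) (Nat.two_pow_pos _)
  rw [← h2, h1] at h3
  refine lt_of_mul_lt_mul_right (a := 2 ^ r) ?_ (Nat.zero_le _)
  refine lt_of_eq_of_lt ?_ h3
  ring

end MTS
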