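import Pool.Agent.Lib.MTS.ArithA

/-!
# MTS.ArithB (MP_e46137_lc): the lower bound
-/

namespace MTS

open Classical Finset

namespace ArithBAux

theorem T_pos {n S T l : ℕ} {s t : Fin n} (hst : s ≠ t) (M : Mach (Fin n × Fin n) S)
    (out : Fin S) (hl : 1 ≤ l) (hM : Decides M out T l s t) : 1 ≤ T := by
  rcases Nat.eq_zero_or_pos T with rfl | h
  · exfalso
    have h1 := (hM (fun _ _ => true) (fun _ _ => rfl)).1 ⟨1, hl, s, rfl, rfl⟩
    have h2 := (hM (fun _ _ => false) (fun _ _ => rfl)).2 (by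
      intro h
      induction h with
      | refl => exact hst rfl
      | tail _ h _ => exact absurd h Bool.false_ne_true)
    have h3 : M.init out = true := h1
    have h4 : M.init out = false := h2
    rw [h3] at h4
    exact absurd h4 (by decide)
  · exact h

theorem main_case {n S T r N k L : ℕ} (hr : 1 ≤ r) (hk1 : 1 ≤ k) (hk : 2 ^ (k + 1) = r)
    (hN : N = (n - 2) / r)
    (hn : 2 ≤ n) (hL : L = Nat.clog 2 n) {s t : Fin n} (hst : s ≠ t)
    (M : Mach (Fin n × Fin n) S) (out : Fin S) (hM : Decides M out T (r + 1) s t)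
    (hT : T ≤ n ^ (k + 2)) (hS : S ≤ n ^ (k + 2)) (hw : (2 * k + 4 * r + 5) * L ≤ r * N) :
    n ^ (k + 2) ≤ T * S ^ k *
      (((2 * r + 1) ^ 3 * (r * (2 * (2 * k + 4 * r + 5) * 2 ^ r * r + 1) ^ r * (k + 2))) *
        L ^ (r + 1)) ^ k := by
  have hL1 : 1 ≤ L := by
    rw [hL]
    exact Nat.clog_pos (by norm_num) hn
  have hnL : n ≤ 2 ^ L := by
    rw [hL]
    exact Nat.le_pow_clog (by norm_num) n
  have hN1 : 1 ≤ N := by
    rcases Nat.eq_zero_or_pos N with h | h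
    · exfalso
      rw [h, Nat.mul_zero] at hw
      have : 0 < (2 * k + 4 * r + 5) * L := Nat.mul_pos (by omega) (by omega)
      omega
    · exact h
  have hrN : r * N ≤ n - 2 := by
    rw [hN]
    exact Nat.mul_div_le _ _
  have hrN2 : n - 2 < r * N + r := by
    have h1 := Nat.div_add_mod (n - 2) r
    have h2 := Nat.mod_lt (n - 2) (by omega : 0 < r)
    rw [← hN] at h1
    omega
  have hNn : N ≤ n := by
    have h1 : N ≤ r * N := Nat.le_mul_of_pos_left _ (by omega)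
    omega
  have hpow : n ^ (k + 2) ≤ 2 ^ (L * (k + 2)) := by
    rw [pow_mul]
    exact Nat.pow_le_pow_left hnL _
  have e1 : T * (S * (2 * N + 1) ^ r) * 2 ^ r < 2 ^ ((2 * k + 4 * r + 5) * L) := by
    have a1 : T ≤ 2 ^ (L * (k + 2)) := hT.trans hpow
    have a2 : S ≤ 2 ^ (L * (k + 2)) := hS.trans hpow
    have a3 : (2 * N + 1) ^ r ≤ 2 ^ ((L + 2) * r) := by
      rw [pow_mul]
      apply Nat.pow_le_pow_left
      have : 2 ^ (L + 2) = 4 * 2 ^ L := by rw [pow_add]; norm_num; ring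
      omega
    calc T * (S * (2 * N + 1) ^ r) * 2 ^ r
        ≤ 2 ^ (L * (k + 2)) * (2 ^ (L * (k + 2)) * 2 ^ ((L + 2) * r)) * 2 ^ r :=
          Nat.mul_le_mul_right _ (Nat.mul_le_mul a1 (Nat.mul_le_mul a2 a3))
      _ = 2 ^ (L * (k + 2) + (L * (k + 2) + (L + 2) * r) + r) := by
          rw [← pow_add, ← pow_add, ← pow_add]
      _ < 2 ^ ((2 * k + 4 * r + 5) * L) := by
          apply Nat.pow_lt_pow_right (by norm_num)
          have g1 : (2 * k + 4 * r + 5) * L =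
            L * (k + 2) + (L * (k + 2) + (L + 2) * r) + r + (3 * (r * L) - 3 * r) + L := by
            have g2 : r * 1 ≤ r * L := Nat.mul_le_mul_left _ hL1
            have g3 : (2 * k + 4 * r + 5) * L = 2 * (L * (k + 2)) + L * r + 3 * (r * L) + L := by ring
            have g4 : (L + 2) * r = L * r + 2 * r := by ring
            rw [g3, g4]
            omega
          omega
  have e2 := explicit_w (k := k) (by omega : r * N + 2 ≤ n) hN1 hr hst M out hM e1 hw (le_of_eq hk)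
  have e3 : n ≤ (2 * r + 1) * N := by
    have g1 : (2 * r + 1) * N = r * N + r * N + N := by ring
    have g2 : r * 1 ≤ r * N := Nat.mul_le_mul_left _ hN1
    rw [g1]
    omega
  have hcl : Nat.clog 2 T ≤ (k + 2) * L := by
    apply Nat.clog_le_of_le_pow
    rw [mul_comm]
    exact hT.trans hpow
  have e4 : 2 * ((2 * k + 4 * r + 5) * L * 2 ^ r) * r + 1 ≤
      (2 * (2 * k + 4 * r + 5) * 2 ^ r * r + 1) * L := by
    have : 2 * ((2 * k + 4 * r + 5) * L * 2 ^ r) * r = 2 * (2 * k + 4 * r + 5) * 2 ^ r * r * L := by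
      ring
    rw [this, Nat.add_mul, one_mul]
    omega
  have e5 : S * (r * (2 * ((2 * k + 4 * r + 5) * L * 2 ^ r) * r + 1) ^ r) * Nat.clog 2 T ≤
      S * (r * ((2 * (2 * k + 4 * r + 5) * 2 ^ r * r + 1) * L) ^ r) * ((k + 2) * L) :=
    Nat.mul_le_mul (Nat.mul_le_mul_left _ (Nat.mul_le_mul_left _ (Nat.pow_le_pow_left e4 r))) hcl
  calc n ^ (k + 2) ≤ ((2 * r + 1) * N) ^ (k + 2) := Nat.pow_le_pow_left e3 _
    _ = (2 * r + 1) ^ (k + 2) * N ^ (k + 2) := by rw [mul_pow]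
    _ ≤ ((2 * r + 1) ^ 3) ^ k *
        (T * (S * (r * ((2 * (2 * k + 4 * r + 5) * 2 ^ r * r + 1) * L) ^ r) * ((k + 2) * L)) ^ k) := by
        apply Nat.mul_le_mul
        · rw [← pow_mul]
          exact Nat.pow_le_pow_right (by omega) (by omega)
        · exact e2.trans (Nat.mul_le_mul_left _ (Nat.pow_le_pow_left e5 k))
    _ = T * S ^ k *
      (((2 * r + 1) ^ 3 * (r * (2 * (2 * k + 4 * r + 5) * 2 ^ r * r + 1) ^ r * (k + 2))) *
        L ^ (r + 1)) ^ k := by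
        rw [mul_pow (2 * (2 * k + 4 * r + 5) * 2 ^ r * r + 1) L r, pow_succ L r]
        generalize (2 * (2 * k + 4 * r + 5) * 2 ^ r * r + 1) ^ r = Z
        generalize L ^ r = W
        generalize (2 * r + 1) ^ 3 = V
        simp only [mul_pow]
        ring

theorem nat_lower (k : ℕ) (hk : 1 ≤ k) : ∃ D E : ℕ, 1 ≤ D ∧ ∀ (n S T : ℕ) (s t : Fin n), s ≠ t →
    ∀ (M : Mach (Fin n × Fin n) S) (out : Fin S), Decides M out T (2 ^ (k + 1) + 1) s t →
      n ^ (k + 2) ≤ T * S ^ k * (D * Nat.clog 2 n) ^ E := by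
  obtain ⟨r, hr⟩ : ∃ r, 2 ^ (k + 1) = r := ⟨_, rfl⟩
  have hr1 : 1 ≤ r := by
    rw [← hr]
    exact Nat.one_le_two_pow
  refine ⟨(2 * r + 1) ^ 3 * (r * (2 * (2 * k + 4 * r + 5) * 2 ^ r * r + 1) ^ r * (k + 2)) +
    (2 * k + 4 * r + 5) + 1 + r, (r + 1) * k + 2, by omega, fun n S T s t hst M out hM => ?_⟩
  rw [hr] at hM
  have hn : 2 ≤ n := by
    by_contra h
    apply hst
    apply Fin.ext
    have := s.2
    have := t.2
    omega
  have hT1 := T_pos hst M out (by omega) hM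
  have hS1 : 1 ≤ S := out.pos
  have hL1 : 1 ≤ Nat.clog 2 n := Nat.clog_pos (by norm_num) hn
  generalize hD1 : (2 * r + 1) ^ 3 *
    (r * (2 * (2 * k + 4 * r + 5) * 2 ^ r * r + 1) ^ r * (k + 2)) = D1
  generalize hL : Nat.clog 2 n = L at hL1
  have hSk : 1 ≤ S ^ k := Nat.one_le_pow _ _ hS1
  have hDL : 1 ≤ (D1 + (2 * k + 4 * r + 5) + 1 + r) * L := Nat.mul_pos (by omega) (by omega)
  have hDLp : 1 ≤ ((D1 + (2 * k + 4 * r + 5) + 1 + r) * L) ^ ((r + 1) * k + 2) :=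
    Nat.one_le_pow _ _ hDL
  by_cases hT : T ≤ n ^ (k + 2)
  swap
  · calc n ^ (k + 2) ≤ T * 1 * 1 := by omega
      _ ≤ _ := Nat.mul_le_mul (Nat.mul_le_mul_left _ hSk) hDLp
  by_cases hS : S ≤ n ^ (k + 2)
  swap
  · calc n ^ (k + 2) ≤ S := by omega
      _ = S ^ 1 := (pow_one S).symm
      _ ≤ S ^ k := Nat.pow_le_pow_right hS1 hk
      _ = 1 * S ^ k * 1 := by ring
      _ ≤ _ := Nat.mul_le_mul (Nat.mul_le_mul_right _ hT1) hDLp
  by_cases hw : (2 * k + 4 * r + 5) * L ≤ r * ((n - 2) / r)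
  · have h1 := main_case hr1 hk hr rfl hn hL.symm hst M out hM hT hS hw
    rw [hD1] at h1
    refine h1.trans (Nat.mul_le_mul_left _ ?_)
    have h2 : (D1 * L ^ (r + 1)) ^ k ≤
        ((D1 + (2 * k + 4 * r + 5) + 1 + r) * L) ^ ((r + 1) * k) := by
      rw [pow_mul]
      apply Nat.pow_le_pow_left
      rw [mul_pow]
      apply Nat.mul_le_mul_right
      calc D1 ≤ (D1 + (2 * k + 4 * r + 5) + 1 + r) ^ 1 := by rw [pow_one]; omega
        _ ≤ (D1 + (2 * k + 4 * r + 5) + 1 + r) ^ (r + 1) :=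
          Nat.pow_le_pow_right (by omega) (by omega)
    exact h2.trans (Nat.pow_le_pow_right hDL (by omega))
  · have h1 := Nat.div_add_mod (n - 2) r
    have h2 := Nat.mod_lt (n - 2) (by omega : 0 < r)
    have h3 : n ≤ (D1 + (2 * k + 4 * r + 5) + 1 + r) * L := by
      have h4 : (D1 + (2 * k + 4 * r + 5) + 1 + r) * L =
        D1 * L + (2 * k + 4 * r + 5) * L + (1 + r) * L := by ring
      have h5 : (1 + r) * 1 ≤ (1 + r) * L := Nat.mul_le_mul_left _ hL1
      rw [h4]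
      omega
    have h6 : k ≤ (r + 1) * k := Nat.le_mul_of_pos_left _ (by omega)
    calc n ^ (k + 2) ≤ ((D1 + (2 * k + 4 * r + 5) + 1 + r) * L) ^ (k + 2) :=
          Nat.pow_le_pow_left h3 _
      _ ≤ ((D1 + (2 * k + 4 * r + 5) + 1 + r) * L) ^ ((r + 1) * k + 2) :=
          Nat.pow_le_pow_right hDL (by omega)
      _ = 1 * 1 * ((D1 + (2 * k + 4 * r + 5) + 1 + r) * L) ^ ((r + 1) * k + 2) := by ring
      _ ≤ _ := Nat.mul_le_mul_right _ (Nat.mul_le_mul hT1 hSk)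

theorem clog_le_log {n : ℕ} (hn : 2 ≤ n) : (Nat.clog 2 n : ℝ) ≤ 3 * Real.log n := by
  have h1 := Nat.pow_pred_clog_lt_self (b := 2) (by norm_num) (x := n) (by omega)
  have h0 : 0 < Nat.clog 2 n := Nat.clog_pos (by norm_num) hn
  have h2 : ((2 : ℝ) ^ (Nat.clog 2 n).pred) < n := by exact_mod_cast h1
  have h3 := Real.log_lt_log (by positivity) h2
  rw [Real.log_pow] at h3
  have h4 : (((Nat.clog 2 n).pred : ℕ) : ℝ) = (Nat.clog 2 n : ℝ) - 1 := by
    rw [Nat.pred_eq_sub_one, Nat.cast_sub h0, Nat.cast_one]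
  rw [h4] at h3
  have h5 := Real.log_two_gt_d9
  have h6 : Real.log 2 ≤ Real.log n := by
    apply Real.log_le_log (by norm_num)
    exact_mod_cast hn
  nlinarith

end ArithBAux

open ArithBAux

/-- **Lower bound** (`k ≥ 1`). -/
theorem lower (k : ℕ) (hk : 1 ≤ k) : ∃ c : ℕ, ∀ (n S T : ℕ) (s t : Fin n), s ≠ t →
    ∀ (M : Mach (Fin n × Fin n) S) (out : Fin S), Decides M out T (2 ^ (k + 1) + 1) s t →
      (n : ℝ) ^ (k + 2) ≤ T * (S : ℝ) ^ k * (c * Real.log n) ^ c := by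
  obtain ⟨D, E, hD, h⟩ := nat_lower k hk
  refine ⟨3 * D + E + 2, fun n S T s t hst M out hM => ?_⟩
  have hn : 2 ≤ n := by
    by_contra h
    apply hst
    apply Fin.ext
    have := s.2
    have := t.2
    omega
  have h1 := h n S T s t hst M out hM
  have h2 : (n : ℝ) ^ (k + 2) ≤ T * (S : ℝ) ^ k * ((D : ℝ) * (Nat.clog 2 n : ℝ)) ^ E := by
    exact_mod_cast h1
  refine h2.trans (mul_le_mul_of_nonneg_left ?_ (by positivity))
  have h3 := clog_le_log hn
  have h5 := Real.log_two_gt_d9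
  have h6 : Real.log 2 ≤ Real.log n := by
    apply Real.log_le_log (by norm_num)
    exact_mod_cast hn
  have h7 : (0 : ℝ) ≤ D := Nat.cast_nonneg _
  have h8 : (0 : ℝ) ≤ E := Nat.cast_nonneg _
  have h9 : (D : ℝ) * (Nat.clog 2 n : ℝ) ≤ ((3 * D + E + 2 : ℕ) : ℝ) * Real.log n := by
    push_cast
    nlinarith [mul_le_mul_of_nonneg_left h3 h7, mul_nonneg h8 (by linarith : (0 : ℝ) ≤ Real.log n)]
  have h10 : (1 : ℝ) ≤ ((3 * D + E + 2 : ℕ) : ℝ) * Real.log n := by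
    push_cast
    nlinarith [mul_nonneg h8 (by linarith : (0 : ℝ) ≤ Real.log n),
      mul_nonneg h7 (by linarith : (0 : ℝ) ≤ Real.log n)]
  calc ((D : ℝ) * (Nat.clog 2 n : ℝ)) ^ E ≤ (((3 * D + E + 2 : ℕ) : ℝ) * Real.log n) ^ E :=
        pow_le_pow_left₀ (by positivity) h9 E
    _ ≤ (((3 * D + E + 2 : ℕ) : ℝ) * Real.log n) ^ (3 * D + E + 2) :=
        pow_le_pow_right₀ h10 (by omega)

end MTS
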