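import Pool.Agent.Lib.MTS.ArithB

/-!
# MTS.ArithC (MP_e46137_lc): superpolynomial time
-/

namespace MTS

open Classical Finset

namespace ArithCAux

theorem log_small (c : ℕ) : ∃ n₀ : ℕ, ∀ n ≥ n₀, ((c : ℝ) * Real.log n) ^ c < (n : ℝ) := by
  have h1 : (fun x : ℝ => Real.log x ^ c) =o[Filter.atTop] id := Real.isLittleO_pow_log_id_atTop
  have hpos : (0 : ℝ) < 1 / (2 * ((c : ℝ) ^ c + 1)) := by positivity
  have h2 := h1.def hpos
  have h3 : ∀ᶠ x : ℝ in Filter.atTop, ((c : ℝ) * Real.log x) ^ c < x := by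
    filter_upwards [h2, Filter.eventually_gt_atTop (1 : ℝ)] with x hx hx1
    have hx0 : 0 < x := by linarith
    have hlog : 0 ≤ Real.log x ^ c := pow_nonneg (Real.log_nonneg hx1.le) c
    rw [Real.norm_of_nonneg hlog, id, Real.norm_of_nonneg hx0.le] at hx
    rw [mul_pow]
    have hc : (0 : ℝ) ≤ (c : ℝ) ^ c := by positivity
    have h4 : (c : ℝ) ^ c * Real.log x ^ c ≤
        (c : ℝ) ^ c * (1 / (2 * ((c : ℝ) ^ c + 1)) * x) := mul_le_mul_of_nonneg_left hx hc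
    have h5 : (c : ℝ) ^ c * (1 / (2 * ((c : ℝ) ^ c + 1)) * x) < x := by
      have h6 : (c : ℝ) ^ c * (1 / (2 * ((c : ℝ) ^ c + 1))) < 1 := by
        rw [mul_one_div, div_lt_one (by positivity)]
        linarith
      calc (c : ℝ) ^ c * (1 / (2 * ((c : ℝ) ^ c + 1)) * x)
          = ((c : ℝ) ^ c * (1 / (2 * ((c : ℝ) ^ c + 1)))) * x := by ring
        _ < 1 * x := mul_lt_mul_of_pos_right h6 hx0
        _ = x := one_mul x
    linarith
  obtain ⟨a, ha⟩ := Filter.eventually_atTop.1 h3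
  refine ⟨⌈a⌉₊, fun n hn => ha n ?_⟩
  exact (Nat.le_ceil a).trans (by exact_mod_cast hn)

end ArithCAux

/-- With `n ^ (1 - δ)` bits of memory no polynomial time suffices. -/
theorem superpoly (C δ : ℝ) (hδ : 0 < δ) : ∃ l n₀ : ℕ, ∀ n ≥ n₀, ∀ (S T : ℕ) (s t : Fin n), s ≠ t →
    ∀ (M : Mach (Fin n × Fin n) S) (out : Fin S), Decides M out T l s t →
      (S : ℝ) ≤ (n : ℝ) ^ (1 - δ) → (n : ℝ) ^ C < T := by
  obtain ⟨k₀, hk₀⟩ := exists_nat_ge ((C + 1) / δ)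
  obtain ⟨k, hk1, hk⟩ : ∃ k : ℕ, 1 ≤ k ∧ (C + 1) / δ ≤ k :=
    ⟨k₀ + 1, Nat.le_add_left 1 k₀, hk₀.trans (by push_cast; linarith)⟩
  have hk' : C + 1 ≤ k * δ := by
    rw [div_le_iff₀ hδ] at hk
    exact hk
  obtain ⟨c, hc⟩ := lower k hk1
  obtain ⟨n₀, hn₀⟩ := ArithCAux.log_small c
  refine ⟨2 ^ (k + 1) + 1, max n₀ 1, ?_⟩
  intro n hn S T s t hst M out hM hS
  have hn1 : 1 ≤ n := le_trans (le_max_right _ _) hn
  have hn2 := hn₀ n (le_trans (le_max_left _ _) hn)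
  have hnR : (1 : ℝ) ≤ (n : ℝ) := by exact_mod_cast hn1
  have hnpos : (0 : ℝ) < (n : ℝ) := by linarith
  have h0 := hc n S T s t hst M out hM
  have h1 : (n : ℝ) ^ k ≤ T * (S : ℝ) ^ k * ((c : ℝ) * Real.log n) ^ c :=
    (pow_le_pow_right₀ hnR (by omega)).trans h0
  by_contra hcon
  push Not at hcon
  have hL : 0 ≤ ((c : ℝ) * Real.log n) ^ c :=
    pow_nonneg (mul_nonneg (Nat.cast_nonneg c) (Real.log_nonneg hnR)) c
  have hSk : (S : ℝ) ^ k ≤ (n : ℝ) ^ ((1 - δ) * k) := by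
    rw [Real.rpow_mul hnpos.le, Real.rpow_natCast]
    exact pow_le_pow_left₀ (Nat.cast_nonneg S) hS k
  have h2 : (n : ℝ) ^ k ≤ (n : ℝ) ^ C * (n : ℝ) ^ ((1 - δ) * k) * (n : ℝ) := by
    refine h1.trans ?_
    have h3 : (T : ℝ) * (S : ℝ) ^ k ≤ (n : ℝ) ^ C * (n : ℝ) ^ ((1 - δ) * k) :=
      mul_le_mul hcon hSk (by positivity) (by positivity)
    exact mul_le_mul h3 hn2.le hL (by positivity)
  have h3 : (n : ℝ) ^ C * (n : ℝ) ^ ((1 - δ) * k) * (n : ℝ) < (n : ℝ) ^ k ∨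
      (n : ℝ) ^ C * (n : ℝ) ^ ((1 - δ) * k) * (n : ℝ) ≤ (n : ℝ) ^ k := by
    right
    rw [← Real.rpow_natCast (n : ℝ) k, ← Real.rpow_add hnpos]
    conv_lhs => rw [← Real.rpow_one (n : ℝ)]
    rw [← Real.rpow_mul hnpos.le, one_mul, ← Real.rpow_add hnpos]
    apply Real.rpow_le_rpow_of_exponent_le hnR
    nlinarith
  have hTpos : 0 < (n : ℝ) ^ C * (n : ℝ) ^ ((1 - δ) * k) := by positivity
  -- strictness comes from the logarithm
  have h4 : (n : ℝ) ^ k < (n : ℝ) ^ C * (n : ℝ) ^ ((1 - δ) * k) * (n : ℝ) := by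
    refine lt_of_le_of_lt h1 ?_
    have h5 : (T : ℝ) * (S : ℝ) ^ k ≤ (n : ℝ) ^ C * (n : ℝ) ^ ((1 - δ) * k) :=
      mul_le_mul hcon hSk (by positivity) (by positivity)
    calc (T : ℝ) * (S : ℝ) ^ k * ((c : ℝ) * Real.log n) ^ c
        ≤ (n : ℝ) ^ C * (n : ℝ) ^ ((1 - δ) * k) * ((c : ℝ) * Real.log n) ^ c :=
          mul_le_mul_of_nonneg_right h5 hL
      _ < (n : ℝ) ^ C * (n : ℝ) ^ ((1 - δ) * k) * (n : ℝ) :=
          mul_lt_mul_of_pos_left hn2 hTpos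
  rcases h3 with h3 | h3
  · linarith
  · linarith

end MTS
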