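import Pool.Agent.Lib.MTS.EmbedP
import Pool.Agent.Lib.MTS.ArithB

/-!
# MTS.ArithP (MP_e46137_lc): choice of the parameters
-/

namespace MTS

open Classical Finset

namespace ArithPAux

theorem adv_le_one {n S : ℕ} (M : Mach (Fin n × Fin n) S) (out : Fin S) (T r : ℕ) (s t : Fin n) :
    accPath M out T r s t - accCut M out T s t ≤ 1 := by
  have h1 : accPath M out T r s t ≤ 1 := by
    unfold accPath
    apply div_le_one_of_le₀ _ (Nat.cast_nonneg _)
    exact_mod_cast Finset.card_filter_le _ _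
  have h2 : 0 ≤ accCut M out T s t := by
    unfold accCut
    positivity
  linarith

theorem adv_zero {n S : ℕ} (M : Mach (Fin n × Fin n) S) (out : Fin S) (r : ℕ) {s t : Fin n}
    (hst : s ≠ t) : accPath M out 0 r s t - accCut M out 0 s t ≤ 0 := by
  rcases Bool.eq_false_or_eq_true (M.init out) with h | h
  · have h1 : accPath M out 0 r s t ≤ 1 := by
      unfold accPath
      apply div_le_one_of_le₀ _ (Nat.cast_nonneg _)
      exact_mod_cast Finset.card_filter_le _ _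
    have h2 : accCut M out 0 s t = 1 := by
      have hf : (cuts n s t).filter
          (fun C => M.run (fun e => cutGraph C e.1 e.2) 0 out = true) = cuts n s t :=
        Finset.filter_true_of_mem (fun C _ => h)
      unfold accCut
      rw [hf]
      apply div_self
      have hne : (cuts n s t).card ≠ 0 := by
        apply Finset.card_ne_zero_of_mem (a := {s})
        unfold cuts
        rw [Finset.mem_filter]
        exact ⟨Finset.mem_univ _, Finset.mem_singleton_self _,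
          fun h => hst (Finset.mem_singleton.1 h).symm⟩
      exact_mod_cast hne
    linarith
  · have h1 : accPath M out 0 r s t = 0 := by
      unfold accPath
      rw [Finset.filter_false_of_mem (fun P _ h' => by
        have h3 : M.init out = true := h'
        rw [h] at h3
        exact absurd h3 (by decide))]
      simp
    have h2 : 0 ≤ accCut M out 0 s t := by
      unfold accCut
      positivity
    linarith

theorem triv {n S T k Z : ℕ} (hn : 1 ≤ n) (h : n ^ (k + 2) ≤ T * S ^ k * Z)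
    (M : Mach (Fin n × Fin n) S) (out : Fin S) (r : ℕ) (s t : Fin n) :
    accPath M out T r s t - accCut M out T s t ≤
      T * (S : ℝ) ^ k * (Z : ℝ) / (n : ℝ) ^ (k + 2) := by
  refine (adv_le_one M out T r s t).trans ?_
  have hn' : (0 : ℝ) < (n : ℝ) ^ (k + 2) := by
    have : (0 : ℝ) < n := by exact_mod_cast hn
    positivity
  rw [le_div_iff₀ hn', one_mul]
  exact_mod_cast h

/-- the main case -/
theorem main_case {n S T r N k L C : ℕ} (hr : 1 ≤ r) (hk : 2 ^ (k + 1) ≤ r)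
    (hN : N = (n - 2) / r) (hn : 2 ≤ n) (hL : L = Nat.clog 2 n) (hC : C = k + 5 + 3 * r)
    {s t : Fin n} (hst : s ≠ t)
    (M : Mach (Fin n × Fin n) S) (out : Fin S) (hSk : S ≤ n ^ 3 ∨ 1 ≤ k)
    (hT : T ≤ n ^ (k + 2)) (hw : C * L ≤ r * N)
    (hs : r * (2 * (C * L * 2 ^ r) * r + 1) ^ r * 2 ^ r ≤ N) :
    accPath M out T r s t - accCut M out T s t ≤
      T * (S : ℝ) ^ k * ((((2 * r + 1) ^ (k + 2) * (r * (2 * C * 2 ^ r * r + 1) ^ r * (k + 2)) ^ k) *
        L ^ ((r + 1) * k) + 1 : ℕ) : ℝ) / (n : ℝ) ^ (k + 2) := by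
  have hL1 : 1 ≤ L := by
    rw [hL]
    exact Nat.clog_pos (by norm_num) hn
  have hS1 : 1 ≤ S := out.pos
  have hnL : n ≤ 2 ^ L := by
    rw [hL]
    exact Nat.le_pow_clog (by norm_num) n
  have hN1 : 1 ≤ N := by
    have h1 : 1 ≤ r * (2 * (C * L * 2 ^ r) * r + 1) ^ r * 2 ^ r := by
      have := Nat.one_le_pow r (2 * (C * L * 2 ^ r) * r + 1) (by omega)
      have h2 : 1 ≤ 2 ^ r := Nat.one_le_two_pow
      exact Nat.mul_pos (Nat.mul_pos hr this) h2
    omega
  have hrN : r * N ≤ n - 2 := by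
    rw [hN]
    exact Nat.mul_div_le _ _
  have hrN2 : n - 2 < r * N + r := by
    have h1 := Nat.div_add_mod (n - 2) r
    have h2 := Nat.mod_lt (n - 2) (by omega : 0 < r)
    rw [← hN] at h1
    omega
  have hNn : N ≤ n := by
    have h1 : N ≤ r * N := Nat.le_mul_of_pos_left _ (by omega)
    omega
  have hpow : ∀ j, n ^ j ≤ 2 ^ (L * j) := by
    intro j
    rw [pow_mul]
    exact Nat.pow_le_pow_left hnL _
  have hwr : r < C * L := by
    have h1 : C * 1 ≤ C * L := Nat.mul_le_mul_left _ hL1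
    omega
  have hθ : 2 ^ (r * N - C * L) < 2 ^ (r * N - r) := by
    apply Nat.pow_lt_pow_right (by norm_num)
    omega
  have key := explicit_adv (k := k) (θ := 2 ^ (r * N - C * L)) (K := C * L * 2 ^ r)
    (by omega : r * N + 2 ≤ n) hN1 hst M out (T := T) hθ (pow_le_of_w hr hw) hk hs
  refine key.trans ?_
  have e3 : n ≤ (2 * r + 1) * N := by
    have g1 : (2 * r + 1) * N = r * N + r * N + N := by ring
    have g2 : r * 1 ≤ r * N := Nat.mul_le_mul_left _ hN1
    rw [g1]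
    omega
  have hcl : Nat.clog 2 T ≤ (k + 2) * L := by
    apply Nat.clog_le_of_le_pow
    rw [mul_comm]
    exact hT.trans (hpow _)
  have e4 : 2 * (C * L * 2 ^ r) * r + 1 ≤ (2 * C * 2 ^ r * r + 1) * L := by
    have : 2 * (C * L * 2 ^ r) * r = 2 * C * 2 ^ r * r * L := by ring
    rw [this, Nat.add_mul, one_mul]
    omega
  have e5 : S * (r * (2 * (C * L * 2 ^ r) * r + 1) ^ r) * Nat.clog 2 T ≤
      S * (r * ((2 * C * 2 ^ r * r + 1) * L) ^ r) * ((k + 2) * L) :=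
    Nat.mul_le_mul (Nat.mul_le_mul_left _ (Nat.mul_le_mul_left _ (Nat.pow_le_pow_left e4 r))) hcl
  -- first term, in natural numbers
  have f1 : T * (S * (r * (2 * (C * L * 2 ^ r) * r + 1) ^ r) * Nat.clog 2 T) ^ k * n ^ (k + 2) ≤
      T * S ^ k * (((2 * r + 1) ^ (k + 2) * (r * (2 * C * 2 ^ r * r + 1) ^ r * (k + 2)) ^ k) *
        L ^ ((r + 1) * k)) * N ^ (k + 2) := by
    calc _ ≤ T * (S * (r * ((2 * C * 2 ^ r * r + 1) * L) ^ r) * ((k + 2) * L)) ^ k *
          ((2 * r + 1) * N) ^ (k + 2) :=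
          Nat.mul_le_mul (Nat.mul_le_mul_left _ (Nat.pow_le_pow_left e5 k))
            (Nat.pow_le_pow_left e3 _)
      _ = _ := by
        rw [mul_pow (2 * C * 2 ^ r * r + 1) L r, pow_mul L (r + 1) k, pow_succ L r]
        generalize (2 * C * 2 ^ r * r + 1) ^ r = Z
        generalize L ^ r = W
        rw [mul_pow (2 * r + 1) N (k + 2)]
        generalize (2 * r + 1) ^ (k + 2) = V
        generalize N ^ (k + 2) = U
        simp only [mul_pow]
        ring
  -- second term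
  have f2 : T * (S * ((2 * N + 1) ^ r * 2 ^ (r * N - C * L))) * n ^ (k + 2) ≤
      T * S ^ k * 2 ^ (r * N) := by
    have a3 : (2 * N + 1) ^ r ≤ 2 ^ ((L + 2) * r) := by
      rw [pow_mul]
      apply Nat.pow_le_pow_left
      have : 2 ^ (L + 2) = 4 * 2 ^ L := by rw [pow_add]; norm_num; ring
      omega
    have a4 : S * n ^ (k + 2) ≤ S ^ k * 2 ^ (L * (k + 5)) := by
      rcases hSk with h | h
      · calc S * n ^ (k + 2) ≤ n ^ 3 * n ^ (k + 2) := Nat.mul_le_mul_right _ h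
          _ = n ^ (k + 5) := by rw [← pow_add]; congr 1; omega
          _ ≤ 2 ^ (L * (k + 5)) := hpow _
          _ = 1 * 2 ^ (L * (k + 5)) := (one_mul _).symm
          _ ≤ _ := Nat.mul_le_mul_right _ (Nat.one_le_pow _ _ hS1)
      · refine Nat.mul_le_mul ?_ ?_
        · calc S = S ^ 1 := (pow_one S).symm
            _ ≤ S ^ k := Nat.pow_le_pow_right hS1 h
        · refine (hpow _).trans (Nat.pow_le_pow_right (by norm_num) (Nat.mul_le_mul_left _ (by omega)))
    calc T * (S * ((2 * N + 1) ^ r * 2 ^ (r * N - C * L))) * n ^ (k + 2)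
        = T * (S * n ^ (k + 2)) * ((2 * N + 1) ^ r * 2 ^ (r * N - C * L)) := by ring
      _ ≤ T * (S ^ k * 2 ^ (L * (k + 5))) * (2 ^ ((L + 2) * r) * 2 ^ (r * N - C * L)) :=
        Nat.mul_le_mul (Nat.mul_le_mul_left _ a4) (Nat.mul_le_mul_right _ a3)
      _ = T * S ^ k * 2 ^ (L * (k + 5) + ((L + 2) * r + (r * N - C * L))) := by
        rw [pow_add, pow_add]
        ring
      _ ≤ _ := by
        apply Nat.mul_le_mul_left
        apply Nat.pow_le_pow_right (by norm_num)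
        have g2 : r * 1 ≤ r * L := Nat.mul_le_mul_left _ hL1
        have g3 : C * L = L * (k + 5) + 3 * (r * L) := by rw [hC]; ring
        have g4 : (L + 2) * r = r * L + 2 * r := by ring
        rw [g4]
        omega
  have hn0 : (0 : ℝ) < (n : ℝ) ^ (k + 2) := by
    have : (0 : ℝ) < n := by exact_mod_cast (by omega : 0 < n)
    positivity
  have hN0 : (0 : ℝ) < (N : ℝ) ^ (k + 2) := by
    have : (0 : ℝ) < N := by exact_mod_cast hN1
    positivity
  have h20 : (0 : ℝ) < (2 : ℝ) ^ (r * N) := by positivity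
  have t1 : ((T * (S * (r * (2 * (C * L * 2 ^ r) * r + 1) ^ r) * Nat.clog 2 T) ^ k : ℕ) : ℝ) /
      (N : ℝ) ^ (k + 2) ≤ ((T * S ^ k * (((2 * r + 1) ^ (k + 2) *
        (r * (2 * C * 2 ^ r * r + 1) ^ r * (k + 2)) ^ k) * L ^ ((r + 1) * k)) : ℕ) : ℝ) /
          (n : ℝ) ^ (k + 2) := by
    rw [div_le_div_iff₀ hN0 hn0]
    exact_mod_cast f1
  have t2 : ((T * (S * ((2 * N + 1) ^ r * 2 ^ (r * N - C * L))) : ℕ) : ℝ) /
      (2 : ℝ) ^ (r * N) ≤ ((T * S ^ k : ℕ) : ℝ) / (n : ℝ) ^ (k + 2) := by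
    rw [div_le_div_iff₀ h20 hn0]
    exact_mod_cast f2
  refine (add_le_add t1 t2).trans (le_of_eq ?_)
  rw [← add_div]
  congr 1
  generalize (2 * r + 1) ^ (k + 2) * (r * (2 * C * 2 ^ r * r + 1) ^ r * (k + 2)) ^ k = V
  generalize L ^ ((r + 1) * k) = W
  push_cast
  ring

theorem nat_adv (k r : ℕ) (hk : 2 ^ (k + 1) ≤ r) : ∃ D E : ℕ, 1 ≤ D ∧
    ∀ (n S T : ℕ) (s t : Fin n), s ≠ t → ∀ (M : Mach (Fin n × Fin n) S) (out : Fin S),
      S ≤ n ^ 3 ∨ 1 ≤ k → 1 ≤ T → accPath M out T r s t - accCut M out T s t ≤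
        T * (S : ℝ) ^ k * (((D * Nat.clog 2 n) ^ E : ℕ) : ℝ) / (n : ℝ) ^ (k + 2) := by
  have hr : 1 ≤ r := le_trans Nat.one_le_two_pow hk
  obtain ⟨C, hC⟩ : ∃ C, C = k + 5 + 3 * r := ⟨_, rfl⟩
  obtain ⟨D1, hD1⟩ : ∃ D1, D1 = (2 * r + 1) ^ (k + 2) *
    (r * (2 * C * 2 ^ r * r + 1) ^ r * (k + 2)) ^ k := ⟨_, rfl⟩
  obtain ⟨D2, hD2⟩ : ∃ D2, D2 = r * (r * (2 * C * 2 ^ r * r + 1) ^ r * 2 ^ r) + r + 1 := ⟨_, rfl⟩
  refine ⟨D1 + D2 + C + r + 1, (r + 1) * k + r * (k + 2) + k + 2, by omega,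
    fun n S T s t hst M out hSk hT1 => ?_⟩
  have hn : 2 ≤ n := by
    by_contra h
    apply hst
    apply Fin.ext
    have := s.2
    have := t.2
    omega
  have hS1 : 1 ≤ S := out.pos
  have hL1 : 1 ≤ Nat.clog 2 n := Nat.clog_pos (by norm_num) hn
  obtain ⟨L, hL⟩ : ∃ L, L = Nat.clog 2 n := ⟨_, rfl⟩
  rw [← hL] at hL1 ⊢
  obtain ⟨D, hD⟩ : ∃ D, D = D1 + D2 + C + r + 1 := ⟨_, rfl⟩
  obtain ⟨E, hE⟩ : ∃ E, E = (r + 1) * k + r * (k + 2) + k + 2 := ⟨_, rfl⟩
  rw [← hD, ← hE]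
  have hSk1 : 1 ≤ S ^ k := Nat.one_le_pow _ _ hS1
  have hDL : 1 ≤ D * L := Nat.mul_pos (by omega) (by omega)
  have hDLp : 1 ≤ (D * L) ^ E := Nat.one_le_pow _ _ hDL
  obtain ⟨N, hN⟩ : ∃ N, N = (n - 2) / r := ⟨_, rfl⟩
  have hrN2 : n - 2 < r * N + r := by
    have h1 := Nat.div_add_mod (n - 2) r
    have h2 := Nat.mod_lt (n - 2) (by omega : 0 < r)
    rw [← hN] at h1
    omega
  -- small `n`
  have hsmall : ∀ X a : ℕ, n ≤ X → X ≤ (D * L) ^ a → a * (k + 2) ≤ E →
      n ^ (k + 2) ≤ T * S ^ k * (D * L) ^ E := by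
    intro X a h1 h2 h3
    calc n ^ (k + 2) ≤ ((D * L) ^ a) ^ (k + 2) := Nat.pow_le_pow_left (h1.trans h2) _
      _ = (D * L) ^ (a * (k + 2)) := by rw [pow_mul]
      _ ≤ (D * L) ^ E := Nat.pow_le_pow_right hDL h3
      _ = 1 * 1 * (D * L) ^ E := by ring
      _ ≤ _ := Nat.mul_le_mul_right _ (Nat.mul_le_mul hT1 hSk1)
  by_cases hT : T ≤ n ^ (k + 2)
  swap
  · refine triv (by omega) ?_ M out r s t
    calc n ^ (k + 2) ≤ T * 1 * 1 := by omega
      _ ≤ _ := Nat.mul_le_mul (Nat.mul_le_mul_left _ hSk1) hDLp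
  by_cases hw : C * L ≤ r * N
  swap
  · refine triv (by omega) (hsmall ((C + r + 1) * L) 1 ?_ ?_ ?_) M out r s t
    · have h4 : (C + r + 1) * L = C * L + (r + 1) * L := by ring
      have h5 : (r + 1) * 1 ≤ (r + 1) * L := Nat.mul_le_mul_left _ hL1
      omega
    · rw [pow_one]
      exact Nat.mul_le_mul_right _ (by omega)
    · rw [hE]
      omega
  by_cases hs : r * (2 * (C * L * 2 ^ r) * r + 1) ^ r * 2 ^ r ≤ N
  swap
  · refine triv (by omega) (hsmall (D2 * L ^ r) r ?_ ?_ ?_) M out r s t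
    · have e4 : 2 * (C * L * 2 ^ r) * r + 1 ≤ (2 * C * 2 ^ r * r + 1) * L := by
        have : 2 * (C * L * 2 ^ r) * r = 2 * C * 2 ^ r * r * L := by ring
        rw [this, Nat.add_mul, one_mul]
        omega
      have h1 : N ≤ r * (2 * C * 2 ^ r * r + 1) ^ r * 2 ^ r * L ^ r := by
        calc N ≤ r * (2 * (C * L * 2 ^ r) * r + 1) ^ r * 2 ^ r := by omega
          _ ≤ r * ((2 * C * 2 ^ r * r + 1) * L) ^ r * 2 ^ r :=
            Nat.mul_le_mul_right _ (Nat.mul_le_mul_left _ (Nat.pow_le_pow_left e4 r))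
          _ = _ := by rw [mul_pow]; ring
      have h2 : r * N ≤ r * (r * (2 * C * 2 ^ r * r + 1) ^ r * 2 ^ r * L ^ r) :=
        Nat.mul_le_mul_left _ h1
      have h3 : (r + 1) * 1 ≤ (r + 1) * L ^ r :=
        Nat.mul_le_mul_left _ (Nat.one_le_pow _ _ hL1)
      have h4 : D2 * L ^ r = r * (r * (2 * C * 2 ^ r * r + 1) ^ r * 2 ^ r * L ^ r) +
          (r + 1) * L ^ r := by
        rw [hD2]
        ring
      omega
    · rw [mul_pow]
      apply Nat.mul_le_mul_right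
      calc D2 = D2 ^ 1 := (pow_one D2).symm
        _ ≤ D2 ^ r := Nat.pow_le_pow_right (by omega) hr
        _ ≤ D ^ r := Nat.pow_le_pow_left (by omega) r
    · rw [hE]
      omega
  · refine (main_case hr hk hN hn hL hC hst M out hSk hT hw hs).trans ?_
    rw [← hD1]
    have hn0 : (0 : ℝ) < (n : ℝ) ^ (k + 2) := by
      have : (0 : ℝ) < n := by exact_mod_cast (by omega : 0 < n)
      positivity
    apply div_le_div_of_nonneg_right _ hn0.le
    apply mul_le_mul_of_nonneg_left _ (by positivity)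
    have hfin : D1 * L ^ ((r + 1) * k) + 1 ≤ (D * L) ^ E := by
      have h1 : 1 ≤ L ^ ((r + 1) * k + 1) := Nat.one_le_pow _ _ hL1
      have h2 : L ^ ((r + 1) * k) ≤ L ^ ((r + 1) * k + 1) :=
        Nat.pow_le_pow_right hL1 (Nat.le_succ _)
      calc D1 * L ^ ((r + 1) * k) + 1 ≤ D1 * L ^ ((r + 1) * k + 1) + 1 * L ^ ((r + 1) * k + 1) :=
            Nat.add_le_add (Nat.mul_le_mul_left _ h2) (by omega)
        _ = (D1 + 1) * L ^ ((r + 1) * k + 1) := by ring
        _ ≤ D ^ ((r + 1) * k + 1) * L ^ ((r + 1) * k + 1) := by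
            apply Nat.mul_le_mul_right
            calc D1 + 1 ≤ D ^ 1 := by rw [pow_one]; omega
              _ ≤ D ^ ((r + 1) * k + 1) := Nat.pow_le_pow_right (by omega) (by omega)
        _ = (D * L) ^ ((r + 1) * k + 1) := by rw [mul_pow]
        _ ≤ (D * L) ^ E := Nat.pow_le_pow_right hDL (by rw [hE]; omega)
    exact_mod_cast hfin

end ArithPAux

open ArithPAux ArithBAux

/-- `N = (n - 2) / r`, `w = O(log n)`, `θ = 2 ^ (r N - w)`, `K = w 2 ^ r` (see `ArithA`, `ArithB`). -/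
theorem adv_bound (k r : ℕ) (hk : 2 ^ (k + 1) ≤ r) : ∃ c : ℕ, ∀ (n S T : ℕ) (s t : Fin n), s ≠ t →
    ∀ (M : Mach (Fin n × Fin n) S) (out : Fin S), S ≤ n ^ 3 ∨ 1 ≤ k →
      accPath M out T r s t - accCut M out T s t ≤
        T * (S : ℝ) ^ k * (c * Real.log n) ^ c / (n : ℝ) ^ (k + 2) := by
  obtain ⟨D, E, hD, h⟩ := nat_adv k r hk
  refine ⟨3 * D + E + 2, fun n S T s t hst M out hSk => ?_⟩
  rcases Nat.eq_zero_or_pos T with rfl | hT
  · refine (adv_zero M out r hst).trans (le_of_eq ?_)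
    simp
  have hn : 2 ≤ n := by
    by_contra h
    apply hst
    apply Fin.ext
    have := s.2
    have := t.2
    omega
  refine (h n S T s t hst M out hSk hT).trans ?_
  apply div_le_div_of_nonneg_right _ (by positivity)
  apply mul_le_mul_of_nonneg_left _ (by positivity)
  push_cast
  have h3 := clog_le_log hn
  have h5 := Real.log_two_gt_d9
  have h6 : Real.log 2 ≤ Real.log n := by
    apply Real.log_le_log (by norm_num)
    exact_mod_cast hn
  have h7 : (0 : ℝ) ≤ D := Nat.cast_nonneg _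
  have h8 : (0 : ℝ) ≤ E := Nat.cast_nonneg _
  have h9 : (D : ℝ) * (Nat.clog 2 n : ℝ) ≤ (3 * (D : ℝ) + E + 2) * Real.log n := by
    nlinarith [mul_le_mul_of_nonneg_left h3 h7, mul_nonneg h8 (by linarith : (0 : ℝ) ≤ Real.log n)]
  have h10 : (1 : ℝ) ≤ (3 * (D : ℝ) + E + 2) * Real.log n := by
    nlinarith [mul_nonneg h8 (by linarith : (0 : ℝ) ≤ Real.log n),
      mul_nonneg h7 (by linarith : (0 : ℝ) ≤ Real.log n)]
  calc ((D : ℝ) * (Nat.clog 2 n : ℝ)) ^ E ≤ ((3 * (D : ℝ) + E + 2) * Real.log n) ^ E :=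
        pow_le_pow_left₀ (by positivity) h9 E
    _ ≤ ((3 * (D : ℝ) + E + 2) * Real.log n) ^ (3 * D + E + 2) :=
        pow_le_pow_right₀ h10 (by omega)

end MTS
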