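import Pool.Agent.Lib.MTS.Basic
import Pool.Agent.Lib.MTS.Spec

/-!
# MTS.AvgA (MP_e46137_lc): random paths and random layers
-/

namespace MTS

open Classical Finset

namespace AvgAAux

/-- the sum over the permutations does not depend on the embedding -/
theorem sum_perm {V : Type} [Fintype V] [DecidableEq V] {r : ℕ} (F : (Fin r ↪ V) → ℕ) (Q : Fin r ↪ V) :
    (∑ π : Equiv.Perm V, F (Q.trans π.toEmbedding)) * Fintype.card (Fin r ↪ V) =
      Fintype.card (Equiv.Perm V) * ∑ E : Fin r ↪ V, F E := by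
  have h1 : ∀ Q' : Fin r ↪ V, (∑ π : Equiv.Perm V, F (Q'.trans π.toEmbedding)) =
      ∑ π : Equiv.Perm V, F (Q.trans π.toEmbedding) := by
    intro Q'
    obtain ⟨σ, hσ⟩ := Equiv.Perm.exists_extending_pair Q Q' Q.injective Q'.injective
    have e : Q' = Q.trans σ.toEmbedding := by
      ext j
      exact (hσ j).symm
    rw [e]
    exact Equiv.sum_comp (Equiv.mulRight σ) (fun π => F (Q.trans π.toEmbedding))
  have h2 : ∀ π : Equiv.Perm V, (∑ E : Fin r ↪ V, F (E.trans π.toEmbedding)) =
      ∑ E : Fin r ↪ V, F E := by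
    intro π
    let e : (Fin r ↪ V) ≃ (Fin r ↪ V) :=
      { toFun := fun E => E.trans π.toEmbedding
        invFun := fun E => E.trans π.symm.toEmbedding
        left_inv := fun E => by ext j; simp
        right_inv := fun E => by ext j; simp }
    exact Equiv.sum_comp e F
  have h3 : (∑ Q' : Fin r ↪ V, ∑ π : Equiv.Perm V, F (Q'.trans π.toEmbedding)) =
      Fintype.card (Fin r ↪ V) * ∑ π : Equiv.Perm V, F (Q.trans π.toEmbedding) := by
    rw [Finset.sum_congr rfl fun Q' _ => h1 Q', Finset.sum_const, Finset.card_univ, smul_eq_mul]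
  rw [Finset.sum_comm, Finset.sum_congr rfl fun π _ => h2 π, Finset.sum_const, Finset.card_univ,
    smul_eq_mul] at h3
  rw [h3, mul_comm]

theorem card_seqs {n r : ℕ} {s t : Fin n} (p : (Fin r → Fin n) → Prop) [DecidablePred p] :
    ((seqs n r s t).filter p).card =
      (univ.filter (fun E : Fin r ↪ {v : Fin n // v ≠ s ∧ v ≠ t} => p (fun j => (E j).1))).card := by
  symm
  refine Finset.card_bij (fun E _ => fun j => (E j).1) ?_ ?_ ?_
  · intro E hE
    rw [Finset.mem_filter] at hE ⊢
    refine ⟨?_, hE.2⟩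
    unfold seqs
    rw [Finset.mem_filter]
    refine ⟨Finset.mem_univ _, ?_, fun i => (E i).2⟩
    intro i j hij
    exact E.injective (Subtype.ext hij)
  · intro E _ E' _ h
    ext j
    exact congrArg Fin.val (congrFun h j)
  · intro P hP
    rw [Finset.mem_filter] at hP
    obtain ⟨h1, h2⟩ := hP
    unfold seqs at h1
    rw [Finset.mem_filter] at h1
    refine ⟨⟨fun j => ⟨P j, h1.2.2 j⟩, fun i j hij => h1.2.1 (congrArg Subtype.val hij)⟩, ?_, rfl⟩
    rw [Finset.mem_filter]
    exact ⟨Finset.mem_univ _, h2⟩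

theorem card_V {n : ℕ} {s t : Fin n} (hst : s ≠ t) :
    Fintype.card {v : Fin n // v ≠ s ∧ v ≠ t} = n - 2 := by
  rw [Fintype.card_subtype]
  have h1 : univ.filter (fun v : Fin n => v ≠ s ∧ v ≠ t) = univ \ {s, t} := by
    ext v
    simp
  rw [h1, Finset.card_sdiff_of_subset (Finset.subset_univ _), Finset.card_pair hst,
    Finset.card_univ, Fintype.card_fin]

end AvgAAux

open AvgAAux

/-- Averaging over the permutations of the vertices which fix `s` and `t`: for some position of the
layers, the average of `f` over the layered paths is at least the average over all paths. -/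
theorem exists_layers {n r N : ℕ} (hn : r * N + 2 ≤ n) (hN : 1 ≤ N) {s t : Fin n} (hst : s ≠ t)
    (f : (Fin r → Fin n) → Bool) : ∃ y : Fin r × Fin N → Fin n, Function.Injective y ∧
      (∀ x, y x ≠ s) ∧ (∀ x, y x ≠ t) ∧
      (((seqs n r s t).filter (fun P => f P = true)).card : ℝ) / (seqs n r s t).card ≤
        ((univ.filter (fun P : Pth r N => f (fun j => y (j, P j)) = true)).card : ℝ) /
          (N : ℝ) ^ r := by
  have hcard : Fintype.card (Fin r × Fin N) ≤ Fintype.card {v : Fin n // v ≠ s ∧ v ≠ t} := by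
    rw [card_V hst, Fintype.card_prod, Fintype.card_fin, Fintype.card_fin]
    omega
  obtain ⟨y0⟩ := Function.Embedding.nonempty_of_card_le hcard
  let Q : Pth r N → (Fin r ↪ {v : Fin n // v ≠ s ∧ v ≠ t}) := fun P =>
    ⟨fun j => y0 (j, P j), fun i j hij => (Prod.ext_iff.1 (y0.injective hij)).1⟩
  let F : (Fin r ↪ {v : Fin n // v ≠ s ∧ v ≠ t}) → ℕ := fun E =>
    if f (fun j => (E j).1) = true then 1 else 0
  have P0 : Pth r N := fun _ => ⟨0, hN⟩
  have hEpos : 0 < Fintype.card (Fin r ↪ {v : Fin n // v ≠ s ∧ v ≠ t}) :=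
    Fintype.card_pos_iff.2 ⟨Q P0⟩
  have hsum : (∑ π : Equiv.Perm {v : Fin n // v ≠ s ∧ v ≠ t},
      (∑ P : Pth r N, F ((Q P).trans π.toEmbedding)) *
        Fintype.card (Fin r ↪ {v : Fin n // v ≠ s ∧ v ≠ t})) =
      ∑ _π : Equiv.Perm {v : Fin n // v ≠ s ∧ v ≠ t}, N ^ r * ∑ E, F E := by
    rw [← Finset.sum_mul, Finset.sum_comm, Finset.sum_mul,
      Finset.sum_congr rfl fun P _ => sum_perm F (Q P), Finset.sum_const, Finset.sum_const,
      Finset.card_univ, Finset.card_univ, smul_eq_mul, smul_eq_mul, Fintype.card_fun,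
      Fintype.card_fin, Fintype.card_fin]
    ring
  obtain ⟨π, -, hπ⟩ := Finset.exists_le_of_sum_le (s := (Finset.univ :
    Finset (Equiv.Perm {v : Fin n // v ≠ s ∧ v ≠ t}))) Finset.univ_nonempty hsum.ge
  refine ⟨fun x => (π (y0 x)).1, ?_, fun x => (π (y0 x)).2.1, fun x => (π (y0 x)).2.2, ?_⟩
  · intro x x' h
    exact y0.injective (π.injective (Subtype.ext h))
  · have h1 : ((seqs n r s t).filter (fun P => f P = true)).card = ∑ E, F E := by
      rw [card_seqs, Finset.card_filter]
    have h2 : (seqs n r s t).card = Fintype.card (Fin r ↪ {v : Fin n // v ≠ s ∧ v ≠ t}) := by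
      have := card_seqs (n := n) (r := r) (s := s) (t := t) (fun _ => True)
      rw [Finset.filter_true, Finset.filter_true, Finset.card_univ] at this
      exact this
    have h3 : (univ.filter (fun P : Pth r N =>
        f (fun j => (π (y0 (j, P j))).1) = true)).card =
          ∑ P : Pth r N, F ((Q P).trans π.toEmbedding) := by
      rw [Finset.card_filter]
      rfl
    rw [h1, h2, h3, div_le_div_iff₀ (by exact_mod_cast hEpos) (by positivity)]
    have h4 : (N ^ r * ∑ E, F E : ℕ) ≤ (∑ P : Pth r N, F ((Q P).trans π.toEmbedding)) *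
        Fintype.card (Fin r ↪ {v : Fin n // v ≠ s ∧ v ≠ t}) := hπ
    rw [mul_comm (N ^ r)] at h4
    exact_mod_cast h4

end MTS
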