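import Pool.Agent.Lib.MTS.Basic
import Pool.Agent.Lib.MTS.Spec

/-!
# MTS.AvgB (MP_e46137_lc): random cuts of all vertices and of the vertices of the layers
-/

namespace MTS

open Classical Finset

/-- colour of a vertex: `χ` on the layers, `o` outside the layers -/
noncomputable def colO {n r N : ℕ} (y : Fin r × Fin N → Fin n) (s t : Fin n) (o : Fin n → Bool)
    (χ : Col r N) (v : Fin n) : Bool :=
  if v = s then true
  else if v = t then false
  else if h : ∃ x, y x = v then χ h.choose.1 h.choose.2
  else o v

/-- the vertices with colour `true` -/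
noncomputable def cutSet {n r N : ℕ} (y : Fin r × Fin N → Fin n) (s t : Fin n) (o : Fin n → Bool)
    (χ : Col r N) : Finset (Fin n) := univ.filter (fun v => colO y s t o χ v = true)

namespace AvgBAux

/-- translation of the colours by `D` -/
def tr {n r N : ℕ} (y : Fin r × Fin N → Fin n) (D : Fin n → Bool)
    (p : (Fin n → Bool) × Col r N) : (Fin n → Bool) × Col r N :=
  (fun v => xor (p.1 v) (D v), fun i k => xor (p.2 i k) (D (y (i, k))))

theorem tr_tr {n r N : ℕ} (y : Fin r × Fin N → Fin n) (D : Fin n → Bool)
    (p : (Fin n → Bool) × Col r N) : tr y D (tr y D p) = p := by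
  unfold tr
  refine Prod.ext ?_ ?_
  · funext v
    simp
  · funext i k
    simp

theorem colO_tr {n r N : ℕ} {s t : Fin n} (y : Fin r × Fin N → Fin n) (D : Fin n → Bool)
    (hDs : D s = false) (hDt : D t = false) (p : (Fin n → Bool) × Col r N) (v : Fin n) :
    colO y s t (tr y D p).1 (tr y D p).2 v = xor (colO y s t p.1 p.2 v) (D v) := by
  unfold colO tr
  by_cases h1 : v = s
  · simp [h1, hDs]
  · by_cases h2 : v = t
    · subst h2
      simp [h1, hDt]
    · by_cases h3 : ∃ x, y x = v
      · have h4 : y (h3.choose.1, h3.choose.2) = v := h3.choose_spec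
        simp only [h1, h2, if_false, h3, dif_pos]
        rw [h4]
      · simp only [h1, h2, if_false, h3, dif_neg, not_false_eq_true]

theorem cutSet_mem_cuts {n r N : ℕ} {s t : Fin n} (hst : s ≠ t) (y : Fin r × Fin N → Fin n)
    (o : Fin n → Bool) (χ : Col r N) : cutSet y s t o χ ∈ cuts n s t := by
  unfold cutSet cuts
  simp only [mem_filter, mem_univ, true_and]
  constructor
  · simp [colO]
  · simp [colO, hst.symm]

theorem card_fib_le {n r N : ℕ} {s t : Fin n} (y : Fin r × Fin N → Fin n)
    {C C' : Finset (Fin n)} (hC : C ∈ cuts n s t) (hC' : C' ∈ cuts n s t) :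
    (univ.filter (fun p : (Fin n → Bool) × Col r N => cutSet y s t p.1 p.2 = C)).card ≤
    (univ.filter (fun p : (Fin n → Bool) × Col r N => cutSet y s t p.1 p.2 = C')).card := by
  simp only [cuts, mem_filter, mem_univ, true_and] at hC hC'
  set D : Fin n → Bool := fun v => xor (decide (v ∈ C)) (decide (v ∈ C')) with hD
  have hDs : D s = false := by simp [hD, hC.1, hC'.1]
  have hDt : D t = false := by simp [hD, hC.2, hC'.2]
  refine Finset.card_le_card_of_injOn (tr y D) ?_ ?_
  · intro p hp
    have hp := (mem_filter.1 (mem_coe.1 hp)).2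
    refine mem_coe.2 (mem_filter.2 ⟨mem_univ _, ?_⟩)
    ext v
    have h1 : (v ∈ C) ↔ colO y s t p.1 p.2 v = true := by
      rw [← hp]
      simp [cutSet]
    have h2 := colO_tr y D hDs hDt p v
    simp only [cutSet, mem_filter, mem_univ, true_and]
    rw [h2]
    by_cases h3 : v ∈ C
    · rw [h1.1 h3]
      simp [hD, h3]
    · have h4 : colO y s t p.1 p.2 v = false := by
        have := mt h1.2 h3
        simpa using this
      rw [h4]
      simp [hD, h3]
  · intro p _ q _ hpq
    have := congrArg (tr y D) hpq
    rwa [tr_tr, tr_tr] at this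

end AvgBAux

open AvgBAux in
/-- Averaging over the colours outside the layers. -/
theorem exists_outside {n r N : ℕ} {s t : Fin n} (hst : s ≠ t) (y : Fin r × Fin N → Fin n)
    (hy : Function.Injective y) (hs : ∀ x, y x ≠ s) (ht : ∀ x, y x ≠ t)
    (g : Finset (Fin n) → Bool) : ∃ o : Fin n → Bool,
      ((univ.filter (fun χ : Col r N => g (cutSet y s t o χ) = true)).card : ℝ) /
          (2 : ℝ) ^ (r * N) ≤
        (((cuts n s t).filter (fun C => g C = true)).card : ℝ) / (cuts n s t).card := by
  set C0 : Finset (Fin n) := {s} with hC0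
  have hC0m : C0 ∈ cuts n s t := by
    simp [cuts, hC0, hst.symm]
  set K : ℕ := (univ.filter
    (fun p : (Fin n → Bool) × Col r N => cutSet y s t p.1 p.2 = C0)).card with hK
  have hfib : ∀ C ∈ cuts n s t, (univ.filter
      (fun p : (Fin n → Bool) × Col r N => cutSet y s t p.1 p.2 = C)).card = K := by
    intro C hC
    exact le_antisymm (card_fib_le y hC hC0m) (card_fib_le y hC0m hC)
  -- the total number
  have htot : 2 ^ n * 2 ^ (r * N) = K * (cuts n s t).card := by
    have h1 : (univ : Finset ((Fin n → Bool) × Col r N)).card = 2 ^ n * 2 ^ (r * N) := by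
      rw [Finset.card_univ, Fintype.card_prod]
      have e1 : Fintype.card (Fin n → Bool) = 2 ^ n := by simp
      have e2 : Fintype.card (Col r N) = 2 ^ (r * N) := by
        simp [Col, pow_mul']
      rw [e1, e2]
    have hm : Set.MapsTo (fun p : (Fin n → Bool) × Col r N => cutSet y s t p.1 p.2)
        (univ : Finset ((Fin n → Bool) × Col r N)) (cuts n s t) :=
      fun p _ => cutSet_mem_cuts hst y p.1 p.2
    have h2 := Finset.card_eq_sum_card_fiberwise hm
    rw [Finset.sum_congr rfl hfib, Finset.sum_const, smul_eq_mul] at h2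
    rw [← h1, h2, mul_comm]
  have hgood : ∑ o : Fin n → Bool,
      (univ.filter (fun χ : Col r N => g (cutSet y s t o χ) = true)).card =
      K * ((cuts n s t).filter (fun C => g C = true)).card := by
    have h1 : ∑ o : Fin n → Bool,
        (univ.filter (fun χ : Col r N => g (cutSet y s t o χ) = true)).card =
        (univ.filter (fun p : (Fin n → Bool) × Col r N =>
          g (cutSet y s t p.1 p.2) = true)).card := by
      rw [Finset.card_filter, Fintype.sum_prod_type]
      refine Finset.sum_congr rfl (fun o _ => ?_)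
      rw [Finset.card_filter]
    have hm : Set.MapsTo (fun p : (Fin n → Bool) × Col r N => cutSet y s t p.1 p.2)
        (univ.filter (fun p : (Fin n → Bool) × Col r N => g (cutSet y s t p.1 p.2) = true) :
          Finset ((Fin n → Bool) × Col r N)) ((cuts n s t).filter (fun C => g C = true)) := by
      intro p hp
      have hp' := (mem_filter.1 (mem_coe.1 hp)).2
      exact mem_coe.2 (mem_filter.2 ⟨cutSet_mem_cuts hst y p.1 p.2, hp'⟩)
    have h2 := Finset.card_eq_sum_card_fiberwise hm
    rw [h1, h2, mul_comm, ← smul_eq_mul, ← Finset.sum_const]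
    refine Finset.sum_congr rfl (fun C hC => ?_)
    rw [mem_filter] at hC
    rw [← hfib C hC.1]
    congr 1
    ext p
    simp only [mem_filter, mem_univ, true_and]
    constructor
    · exact fun h => h.2
    · intro h
      exact ⟨by rw [h]; exact hC.2, h⟩
  have hcpos : (0 : ℝ) < (cuts n s t).card := by
    have : 0 < (cuts n s t).card := Finset.card_pos.2 ⟨C0, hC0m⟩
    exact_mod_cast this
  by_contra hcon
  push Not at hcon
  have e1 : Fintype.card (Fin n → Bool) = 2 ^ n := by simp
  have hg' : (∑ o : Fin n → Bool,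
      ((univ.filter (fun χ : Col r N => g (cutSet y s t o χ) = true)).card : ℝ)) =
      (K : ℝ) * ((cuts n s t).filter (fun C => g C = true)).card := by
    exact_mod_cast hgood
  have ht' : (2 : ℝ) ^ n * 2 ^ (r * N) = (K : ℝ) * (cuts n s t).card := by
    exact_mod_cast htot
  have hlt2 : ((2 : ℝ) ^ n) * ((((cuts n s t).filter (fun C => g C = true)).card : ℝ) /
      (cuts n s t).card) <
      ((K : ℝ) * ((cuts n s t).filter (fun C => g C = true)).card) / 2 ^ (r * N) := by
    rw [← hg', Finset.sum_div]
    have h3 : ∑ o : Fin n → Bool,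
        (((cuts n s t).filter (fun C => g C = true)).card : ℝ) / (cuts n s t).card =
        (2 : ℝ) ^ n * ((((cuts n s t).filter (fun C => g C = true)).card : ℝ) /
          (cuts n s t).card) := by
      rw [Finset.sum_const, Finset.card_univ, e1, nsmul_eq_mul]
      push_cast
      ring
    rw [← h3]
    exact Finset.sum_lt_sum_of_nonempty ⟨fun _ => true, mem_univ _⟩ (fun o _ => hcon o)
  have h2 : (0 : ℝ) < 2 ^ (r * N) := by positivity
  rw [lt_div_iff₀ h2] at hlt2
  have h4 : ((2 : ℝ) ^ n) * ((((cuts n s t).filter (fun C => g C = true)).card : ℝ) /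
      (cuts n s t).card) * 2 ^ (r * N) =
      (K : ℝ) * ((cuts n s t).filter (fun C => g C = true)).card := by
    rw [mul_right_comm, ht']
    field_simp
  rw [h4] at hlt2
  exact lt_irrefl _ hlt2

end MTS
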