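import Mathlib

/-!
# MTS.Basic (MP_e46137_lc): colourings, closed families of partial colourings

`r` layers of `N` vertices.  A path chooses one vertex of each layer; it has `r + 1` arcs, numbered
`0, …, r`; the arc `q` joins the vertices of the layers `q - 1` and `q`.
-/

namespace MTS

open Classical Finset

/-- a path: one vertex in each layer -/
abbrev Pth (r N : ℕ) := Fin r → Fin N

/-- a colouring of all vertices (`true`: side of the source, `false`: side of the target) -/
abbrev Col (r N : ℕ) := Fin r → Fin N → Bool

/-- a partial colouring with at most one coloured vertex in each layer -/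
abbrev PC (r N : ℕ) := Fin r → Option (Fin N × Bool)

variable {r N : ℕ}

/-- the colouring `χ` extends the partial colouring `U` -/
def Agree (U : PC r N) (χ : Col r N) : Prop := ∀ j x, U j = some x → χ j x.1 = x.2

/-- `χ` extends a member of the family -/
def Hits (F : Finset (PC r N)) (χ : Col r N) : Prop := ∃ U ∈ F, Agree U χ

/-- closed families: if at most `θ` colourings extend `U` and no member of `F`, then `U ∈ F` -/
def Closed (θ : ℕ) (F : Finset (PC r N)) : Prop :=
  ∀ U, (univ.filter (fun χ : Col r N => Agree U χ ∧ ¬ Hits F χ)).card ≤ θ → U ∈ F

/-- `U` is a part of `W` -/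
def Sub (U W : PC r N) : Prop := ∀ j x, U j = some x → W j = some x

/-- minimal members -/
def IsMin (F : Finset (PC r N)) (W : PC r N) : Prop := W ∈ F ∧ ∀ U ∈ F, Sub U W → U = W

/-- the path `P` coloured with its first `q` vertices on the side of the source -/
def UP (P : Pth r N) (q : ℕ) : PC r N := fun j => some (P j, decide ((j : ℕ) < q))

/-- the vertices coloured by minimal members -/
noncomputable def supp (F : Finset (PC r N)) : Finset (Fin r × Fin N) :=
  univ.filter (fun v => ∃ W, IsMin F W ∧ ∃ c, W v.1 = some (v.2, c))

end MTS
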