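import Pool.Agent.Lib.MTS.Basic

/-!
# MTS.ClosA (MP_e46137_lc): existence of closed families with a small error
-/

namespace MTS

open Classical Finset

variable {r N : ℕ}

/-- Hint: among all families `F'` which contain `F` and satisfy
`#{χ | Hits F' χ ∧ ¬ Hits F χ} + F.card * θ ≤ F'.card * θ` take one with the largest number of
members; a partial colouring which violates closedness could be added. -/
theorem exists_closed (θ : ℕ) (F : Finset (PC r N)) : ∃ F', F ⊆ F' ∧ Closed θ F' ∧
    (univ.filter (fun χ : Col r N => Hits F' χ ∧ ¬ Hits F χ)).card ≤ (2 * N + 1) ^ r * θ := by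
  have hF : F ∈ (univ : Finset (Finset (PC r N))).filter (fun F' => F ⊆ F' ∧
      (univ.filter (fun χ : Col r N => Hits F' χ ∧ ¬ Hits F χ)).card + F.card * θ
        ≤ F'.card * θ) := by
    rw [mem_filter]
    refine ⟨mem_univ _, Subset.refl _, ?_⟩
    have h0 : (univ.filter (fun χ : Col r N => Hits F χ ∧ ¬ Hits F χ)) = ∅ := by
      rw [filter_eq_empty_iff]
      intro χ _ h
      exact h.2 h.1
    rw [h0, card_empty, zero_add]
  obtain ⟨F', hF', hmax⟩ := exists_max_image _ (fun F' : Finset (PC r N) => F'.card) ⟨F, hF⟩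
  rw [mem_filter] at hF'
  obtain ⟨-, hsub, hcard⟩ := hF'
  refine ⟨F', hsub, ?_, ?_⟩
  · intro U hU
    by_contra hUF
    have hins : insert U F' ∈ (univ : Finset (Finset (PC r N))).filter (fun F' => F ⊆ F' ∧
        (univ.filter (fun χ : Col r N => Hits F' χ ∧ ¬ Hits F χ)).card + F.card * θ
          ≤ F'.card * θ) := by
      rw [mem_filter]
      refine ⟨mem_univ _, hsub.trans (subset_insert _ _), ?_⟩
      have h1 : (univ.filter (fun χ : Col r N => Hits (insert U F') χ ∧ ¬ Hits F χ)) ⊆
          (univ.filter (fun χ : Col r N => Hits F' χ ∧ ¬ Hits F χ)) ∪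
          (univ.filter (fun χ : Col r N => Agree U χ ∧ ¬ Hits F' χ)) := by
        intro χ hχ
        rw [mem_filter] at hχ
        rw [mem_union, mem_filter, mem_filter]
        by_cases hh : Hits F' χ
        · exact Or.inl ⟨mem_univ _, hh, hχ.2.2⟩
        · refine Or.inr ⟨mem_univ _, ?_, hh⟩
          obtain ⟨W, hW, hWχ⟩ := hχ.2.1
          rcases mem_insert.1 hW with rfl | hW
          · exact hWχ
          · exact absurd ⟨W, hW, hWχ⟩ hh
      have h2 := (card_le_card h1).trans (card_union_le _ _)
      rw [card_insert_of_notMem hUF, add_mul, one_mul]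
      omega
    have h3 := hmax _ hins
    rw [card_insert_of_notMem hUF] at h3
    omega
  · have h4 : F'.card ≤ (2 * N + 1) ^ r := by
      refine (card_le_univ F').trans ?_
      simp [Fintype.card_pi, mul_comm]
    calc _ ≤ F'.card * θ := (Nat.le_add_right _ _).trans hcard
      _ ≤ _ := Nat.mul_le_mul_right _ h4

theorem Closed.up {θ : ℕ} {F : Finset (PC r N)} (hF : Closed θ F) {U W : PC r N} (hU : U ∈ F)
    (h : Sub U W) : W ∈ F := by
  refine hF W ?_
  have h0 : (univ.filter (fun χ : Col r N => Agree W χ ∧ ¬ Hits F χ)) = ∅ := by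
    rw [filter_eq_empty_iff]
    rintro χ - ⟨h1, h2⟩
    exact h2 ⟨U, hU, fun j x hx => h1 j x (h j x hx)⟩
  rw [h0, card_empty]
  exact Nat.zero_le _

theorem exists_min {F : Finset (PC r N)} {U : PC r N} (hU : U ∈ F) :
    ∃ W, IsMin F W ∧ Sub W U := by
  obtain ⟨W, hW, hmin⟩ := exists_min_image (F.filter fun W => Sub W U)
    (fun W => (univ.filter (fun j => (W j).isSome)).card)
    ⟨U, mem_filter.2 ⟨hU, fun _ _ h => h⟩⟩
  rw [mem_filter] at hW
  refine ⟨W, ⟨hW.1, fun V hV hVW => ?_⟩, hW.2⟩
  have h1 := hmin V (mem_filter.2 ⟨hV, fun j x hx => hW.2 j x (hVW j x hx)⟩)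
  have hsub : (univ.filter (fun j => (V j).isSome)) ⊆
      (univ.filter (fun j => (W j).isSome)) := by
    intro j hj
    rw [mem_filter] at hj ⊢
    obtain ⟨x, hx⟩ := Option.isSome_iff_exists.1 hj.2
    exact ⟨mem_univ _, Option.isSome_iff_exists.2 ⟨x, hVW j x hx⟩⟩
  have heq := eq_of_subset_of_card_le hsub h1
  funext j
  rcases hj : V j with _ | x
  · by_contra hne
    have hW1 : (W j).isSome := Option.isSome_iff_ne_none.2 fun h => hne h.symm
    have hmem : j ∈ (univ.filter (fun j => (V j).isSome)) := by
      rw [heq, mem_filter]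
      exact ⟨mem_univ _, hW1⟩
    rw [mem_filter, hj] at hmem
    exact absurd hmem.2 (by simp)
  · exact (hVW j x hj).symm

theorem agree_card (U : PC r N) (hN : 1 ≤ N) :
    2 ^ (r * N - r) ≤ (univ.filter (fun χ : Col r N => Agree U χ)).card := by
  have h1 : (univ.filter (fun χ : Col r N => Agree U χ)) =
      Fintype.piFinset (fun j => univ.filter (fun row : Fin N → Bool =>
        ∀ x, U j = some x → row x.1 = x.2)) := by
    ext χ
    rw [mem_filter, Fintype.mem_piFinset]
    constructor
    · intro h j
      rw [mem_filter]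
      exact ⟨mem_univ _, h.2 j⟩
    · intro h
      refine ⟨mem_univ _, fun j => ?_⟩
      exact (mem_filter.1 (h j)).2
  have h2 : ∀ j, 2 ^ (N - 1) ≤ (univ.filter (fun row : Fin N → Bool =>
      ∀ x, U j = some x → row x.1 = x.2)).card := by
    intro j
    rcases hj : U j with _ | x
    · have h3 : (univ.filter (fun row : Fin N → Bool =>
          ∀ x, (none : Option (Fin N × Bool)) = some x → row x.1 = x.2)) = univ := by
        rw [filter_true_of_mem]
        intro row _ x hx
        exact absurd hx (by simp)
      rw [h3, card_univ]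
      simp only [Fintype.card_pi, Fintype.card_bool, prod_const, card_univ, Fintype.card_fin]
      exact Nat.pow_le_pow_right (by norm_num) (Nat.sub_le _ _)
    · have h3 : (univ.filter (fun row : Fin N → Bool =>
          ∀ y, (some x : Option (Fin N × Bool)) = some y → row y.1 = y.2)) =
          Fintype.piFinset (fun i => if i = x.1 then {x.2} else univ) := by
        ext row
        rw [mem_filter, Fintype.mem_piFinset]
        constructor
        · rintro ⟨-, h⟩ i
          by_cases hi : i = x.1
          · rw [if_pos hi, mem_singleton, hi]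
            exact h x rfl
          · rw [if_neg hi]
            exact mem_univ _
        · intro h
          refine ⟨mem_univ _, fun y hy => ?_⟩
          have h4 := h x.1
          rw [if_pos rfl, mem_singleton] at h4
          have h5 : x = y := by simpa using hy
          rw [← h5]
          exact h4
      rw [h3, Fintype.card_piFinset]
      have h6 : ∀ i : Fin N, (if i = x.1 then ({x.2} : Finset Bool) else univ).card =
          if i = x.1 then 1 else 2 := by
        intro i
        split_ifs <;> simp
      rw [prod_congr rfl fun i _ => h6 i, prod_ite, prod_const_one, one_mul, prod_const]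
      have h7 : (univ.filter (fun i : Fin N => ¬ i = x.1)) = univ.erase x.1 := by
        ext i
        simp
      rw [h7, card_erase_of_mem (mem_univ _), card_univ, Fintype.card_fin]
  rw [h1, Fintype.card_piFinset, ← Nat.mul_sub_one, mul_comm, pow_mul]
  calc (2 ^ (N - 1)) ^ r = ∏ _j : Fin r, 2 ^ (N - 1) := by
        rw [prod_const, card_univ, Fintype.card_fin]
    _ ≤ _ := prod_le_prod' fun j _ => h2 j

theorem closed_univ (θ : ℕ) : Closed θ (univ : Finset (PC r N)) := by
  intro U _
  exact mem_univ _

theorem closed_empty {θ : ℕ} (hN : 1 ≤ N) (h : θ < 2 ^ (r * N - r)) :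
    Closed θ (∅ : Finset (PC r N)) := by
  intro U hU
  exfalso
  have h1 : (univ.filter (fun χ : Col r N => Agree U χ ∧ ¬ Hits (∅ : Finset (PC r N)) χ)) =
      univ.filter (fun χ : Col r N => Agree U χ) := by
    refine filter_congr fun χ _ => ?_
    constructor
    · exact fun h => h.1
    · intro h
      refine ⟨h, ?_⟩
      rintro ⟨W, hW, -⟩
      exact absurd hW (notMem_empty _)
  rw [h1] at hU
  have h2 := agree_card U hN
  omega

end MTS
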