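import Pool.Agent.Lib.MTS.ClosB2

/-!
# MTS.ClosB (MP_e46137_lc): closed families have few minimal members
-/

namespace MTS

open Classical Finset

variable {r N : ℕ}

namespace ClosBAux

theorem ext_card {θ K : ℕ} {F : Finset (PC r N)} (hF : Closed θ F)
    (hK : (2 ^ r - 1) ^ K * 2 ^ (r * N) ≤ θ * (2 ^ r) ^ K) (d : ℕ) :
    ∀ U : PC r N, (univ.filter (fun j => U j = none)).card ≤ d →
      (univ.filter (fun W : PC r N => IsMin F W ∧ Sub U W)).card ≤ (2 * K * r + 1) ^ d := by
  induction d with
  | zero =>
    intro U hU
    rw [pow_zero]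
    rw [Nat.le_zero, Finset.card_eq_zero] at hU
    rw [Finset.card_le_one]
    have key : ∀ W ∈ univ.filter (fun W : PC r N => IsMin F W ∧ Sub U W), W = U := by
      intro W hW
      rw [mem_filter] at hW
      funext j
      have h1 : U j ≠ none := by
        intro h
        have : j ∈ univ.filter (fun j => U j = none) := by
          rw [mem_filter]; exact ⟨mem_univ _, h⟩
        rw [hU] at this
        exact absurd this (Finset.notMem_empty _)
      obtain ⟨x, hx⟩ := Option.ne_none_iff_exists'.1 h1
      rw [hx]
      exact hW.2.2 j x hx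
    intro a ha b hb
    rw [key a ha, key b hb]
  | succ d ih =>
    intro U hU
    by_cases hUF : U ∈ F
    · have h1 : (univ.filter (fun W : PC r N => IsMin F W ∧ Sub U W)).card ≤ 1 := by
        rw [Finset.card_le_one]
        have key : ∀ W ∈ univ.filter (fun W : PC r N => IsMin F W ∧ Sub U W), U = W := by
          intro W hW
          rw [mem_filter] at hW
          exact hW.2.1.2 U hUF hW.2.2
        intro a ha b hb
        rw [← key a ha, ← key b hb]
      exact h1.trans (Nat.one_le_pow _ _ (by omega))
    · obtain ⟨H, hH, hcov⟩ := exists_cover hF hK hUF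
      have hsub : univ.filter (fun W : PC r N => IsMin F W ∧ Sub U W) ⊆
          (H.filter (fun x => U x.1 = none)).biUnion (fun x =>
            univ.filter (fun W : PC r N => IsMin F W ∧
              Sub (Function.update U x.1 (some x.2)) W)) := by
        intro W hW
        rw [mem_filter] at hW
        obtain ⟨x, hx, hx1, hx2⟩ := hcov W hW.2.1.1 hW.2.2
        rw [mem_biUnion]
        refine ⟨x, ?_, ?_⟩
        · rw [mem_filter]; exact ⟨hx, hx1⟩
        · rw [mem_filter]
          refine ⟨mem_univ _, hW.2.1, ?_⟩
          intro j y hy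
          by_cases hj : j = x.1
          · subst hj
            rw [Function.update_self] at hy
            rw [hx2, hy]
          · rw [Function.update_of_ne hj] at hy
            exact hW.2.2 j y hy
      have h1 : (univ.filter (fun W : PC r N => IsMin F W ∧ Sub U W)).card ≤
          (H.filter (fun x => U x.1 = none)).card * (2 * K * r + 1) ^ d := by
        refine (Finset.card_le_card hsub).trans ?_
        refine Finset.card_biUnion_le_card_mul _ _ _ ?_
        intro x hx
        rw [mem_filter] at hx
        refine ih _ ?_
        have h2 : univ.filter (fun j => Function.update U x.1 (some x.2) j = none) ⊆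
            (univ.filter (fun j => U j = none)).erase x.1 := by
          intro j hj
          rw [mem_filter] at hj
          have hjx : j ≠ x.1 := by
            intro h
            rw [h, Function.update_self] at hj
            exact absurd hj.2 (by simp)
          rw [mem_erase, mem_filter]
          refine ⟨hjx, mem_univ _, ?_⟩
          rw [← Function.update_of_ne hjx (some x.2) U]
          exact hj.2
        have h3 : x.1 ∈ univ.filter (fun j => U j = none) := by
          rw [mem_filter]; exact ⟨mem_univ _, hx.2⟩
        have h4 := Finset.card_le_card h2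
        rw [Finset.card_erase_of_mem h3] at h4
        omega
      have h2 : (H.filter (fun x => U x.1 = none)).card ≤ 2 * K * r + 1 :=
        (Finset.card_filter_le _ _).trans (hH.trans (Nat.le_succ _))
      calc _ ≤ (H.filter (fun x => U x.1 = none)).card * (2 * K * r + 1) ^ d := h1
        _ ≤ (2 * K * r + 1) * (2 * K * r + 1) ^ d := Nat.mul_le_mul_right _ h2
        _ = (2 * K * r + 1) ^ (d + 1) := by rw [pow_succ]; ring

end ClosBAux

theorem min_card {θ K : ℕ} {F : Finset (PC r N)} (hF : Closed θ F)
    (hK : (2 ^ r - 1) ^ K * 2 ^ (r * N) ≤ θ * (2 ^ r) ^ K) :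
    (univ.filter (fun W : PC r N => IsMin F W)).card ≤ (2 * K * r + 1) ^ r := by
  have h := ClosBAux.ext_card hF hK r (fun _ => none) (by
    refine (Finset.card_le_univ _).trans ?_
    rw [Fintype.card_fin])
  refine le_trans (Finset.card_le_card ?_) h
  intro W hW
  rw [mem_filter] at hW ⊢
  refine ⟨hW.1, hW.2, ?_⟩
  intro j x hx
  exact absurd hx (by simp)

theorem supp_card {θ K : ℕ} {F : Finset (PC r N)} (hF : Closed θ F)
    (hK : (2 ^ r - 1) ^ K * 2 ^ (r * N) ≤ θ * (2 ^ r) ^ K) :
    (supp F).card ≤ r * (2 * K * r + 1) ^ r := by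
  have hsub : supp F ⊆ (univ.filter (fun W : PC r N => IsMin F W)).biUnion
      (fun W => univ.filter (fun v : Fin r × Fin N => ∃ c, W v.1 = some (v.2, c))) := by
    intro v hv
    unfold supp at hv
    rw [mem_filter] at hv
    obtain ⟨-, W, hW, hc⟩ := hv
    rw [mem_biUnion]
    refine ⟨W, ?_, ?_⟩
    · rw [mem_filter]; exact ⟨mem_univ _, hW⟩
    · rw [mem_filter]; exact ⟨mem_univ _, hc⟩
  have h1 : (supp F).card ≤ (univ.filter (fun W : PC r N => IsMin F W)).card * r := by
    refine (Finset.card_le_card hsub).trans ?_
    refine Finset.card_biUnion_le_card_mul _ _ _ ?_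
    intro W _
    have h2 : (univ.filter (fun v : Fin r × Fin N => ∃ c, W v.1 = some (v.2, c))).card ≤
        (univ : Finset (Fin r)).card := by
      refine Finset.card_le_card_of_injOn (fun v => v.1) (fun _ _ => mem_univ _) ?_
      rintro ⟨j, a⟩ h3 ⟨j', a'⟩ h4 h5
      simp only at h5
      subst h5
      rw [Finset.mem_coe, mem_filter] at h3 h4
      obtain ⟨-, c, hc⟩ := h3
      obtain ⟨-, c', hc'⟩ := h4
      simp only at hc hc'
      rw [hc] at hc'
      injection hc' with hc'
      injection hc' with hc' _
      rw [hc']
    rw [Finset.card_univ, Fintype.card_fin] at h2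
    exact h2
  calc (supp F).card ≤ (univ.filter (fun W : PC r N => IsMin F W)).card * r := h1
    _ ≤ (2 * K * r + 1) ^ r * r := Nat.mul_le_mul_right _ (min_card hF hK)
    _ = r * (2 * K * r + 1) ^ r := Nat.mul_comm _ _

end MTS
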