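import Pool.Agent.Lib.MTS.Basic

/-!
# MTS.ClosB1 (MP_e46137_lc): colourings avoiding disjoint partial colourings
-/

namespace MTS

open Classical Finset

variable {r N : ℕ}

namespace ClosB1Aux

/-- overwrite `χ` by the new vertices of `W` -/
noncomputable def ov (U W : PC r N) (χ : Col r N) : Col r N := fun j v =>
  if U j = none then
    match W j with
    | some x => if x.1 = v then x.2 else χ j v
    | none => χ j v
  else χ j v

theorem ov_some {U W : PC r N} (χ : Col r N) {j : Fin r} {y : Fin N × Bool} (h : U j = some y)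
    (v : Fin N) : ov U W χ j v = χ j v := by
  unfold ov
  rw [if_neg (by rw [h]; simp)]

theorem ov_hit {U W : PC r N} (χ : Col r N) {j : Fin r} (h : U j = none) {x : Fin N × Bool}
    (hW : W j = some x) : ov U W χ j x.1 = x.2 := by
  unfold ov
  rw [if_pos h, hW]
  simp

theorem ov_miss {U W : PC r N} (χ : Col r N) {j : Fin r} (h : U j = none) {x : Fin N × Bool}
    (hW : W j = some x) {v : Fin N} (hv : x.1 ≠ v) : ov U W χ j v = χ j v := by
  unfold ov
  rw [if_pos h, hW]
  simp [hv]

theorem ov_none {U W : PC r N} (χ : Col r N) {j : Fin r} (h : U j = none) (hW : W j = none)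
    (v : Fin N) : ov U W χ j v = χ j v := by
  unfold ov
  rw [if_pos h, hW]

theorem ov_agree_left {U W : PC r N} {χ : Col r N} (h : Agree U χ) : Agree U (ov U W χ) := by
  intro j x hx
  rw [ov_some χ hx]
  exact h j x hx

theorem ov_agree {U W : PC r N} {χ : Col r N} (h : Agree U χ) (hs : Sub U W) :
    Agree W (ov U W χ) := by
  intro j x hx
  cases hU : U j with
  | none => exact ov_hit χ hU hx
  | some y =>
    have h1 := hs j y hU
    rw [hx] at h1
    have h2 : x = y := Option.some_injective _ h1
    rw [ov_some χ hU, h2]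
    exact h j y hU

theorem agree_of_ov {U W W' : PC r N} {χ : Col r N} (h : Agree U χ) (hs' : Sub U W')
    (hd : ∀ j, U j = none → ∀ x x', W j = some x → W' j = some x' → x.1 ≠ x'.1)
    (ha : Agree W' (ov U W χ)) : Agree W' χ := by
  intro j x' hx'
  have h3 := ha j x' hx'
  cases hU : U j with
  | some y =>
    rw [ov_some χ hU] at h3
    exact h3
  | none =>
    cases hW : W j with
    | none =>
      rw [ov_none χ hU hW] at h3
      exact h3
    | some x =>
      rw [ov_miss χ hU hW (hd j hU x x' hW hx')] at h3
      exact h3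

/-- the values at the vertices of `W` -/
def vals (W : PC r N) (χ : Col r N) : Fin r → Bool := fun j =>
  match W j with
  | some x => χ j x.1
  | none => false

theorem vals_some {W : PC r N} (χ : Col r N) {j : Fin r} {x : Fin N × Bool} (h : W j = some x) :
    vals W χ j = χ j x.1 := by
  unfold vals
  rw [h]

theorem eq_of_vals {U W : PC r N} {χ χ' : Col r N} (h : ov U W χ = ov U W χ')
    (hv : vals W χ = vals W χ') : χ = χ' := by
  funext j v
  have h1 : ov U W χ j v = ov U W χ' j v := by rw [h]
  cases hU : U j with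
  | some y =>
    rw [ov_some χ hU, ov_some χ' hU] at h1
    exact h1
  | none =>
    cases hW : W j with
    | none =>
      rw [ov_none χ hU hW, ov_none χ' hU hW] at h1
      exact h1
    | some x =>
      by_cases hx : x.1 = v
      · have h2 := congrFun hv j
        rw [vals_some χ hW, vals_some χ' hW, hx] at h2
        exact h2
      · rw [ov_miss χ hU hW hx, ov_miss χ' hU hW hx] at h1
        exact h1

/-- overwriting is at most `2 ^ r` to one -/
theorem card_le (U W : PC r N) (A B : Finset (Col r N)) (h : ∀ χ ∈ A, ov U W χ ∈ B) :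
    A.card ≤ 2 ^ r * B.card := by
  have h1 : A.card ≤ 2 ^ r * (A.image (ov U W)).card := by
    apply Finset.card_le_mul_card_image
    intro ψ _
    have h2 : (A.filter (fun χ => ov U W χ = ψ)).card ≤
        (univ : Finset (Fin r → Bool)).card := by
      apply Finset.card_le_card_of_injOn (vals W)
      · intro χ _
        exact Finset.mem_coe.2 (Finset.mem_univ _)
      · intro χ hχ χ' hχ' hv
        have e1 := (Finset.mem_filter.1 (Finset.mem_coe.1 hχ)).2
        have e2 := (Finset.mem_filter.1 (Finset.mem_coe.1 hχ')).2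
        exact eq_of_vals (e1.trans e2.symm) hv
    have h3 : (univ : Finset (Fin r → Bool)).card = 2 ^ r := by simp
    rw [h3] at h2
    exact h2
  refine h1.trans (Nat.mul_le_mul_left _ (Finset.card_le_card ?_))
  intro ψ hψ
  obtain ⟨χ, hχ, rfl⟩ := Finset.mem_image.1 hψ
  exact h χ hχ

end ClosB1Aux

open ClosB1Aux

/-- A list of extensions of `U` with pairwise disjoint new vertices: few colourings extend `U` and
none of them.  (Induction over the list: overwriting `χ` by the new vertices of the head of the
list maps the colourings which avoid the tail to those which moreover extend the head, at most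
`2 ^ r` to one.) -/
theorem avoid_card (U : PC r N) (l : List (PC r N)) (hl : ∀ W ∈ l, Sub U W)
    (hd : l.Pairwise (fun W W' => ∀ j, U j = none → ∀ x x', W j = some x → W' j = some x' →
      x.1 ≠ x'.1)) :
    (univ.filter (fun χ : Col r N => Agree U χ ∧ ∀ W ∈ l, ¬ Agree W χ)).card * (2 ^ r) ^ l.length ≤
      (2 ^ r - 1) ^ l.length * 2 ^ (r * N) := by
  induction l with
  | nil =>
    simp only [List.length_nil, pow_zero, mul_one, one_mul]
    have h1 : (univ : Finset (Col r N)).card = 2 ^ (r * N) := by
      rw [Finset.card_univ]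
      simp only [Col, Fintype.card_pi, Fintype.card_bool, Finset.prod_const, Finset.card_univ,
        Fintype.card_fin]
      rw [← pow_mul, mul_comm]
    rw [← h1]
    exact Finset.card_le_card (Finset.filter_subset _ _)
  | cons W l ih =>
    have ih' := ih (fun W' hW' => hl W' (List.mem_cons_of_mem _ hW')) (List.pairwise_cons.1 hd).2
    have hW := hl W List.mem_cons_self
    have hdW := (List.pairwise_cons.1 hd).1
    generalize hA : (univ.filter (fun χ : Col r N => Agree U χ ∧ ∀ W ∈ l, ¬ Agree W χ)) = A at ih'
    have hB : (univ.filter (fun χ : Col r N => Agree U χ ∧ ∀ W' ∈ W :: l, ¬ Agree W' χ)) =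
        A.filter (fun χ => ¬ Agree W χ) := by
      rw [← hA]
      ext χ
      simp only [Finset.mem_filter, Finset.mem_univ, true_and, List.forall_mem_cons]
      tauto
    have h1 : A.card ≤ 2 ^ r * (A.filter (fun χ => Agree W χ)).card := by
      apply card_le U W
      intro χ hχ
      rw [← hA, Finset.mem_filter] at hχ
      obtain ⟨_, hU, hav⟩ := hχ
      rw [Finset.mem_filter, ← hA, Finset.mem_filter]
      refine ⟨⟨Finset.mem_univ _, ov_agree_left hU, fun W' hW' ha => ?_⟩, ov_agree hU hW⟩
      exact hav W' hW' (agree_of_ov hU (hl W' (List.mem_cons_of_mem _ hW')) (hdW W' hW') ha)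
    have h2 := Finset.card_filter_add_card_filter_not (s := A) (fun χ => Agree W χ)
    have h3 : 1 ≤ 2 ^ r := Nat.one_le_two_pow
    have h4 : (A.filter (fun χ => ¬ Agree W χ)).card * 2 ^ r ≤ (2 ^ r - 1) * A.card := by
      obtain ⟨m, hm⟩ : ∃ m, 2 ^ r = m + 1 := ⟨2 ^ r - 1, by omega⟩
      rw [hm] at h1 ⊢
      rw [Nat.add_sub_cancel]
      generalize (A.filter (fun χ => ¬ Agree W χ)).card = b at *
      generalize (A.filter (fun χ => Agree W χ)).card = a at *
      rw [← h2] at h1 ⊢
      nlinarith
    rw [hB, List.length_cons, pow_succ, pow_succ]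
    calc (A.filter (fun χ => ¬ Agree W χ)).card * ((2 ^ r) ^ l.length * 2 ^ r)
        = ((A.filter (fun χ => ¬ Agree W χ)).card * 2 ^ r) * (2 ^ r) ^ l.length := by ring
      _ ≤ ((2 ^ r - 1) * A.card) * (2 ^ r) ^ l.length := Nat.mul_le_mul_right _ h4
      _ = (2 ^ r - 1) * (A.card * (2 ^ r) ^ l.length) := by ring
      _ ≤ (2 ^ r - 1) * ((2 ^ r - 1) ^ l.length * 2 ^ (r * N)) := Nat.mul_le_mul_left _ ih'
      _ = (2 ^ r - 1) ^ l.length * (2 ^ r - 1) * 2 ^ (r * N) := by ring

end MTS
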