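import Pool.Agent.Lib.MTS.ClosA
import Pool.Agent.Lib.MTS.Spec

/-!
# MTS.CoreA (MP_e46137_lc): approximators of a monotone machine with bounded memory
-/

namespace MTS

open Classical Finset

variable {A : Type} {r N S : ℕ}

namespace CoreAAux

/-- the family before closing -/
private noncomputable def pre (M : Mach A S) (X : A → Finset (PC r N)) (t : ℕ)
    (F : Fin S → Finset (PC r N)) (i : Fin S) : Finset (PC r N) :=
  univ.filter (fun U => M.next t (fun j => decide (U ∈ F j)) (decide (U ∈ X (M.arc t))) i = true)

/-- the closed families -/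
private noncomputable def fam (M : Mach A S) (X : A → Finset (PC r N)) (θ : ℕ) :
    ℕ → Fin S → Finset (PC r N)
  | 0 => fun i => if M.init i = true then univ else ∅
  | t + 1 => fun i => (exists_closed θ (pre M X t (fam M X θ t) i)).choose

private theorem fam_succ (M : Mach A S) (X : A → Finset (PC r N)) (θ t : ℕ) (i : Fin S) :
    pre M X t (fam M X θ t) i ⊆ fam M X θ (t + 1) i ∧ Closed θ (fam M X θ (t + 1) i) ∧
      (univ.filter (fun χ : Col r N => Hits (fam M X θ (t + 1) i) χ ∧
        ¬ Hits (pre M X t (fam M X θ t) i) χ)).card ≤ (2 * N + 1) ^ r * θ :=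
  (exists_closed θ (pre M X t (fam M X θ t) i)).choose_spec

private theorem good_step (M : Mach A S) (θ : ℕ) (no : Col r N → A → Bool)
    (X : A → Finset (PC r N)) (hX : ∀ e U χ, U ∈ X e → Agree U χ → no χ e = true) (t : ℕ)
    (χ : Col r N) (h : ∀ j, Hits (fam M X θ t j) χ → M.run (no χ) t j = true) (i : Fin S)
    (hi : Hits (pre M X t (fam M X θ t) i) χ) : M.run (no χ) (t + 1) i = true := by
  obtain ⟨U, hU, hχ⟩ := hi
  rw [pre, mem_filter] at hU
  have h1 : (fun j => decide (U ∈ fam M X θ t j)) ≤ M.run (no χ) t := by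
    intro j
    by_cases hj : U ∈ fam M X θ t j
    · rw [h j ⟨U, hj, hχ⟩]
      exact Bool.le_true _
    · show decide (U ∈ fam M X θ t j) ≤ _
      rw [decide_eq_false hj]
      exact Bool.false_le _
  have h2 : decide (U ∈ X (M.arc t)) ≤ no χ (M.arc t) := by
    by_cases hj : U ∈ X (M.arc t)
    · rw [hX _ _ _ hj hχ]
      exact Bool.le_true _
    · rw [decide_eq_false hj]
      exact Bool.false_le _
  have h3 := M.mono t _ _ _ _ h1 h2 i
  rw [hU.2] at h3
  exact Bool.eq_true_of_true_le h3

end CoreAAux

open CoreAAux in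
/-- Approximators: closed families for all times and memory bits. -/
theorem exists_approx (M : Mach A S) (T θ : ℕ) (hN : 1 ≤ N) (hθ : θ < 2 ^ (r * N - r))
    (no : Col r N → A → Bool) (X : A → Finset (PC r N))
    (hX : ∀ e U χ, U ∈ X e → Agree U χ → no χ e = true) :
    ∃ F : ℕ → Fin S → Finset (PC r N),
      (∀ t i, Closed θ (F t i)) ∧
      (∀ i, M.init i = true → F 0 i = univ) ∧
      (∀ t i U, M.next t (fun j => decide (U ∈ F t j)) (decide (U ∈ X (M.arc t))) i = true →
        U ∈ F (t + 1) i) ∧
      ∀ t, (univ.filter (fun χ : Col r N => ∃ i, Hits (F t i) χ ∧ M.run (no χ) t i = false)).card ≤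
        t * (S * ((2 * N + 1) ^ r * θ)) := by
  refine ⟨fam M X θ, ?_, ?_, ?_, ?_⟩
  · intro t i
    cases t with
    | zero =>
      show Closed θ (if M.init i = true then univ else ∅)
      split_ifs
      · exact closed_univ θ
      · exact closed_empty hN hθ
    | succ t => exact (fam_succ M X θ t i).2.1
  · intro i hi
    show (if M.init i = true then univ else ∅) = _
    rw [if_pos hi]
  · intro t i U hU
    apply (fam_succ M X θ t i).1
    rw [pre, mem_filter]
    exact ⟨mem_univ _, hU⟩
  · intro t
    induction t with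
    | zero =>
      rw [Nat.zero_mul, Nat.le_zero, card_eq_zero, filter_eq_empty_iff]
      rintro χ - ⟨i, hi, hr⟩
      have h1 : M.init i = false := hr
      have h2 : fam M X θ 0 i = ∅ := by
        show (if M.init i = true then univ else ∅) = _
        rw [if_neg (by rw [h1]; exact Bool.false_ne_true)]
      rw [h2] at hi
      obtain ⟨U, hU, _⟩ := hi
      exact absurd hU (notMem_empty U)
    | succ t ih =>
      have hsub : (univ.filter (fun χ : Col r N => ∃ i, Hits (fam M X θ (t + 1) i) χ ∧
          M.run (no χ) (t + 1) i = false)) ⊆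
          (univ.filter (fun χ : Col r N => ∃ i, Hits (fam M X θ t i) χ ∧
            M.run (no χ) t i = false)) ∪
          (univ : Finset (Fin S)).biUnion (fun i => univ.filter (fun χ : Col r N =>
            Hits (fam M X θ (t + 1) i) χ ∧ ¬ Hits (pre M X t (fam M X θ t) i) χ)) := by
        intro χ hχ
        rw [mem_filter] at hχ
        obtain ⟨-, i, hi, hr⟩ := hχ
        rw [mem_union, mem_filter, mem_biUnion]
        by_cases hb : ∃ i, Hits (fam M X θ t i) χ ∧ M.run (no χ) t i = false
        · exact Or.inl ⟨mem_univ _, hb⟩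
        · right
          refine ⟨i, mem_univ _, ?_⟩
          rw [mem_filter]
          refine ⟨mem_univ _, hi, ?_⟩
          intro hp
          have h1 := good_step M θ no X hX t χ (fun j hj => by
            by_contra hne
            exact hb ⟨j, hj, Bool.eq_false_iff.2 hne⟩) i hp
          rw [hr] at h1
          exact Bool.false_ne_true h1
      have h1 := (card_le_card hsub).trans (card_union_le _ _)
      have h2 := card_biUnion_le (s := (univ : Finset (Fin S)))
        (t := fun i => univ.filter (fun χ : Col r N =>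
            Hits (fam M X θ (t + 1) i) χ ∧ ¬ Hits (pre M X t (fam M X θ t) i) χ))
      have h3 : ∑ i : Fin S, (univ.filter (fun χ : Col r N =>
            Hits (fam M X θ (t + 1) i) χ ∧ ¬ Hits (pre M X t (fam M X θ t) i) χ)).card ≤
          S * ((2 * N + 1) ^ r * θ) := by
        refine (sum_le_card_nsmul _ _ ((2 * N + 1) ^ r * θ)
          (fun i _ => (fam_succ M X θ t i).2.2)).trans ?_
        rw [card_univ, Fintype.card_fin, smul_eq_mul]
      rw [Nat.succ_mul]
      omega

end MTS
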