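import Pool.Agent.Lib.MTS.Rec
import Pool.Agent.Lib.MTS.ClosB
import Pool.Agent.Lib.MTS.CoreA

/-!
# MTS.Core (MP_e46137_lc): the main inequality
-/

namespace MTS

open Classical Finset

variable {A : Type} {r N S : ℕ}

theorem core {T k θ K : ℕ} (M : Mach A S) (hN : 1 ≤ N)
    (yes : Pth r N → A → Bool) (no : Col r N → A → Bool) (ep : Pth r N → ℕ → A)
    (X : A → Finset (PC r N))
    (hX1 : ∀ e U χ, U ∈ X e → Agree U χ → no χ e = true)
    (hX2 : ∀ P e, yes P e = true → ∀ q ≤ r, e ≠ ep P q → UP P q ∈ X e)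
    (hep : ∀ P, ∀ q ≤ r, ∀ q' ≤ r, ep P q = ep P q' → q = q')
    (hep2 : ∀ P P' : Pth r N, ∀ q, 1 ≤ q → q < r → ep P q = ep P' q →
      ∀ j : Fin r, (j : ℕ) + 1 = q ∨ (j : ℕ) = q → P j = P' j)
    (out : Fin S) (hyes : ∀ P, M.run (yes P) T out = true)
    (hno : ∀ χ, M.run (no χ) T out = false)
    (hθ : T * (S * ((2 * N + 1) ^ r * θ)) < 2 ^ (r * N - r))
    (hK : (2 ^ r - 1) ^ K * 2 ^ (r * N) ≤ θ * (2 ^ r) ^ K)
    (hk : 2 ^ (k + 1) ≤ r) :
    N ^ (k + 2) ≤ T * (S * (r * (2 * K * r + 1) ^ r) * Nat.clog 2 T) ^ k := by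
  have hT1 : 1 ≤ T := by
    rcases Nat.eq_zero_or_pos T with h0 | h0
    · exfalso
      subst h0
      have h1 := hyes (fun _ => ⟨0, hN⟩)
      have h2 := hno (fun _ _ => true)
      have h3 : M.init out = true := h1
      have h4 : M.init out = false := h2
      rw [h3] at h4
      exact Bool.noConfusion h4
    · exact h0
  have hS1 : 1 ≤ S := out.pos
  have hθ' : θ < 2 ^ (r * N - r) := by
    refine lt_of_le_of_lt ?_ hθ
    have h1 : 1 ≤ (2 * N + 1) ^ r := Nat.one_le_pow _ _ (by omega)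
    calc θ = 1 * (1 * (1 * θ)) := by ring
      _ ≤ T * (S * ((2 * N + 1) ^ r * θ)) :=
        Nat.mul_le_mul hT1 (Nat.mul_le_mul hS1 (Nat.mul_le_mul_right _ h1))
  obtain ⟨F, hF1, hF2, hF3, hF4⟩ := exists_approx M T θ hN hθ' no X hX1
  have hout : ∀ U, U ∉ F T out := by
    intro U hU
    have h1 : (univ.filter (fun χ : Col r N => Agree U χ)).card ≤
        T * (S * ((2 * N + 1) ^ r * θ)) := by
      refine le_trans (card_le_card ?_) (hF4 T)
      intro χ hχ
      exact mem_filter.2 ⟨mem_univ _, out, ⟨U, hU, (mem_filter.1 hχ).2⟩, hno χ⟩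
    have h2 := agree_card U hN
    omega
  let Z : ℕ → Pth r N → Set ℕ := fun t P => {q | ∃ i, M.run (yes P) t i = true ∧ UP P q ∉ F t i}
  have key : ∀ (t : ℕ) (P : Pth r N) (q : ℕ), q ≤ r → q ∉ Z t P → M.arc t ≠ ep P q →
      q ∉ Z (t + 1) P := by
    intro t P q hq hZ hne
    rintro ⟨i, hi1, hi2⟩
    apply hi2
    apply hF3
    have h1 : M.run (yes P) t ≤ fun j => decide (UP P q ∈ F t j) := by
      intro j
      by_cases hj : M.run (yes P) t j = true
      · have h2 : UP P q ∈ F t j := by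
          by_contra h3
          exact hZ ⟨j, hj, h3⟩
        show _ ≤ decide (UP P q ∈ F t j)
        rw [decide_eq_true h2]
        exact Bool.le_true _
      · rw [Bool.eq_false_iff.2 hj]
        exact Bool.false_le _
    have h2 : yes P (M.arc t) ≤ decide (UP P q ∈ X (M.arc t)) := by
      by_cases hj : yes P (M.arc t) = true
      · rw [decide_eq_true (hX2 P (M.arc t) hj q hq hne)]
        exact Bool.le_true _
      · rw [Bool.eq_false_iff.2 hj]
        exact Bool.false_le _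
    have h3 := M.mono t _ _ _ _ h1 h2 i
    have h4 : M.next t (M.run (yes P) t) (yes P (M.arc t)) i = true := hi1
    rw [h4] at h3
    exact Bool.eq_true_of_true_le h3
  have key2 : ∀ (t : ℕ) (P : Pth r N) (q : ℕ), q ≤ r → q ∉ Z t P → q ∈ Z (t + 1) P →
      M.arc t = ep P q := by
    intro t P q hq h1 h2
    by_contra h3
    exact key t P q hq h1 h3 h2
  let Cov : ℕ → Finset (Fin r × Fin N) := fun t => univ.biUnion (fun i : Fin S => supp (F t i))
  refine rec_lemma (κ := S * (r * (2 * K * r + 1) ^ r)) Z Cov hN ?_ ?_ ?_ ?_ ?_ ?_ hk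
  · rintro P q _ ⟨i, hi1, hi2⟩
    apply hi2
    rw [hF2 i hi1]
    exact mem_univ _
  · intro P q _
    exact ⟨out, hyes P, hout _⟩
  · intro t _ P
    by_cases h : ∃ q₀ ≤ r, ep P q₀ = M.arc t
    · obtain ⟨q₀, hq₀, he⟩ := h
      refine ⟨q₀, fun q hq hZ => ?_⟩
      by_cases h1 : q ∈ Z t P
      · exact Or.inl h1
      · right
        exact hep P q hq q₀ hq₀ ((key2 t P q hq h1 hZ).symm.trans he.symm)
    · refine ⟨0, fun q hq hZ => ?_⟩
      by_cases h1 : q ∈ Z t P
      · exact Or.inl h1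
      · exact absurd ⟨q, hq, (key2 t P q hq h1 hZ).symm⟩ h
  · intro t _ P P' q hq1 hqr h1 h2 h1' h2'
    exact hep2 P P' q hq1 hqr
      ((key2 t P q hqr.le h1 h2).symm.trans (key2 t P' q hqr.le h1' h2'))
  · rintro t _ P q hq q' hq' hZ ⟨i, hi1, hi2⟩
    have h1 : UP P q ∈ F t i := by
      by_contra h3
      exact hZ ⟨i, hi1, h3⟩
    obtain ⟨W, hW, hsub⟩ := exists_min h1
    have h2 : ¬ Sub W (UP P q') := fun h3 => hi2 (Closed.up (hF1 t i) hW.1 h3)
    unfold Sub at h2
    push Not at h2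
    obtain ⟨j, x, hx1, hx2⟩ := h2
    have h3 := hsub j x hx1
    have h4 : (P j, decide ((j : ℕ) < q)) = x := Option.some.inj h3
    have h5 : decide ((j : ℕ) < q) ≠ decide ((j : ℕ) < q') := by
      intro h6
      apply hx2
      show some (P j, decide ((j : ℕ) < q')) = some x
      rw [← h6, h4]
    have h6 : ¬ ((j : ℕ) < q ↔ (j : ℕ) < q') := fun h7 => h5 (decide_eq_decide.2 h7)
    refine ⟨j, ?_, ?_, ?_⟩
    · rw [min_le_iff]
      by_contra h7
      apply h6
      omega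
    · rw [lt_max_iff]
      by_contra h7
      apply h6
      omega
    · refine mem_biUnion.2 ⟨i, mem_univ _, mem_filter.2 ⟨mem_univ _, W, hW,
        decide ((j : ℕ) < q), ?_⟩⟩
      rw [hx1, ← h4]
  · intro t _
    refine card_biUnion_le.trans ?_
    refine (sum_le_card_nsmul _ _ _ (fun i _ => supp_card (hF1 t i) hK)).trans ?_
    rw [card_univ, Fintype.card_fin, smul_eq_mul]

end MTS
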