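import Pool.Agent.Lib.MTS.RecP
import Pool.Agent.Lib.MTS.ClosB
import Pool.Agent.Lib.MTS.CoreA

/-!
# MTS.CoreP (MP_e46137_lc): the advantage of a machine
-/

namespace MTS

open Classical Finset

variable {A : Type} {r N S : ℕ}

namespace CorePAux

theorem card_through (j : Fin r) (a : Fin N) :
    (univ.filter (fun P : Pth r N => P j = a)).card ≤ N ^ (r - 1) := by
  have h1 := RecAAux.card_le_of_restrict (univ.filter (fun P : Pth r N => P j = a))
    (univ.erase j) (by
      intro P hP P' hP' h
      funext i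
      by_cases hi : i = j
      · subst hi
        rw [(mem_filter.1 hP).2, (mem_filter.1 hP').2]
      · exact h i (mem_erase.2 ⟨hi, mem_univ _⟩))
  rw [card_erase_of_mem (mem_univ _), card_univ, Fintype.card_fin] at h1
  exact h1

theorem card_meet (s : Finset (Fin r × Fin N)) :
    (univ.filter (fun P : Pth r N => ∃ j, (j, P j) ∈ s)).card ≤ s.card * N ^ (r - 1) := by
  have h1 : univ.filter (fun P : Pth r N => ∃ j, (j, P j) ∈ s) ⊆
      s.biUnion (fun x => univ.filter (fun P : Pth r N => P x.1 = x.2)) := by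
    intro P hP
    obtain ⟨j, hj⟩ := (mem_filter.1 hP).2
    exact mem_biUnion.2 ⟨(j, P j), hj, mem_filter.2 ⟨mem_univ _, rfl⟩⟩
  refine (card_le_card h1).trans (card_biUnion_le.trans ?_)
  refine (sum_le_card_nsmul _ _ _ (fun x _ => card_through x.1 x.2)).trans ?_
  rw [smul_eq_mul]

theorem card_col : (univ : Finset (Col r N)).card = 2 ^ (r * N) := by
  rw [card_univ, Fintype.card_fun, Fintype.card_fun, Fintype.card_bool, Fintype.card_fin,
    Fintype.card_fin, ← pow_mul, mul_comm]

theorem card_pth : (univ : Finset (Pth r N)).card = N ^ r := by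
  rw [card_univ, Fintype.card_fun, Fintype.card_fin, Fintype.card_fin]

end CorePAux

open CorePAux

theorem core_adv {T k θ K : ℕ} (M : Mach A S) (hN : 1 ≤ N)
    (yes : Pth r N → A → Bool) (no : Col r N → A → Bool) (ep : Pth r N → ℕ → A)
    (X : A → Finset (PC r N))
    (hX1 : ∀ e U χ, U ∈ X e → Agree U χ → no χ e = true)
    (hX2 : ∀ P e, yes P e = true → ∀ q ≤ r, e ≠ ep P q → UP P q ∈ X e)
    (hep : ∀ P, ∀ q ≤ r, ∀ q' ≤ r, ep P q = ep P q' → q = q')
    (hep2 : ∀ P P' : Pth r N, ∀ q, 1 ≤ q → q < r → ep P q = ep P' q →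
      ∀ j : Fin r, (j : ℕ) + 1 = q ∨ (j : ℕ) = q → P j = P' j)
    (out : Fin S) (hθ : θ < 2 ^ (r * N - r))
    (hK : (2 ^ r - 1) ^ K * 2 ^ (r * N) ≤ θ * (2 ^ r) ^ K)
    (hk : 2 ^ (k + 1) ≤ r) (hs : r * (2 * K * r + 1) ^ r * 2 ^ r ≤ N) :
    ((univ.filter (fun P : Pth r N => M.run (yes P) T out = true)).card : ℝ) / (N : ℝ) ^ r -
      ((univ.filter (fun χ : Col r N => M.run (no χ) T out = true)).card : ℝ) /
        (2 : ℝ) ^ (r * N) ≤
    ((T * (S * (r * (2 * K * r + 1) ^ r) * Nat.clog 2 T) ^ k : ℕ) : ℝ) / (N : ℝ) ^ (k + 2) +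
      ((T * (S * ((2 * N + 1) ^ r * θ)) : ℕ) : ℝ) / (2 : ℝ) ^ (r * N) := by
  obtain ⟨F, hF1, hF2, hF3, hF4⟩ := exists_approx M T θ hN hθ no X hX1
  let Z : ℕ → Pth r N → Set ℕ := fun t P => {q | ∃ i, M.run (yes P) t i = true ∧ UP P q ∉ F t i}
  have key : ∀ (t : ℕ) (P : Pth r N) (q : ℕ), q ≤ r → q ∉ Z t P → M.arc t ≠ ep P q →
      q ∉ Z (t + 1) P := by
    intro t P q hq hZ hne
    rintro ⟨i, hi1, hi2⟩
    apply hi2
    apply hF3
    have h1 : M.run (yes P) t ≤ fun j => decide (UP P q ∈ F t j) := by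
      intro j
      by_cases hj : M.run (yes P) t j = true
      · have h2 : UP P q ∈ F t j := by
          by_contra h3
          exact hZ ⟨j, hj, h3⟩
        show _ ≤ decide (UP P q ∈ F t j)
        rw [decide_eq_true h2]
        exact Bool.le_true _
      · rw [Bool.eq_false_iff.2 hj]
        exact Bool.false_le _
    have h2 : yes P (M.arc t) ≤ decide (UP P q ∈ X (M.arc t)) := by
      by_cases hj : yes P (M.arc t) = true
      · rw [decide_eq_true (hX2 P (M.arc t) hj q hq hne)]
        exact Bool.le_true _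
      · rw [Bool.eq_false_iff.2 hj]
        exact Bool.false_le _
    have h3 := M.mono t _ _ _ _ h1 h2 i
    have h4 : M.next t (M.run (yes P) t) (yes P (M.arc t)) i = true := hi1
    rw [h4] at h3
    exact Bool.eq_true_of_true_le h3
  have key2 : ∀ (t : ℕ) (P : Pth r N) (q : ℕ), q ≤ r → q ∉ Z t P → q ∈ Z (t + 1) P →
      M.arc t = ep P q := by
    intro t P q hq h1 h2
    by_contra h3
    exact key t P q hq h1 h3 h2
  let Cov : ℕ → Finset (Fin r × Fin N) := fun t => univ.biUnion (fun i : Fin S => supp (F t i))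
  have hrec : (univ.filter (fun P : Pth r N => ∀ q ≤ r, q ∈ Z T P)).card * N ^ (k + 2) ≤
      T * (S * (r * (2 * K * r + 1) ^ r) * Nat.clog 2 T) ^ k * N ^ r := by
    refine rec_part (T := T) (κ := S * (r * (2 * K * r + 1) ^ r)) Z Cov hN ?_ ?_ ?_ ?_ ?_ hk _
      (fun P hP => (mem_filter.1 hP).2)
    · rintro P q _ ⟨i, hi1, hi2⟩
      apply hi2
      rw [hF2 i hi1]
      exact mem_univ _
    · intro t _ P
      by_cases h : ∃ q₀ ≤ r, ep P q₀ = M.arc t
      · obtain ⟨q₀, hq₀, he⟩ := h
        refine ⟨q₀, fun q hq hZ => ?_⟩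
        by_cases h1 : q ∈ Z t P
        · exact Or.inl h1
        · right
          exact hep P q hq q₀ hq₀ ((key2 t P q hq h1 hZ).symm.trans he.symm)
      · refine ⟨0, fun q hq hZ => ?_⟩
        by_cases h1 : q ∈ Z t P
        · exact Or.inl h1
        · exact absurd ⟨q, hq, (key2 t P q hq h1 hZ).symm⟩ h
    · intro t _ P P' q hq1 hqr h1 h2 h1' h2'
      exact hep2 P P' q hq1 hqr
        ((key2 t P q hqr.le h1 h2).symm.trans (key2 t P' q hqr.le h1' h2'))
    · rintro t _ P q hq q' hq' hZ ⟨i, hi1, hi2⟩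
      have h1 : UP P q ∈ F t i := by
        by_contra h3
        exact hZ ⟨i, hi1, h3⟩
      obtain ⟨W, hW, hsub⟩ := exists_min h1
      have h2 : ¬ Sub W (UP P q') := fun h3 => hi2 (Closed.up (hF1 t i) hW.1 h3)
      unfold Sub at h2
      push Not at h2
      obtain ⟨j, x, hx1, hx2⟩ := h2
      have h3 := hsub j x hx1
      have h4 : (P j, decide ((j : ℕ) < q)) = x := Option.some.inj h3
      have h5 : decide ((j : ℕ) < q) ≠ decide ((j : ℕ) < q') := by
        intro h6
        apply hx2
        show some (P j, decide ((j : ℕ) < q')) = some x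
        rw [← h6, h4]
      have h6 : ¬ ((j : ℕ) < q ↔ (j : ℕ) < q') := fun h7 => h5 (decide_eq_decide.2 h7)
      refine ⟨j, ?_, ?_, ?_⟩
      · rw [min_le_iff]
        by_contra h7
        apply h6
        omega
      · rw [lt_max_iff]
        by_contra h7
        apply h6
        omega
      · refine mem_biUnion.2 ⟨i, mem_univ _, mem_filter.2 ⟨mem_univ _, W, hW,
          decide ((j : ℕ) < q), ?_⟩⟩
        rw [hx1, ← h4]
    · intro t _
      refine card_biUnion_le.trans ?_
      refine (sum_le_card_nsmul _ _ _ (fun i _ => supp_card (hF1 t i) hK)).trans ?_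
      rw [card_univ, Fintype.card_fin, smul_eq_mul]
  -- notation
  set s₀ : ℕ := r * (2 * K * r + 1) ^ r with hs₀
  set Y : ℕ := T * (S * s₀ * Nat.clog 2 T) ^ k with hY
  set err : ℕ := T * (S * ((2 * N + 1) ^ r * θ)) with herr
  set accP := univ.filter (fun P : Pth r N => M.run (yes P) T out = true) with haccP
  set accC := univ.filter (fun χ : Col r N => M.run (no χ) T out = true) with haccC
  set Zs := univ.filter (fun P : Pth r N => ∀ q ≤ r, q ∈ Z T P) with hZs
  have hNR : (0 : ℝ) < (N : ℝ) := by exact_mod_cast hN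
  have hNr : (0 : ℝ) < (N : ℝ) ^ r := pow_pos hNR _
  have hNk : (0 : ℝ) < (N : ℝ) ^ (k + 2) := pow_pos hNR _
  have h2pos : (0 : ℝ) < (2 : ℝ) ^ (r * N) := by positivity
  have hYdiv : (0 : ℝ) ≤ (Y : ℝ) / (N : ℝ) ^ (k + 2) := by positivity
  have hediv : (0 : ℝ) ≤ (err : ℝ) / (2 : ℝ) ^ (r * N) := by positivity
  have hCdiv : (0 : ℝ) ≤ (accC.card : ℝ) / (2 : ℝ) ^ (r * N) := by positivity
  have hZdiv : (Zs.card : ℝ) / (N : ℝ) ^ r ≤ (Y : ℝ) / (N : ℝ) ^ (k + 2) := by
    rw [div_le_div_iff₀ hNr hNk]
    exact_mod_cast hrec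
  by_cases hempty : ∀ U, U ∉ F T out
  · -- the output approximator is empty
    have h1 : accP.card ≤ Zs.card := by
      refine card_le_card ?_
      intro P hP
      exact mem_filter.2 ⟨mem_univ _, fun q _ => ⟨out, (mem_filter.1 hP).2, hempty _⟩⟩
    have h2 : (accP.card : ℝ) / (N : ℝ) ^ r ≤ (Zs.card : ℝ) / (N : ℝ) ^ r :=
      div_le_div_of_nonneg_right (by exact_mod_cast h1) hNr.le
    linarith
  · push Not at hempty
    obtain ⟨U, hU⟩ := hempty
    by_cases hnone : (fun _ => none : PC r N) ∈ F T out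
    · -- everything is hit
      have h1 : 2 ^ (r * N) ≤ accC.card + err := by
        rw [← card_col (r := r) (N := N)]
        have h2 : (univ : Finset (Col r N)) ⊆ accC ∪
            univ.filter (fun χ : Col r N => ∃ i, Hits (F T i) χ ∧ M.run (no χ) T i = false) := by
          intro χ _
          by_cases h3 : M.run (no χ) T out = true
          · exact mem_union_left _ (mem_filter.2 ⟨mem_univ _, h3⟩)
          · refine mem_union_right _ (mem_filter.2 ⟨mem_univ _, out, ⟨_, hnone, ?_⟩,
              Bool.eq_false_iff.2 h3⟩)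
            intro j x hx
            exact absurd hx (by simp)
        exact (card_le_card h2).trans ((card_union_le _ _).trans (Nat.add_le_add_left (hF4 T) _))
      have h2 : (accP.card : ℝ) / (N : ℝ) ^ r ≤ 1 := by
        rw [div_le_one hNr]
        have h3 : accP.card ≤ N ^ r := by
          rw [← card_pth (r := r) (N := N)]
          exact card_le_card (subset_univ _)
        exact_mod_cast h3
      have h3 : (1 : ℝ) ≤ (accC.card : ℝ) / (2 : ℝ) ^ (r * N) + (err : ℝ) / (2 : ℝ) ^ (r * N) := by
        rw [← add_div, le_div_iff₀ h2pos, one_mul]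
        exact_mod_cast h1
      linarith
    · -- the general case
      have h1 : 2 ^ (r * N - r) ≤ accC.card + err := by
        refine (agree_card U hN).trans ?_
        have h2 : univ.filter (fun χ : Col r N => Agree U χ) ⊆ accC ∪
            univ.filter (fun χ : Col r N => ∃ i, Hits (F T i) χ ∧ M.run (no χ) T i = false) := by
          intro χ hχ
          by_cases h3 : M.run (no χ) T out = true
          · exact mem_union_left _ (mem_filter.2 ⟨mem_univ _, h3⟩)
          · exact mem_union_right _ (mem_filter.2 ⟨mem_univ _, out,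
              ⟨U, hU, (mem_filter.1 hχ).2⟩, Bool.eq_false_iff.2 h3⟩)
        exact (card_le_card h2).trans ((card_union_le _ _).trans (Nat.add_le_add_left (hF4 T) _))
      have h2 : accP.card ≤ Zs.card + s₀ * N ^ (r - 1) := by
        have h3 : accP ⊆ Zs ∪ univ.filter (fun P : Pth r N => ∃ j, (j, P j) ∈ supp (F T out)) := by
          intro P hP
          by_cases h4 : ∀ q ≤ r, q ∈ Z T P
          · exact mem_union_left _ (mem_filter.2 ⟨mem_univ _, h4⟩)
          · push Not at h4
            obtain ⟨q, _, hqZ⟩ := h4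
            have h5 : UP P q ∈ F T out := by
              by_contra h6
              exact hqZ ⟨out, (mem_filter.1 hP).2, h6⟩
            obtain ⟨W, hW, hsub⟩ := exists_min h5
            have h6 : ∃ j, W j ≠ none := by
              by_contra h7
              push Not at h7
              apply hnone
              have h8 : W = fun _ => none := funext h7
              rw [← h8]
              exact hW.1
            obtain ⟨j, hj⟩ := h6
            obtain ⟨x, hx⟩ := Option.ne_none_iff_exists'.1 hj
            have h7 := hsub j x hx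
            have h8 : (P j, decide ((j : ℕ) < q)) = x := Option.some.inj h7
            refine mem_union_right _ (mem_filter.2 ⟨mem_univ _, j, mem_filter.2 ⟨mem_univ _, W, hW,
              decide ((j : ℕ) < q), ?_⟩⟩)
            rw [hx, ← h8]
        refine (card_le_card h3).trans ((card_union_le _ _).trans (Nat.add_le_add_left ?_ _))
        exact (card_meet _).trans (Nat.mul_le_mul_right _ (supp_card (hF1 T out) hK))
      have hr : 1 ≤ r := le_trans Nat.one_le_two_pow hk
      have hrN : r ≤ r * N := Nat.le_mul_of_pos_right r hN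
      have h3 : (accP.card : ℝ) / (N : ℝ) ^ r ≤
          (Zs.card : ℝ) / (N : ℝ) ^ r + (s₀ : ℝ) / N := by
        have h4 : (accP.card : ℝ) ≤ (Zs.card : ℝ) + (s₀ : ℝ) * (N : ℝ) ^ (r - 1) := by
          exact_mod_cast h2
        have h5 : (N : ℝ) ^ r = (N : ℝ) ^ (r - 1) * N := by
          rw [← pow_succ]
          congr 1
          omega
        have h6 : (s₀ : ℝ) / N = (s₀ : ℝ) * (N : ℝ) ^ (r - 1) / (N : ℝ) ^ r := by
          rw [h5]
          field_simp
        rw [h6, ← add_div]
        exact div_le_div_of_nonneg_right h4 hNr.le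
      have h4 : (s₀ : ℝ) / N ≤ 1 / (2 : ℝ) ^ r := by
        rw [div_le_div_iff₀ hNR (by positivity), one_mul]
        exact_mod_cast hs
      have h5 : 1 / (2 : ℝ) ^ r ≤ (accC.card : ℝ) / (2 : ℝ) ^ (r * N) +
          (err : ℝ) / (2 : ℝ) ^ (r * N) := by
        have h6 : (2 : ℝ) ^ (r * N) = (2 : ℝ) ^ (r * N - r) * (2 : ℝ) ^ r := by
          rw [← pow_add, Nat.sub_add_cancel hrN]
        rw [← add_div, div_le_div_iff₀ (by positivity) h2pos, one_mul, h6]
        refine mul_le_mul_of_nonneg_right ?_ (by positivity)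
        exact_mod_cast h1
      linarith

end MTS
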