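import Pool.Agent.Lib.MTS.Core

/-!
# MTS.Embed (MP_e46137_lc): undirected graphs on `Fin n`
-/

namespace MTS

open Classical Finset

namespace EmbedAux

/-- the machine reading unordered pairs -/
def symMach {n S : ℕ} (M : Mach (Fin n × Fin n) S) : Mach (Sym2 (Fin n)) S where
  init := M.init
  arc := fun t => s((M.arc t).1, (M.arc t).2)
  next := M.next
  mono := M.mono

theorem run_symMach {n S : ℕ} (M : Mach (Fin n × Fin n) S) (g : Sym2 (Fin n) → Bool) (T : ℕ) :
    (symMach M).run g T = M.run (fun e => g s(e.1, e.2)) T := by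
  induction T with
  | zero => rfl
  | succ T ih =>
    show M.next T ((symMach M).run g T) _ = M.next T (M.run _ T) _
    rw [ih]
    rfl

variable {n r N : ℕ}

/-- the vertices of the path -/
def vtx (y : Fin r × Fin N → Fin n) (s t : Fin n) (P : Pth r N) : ℕ → Fin n
  | 0 => s
  | i + 1 => if h : i < r then y (⟨i, h⟩, P ⟨i, h⟩) else t

/-- colour of a vertex in a partial colouring -/
noncomputable def colU (y : Fin r × Fin N → Fin n) (s t : Fin n) (U : PC r N) (v : Fin n) :
    Option Bool :=
  if v = s then some true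
  else if v = t then some false
  else if h : ∃ x, y x = v then
    (if (∃ c, U h.choose.1 = some (h.choose.2, c)) then (U h.choose.1).map Prod.snd else none)
  else some true

/-- colour of a vertex in a total colouring -/
noncomputable def col (y : Fin r × Fin N → Fin n) (s t : Fin n) (χ : Col r N) (v : Fin n) : Bool :=
  if v = s then true
  else if v = t then false
  else if h : ∃ x, y x = v then χ h.choose.1 h.choose.2
  else true

theorem col_of_colU {y : Fin r × Fin N → Fin n} {s t : Fin n} {U : PC r N} {χ : Col r N}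
    (hU : Agree U χ) {v : Fin n} {c : Bool} (h : colU y s t U v = some c) :
    col y s t χ v = c := by
  unfold colU at h
  unfold col
  by_cases h1 : v = s
  · rw [if_pos h1] at h ⊢
    exact Option.some.inj h
  · rw [if_neg h1] at h ⊢
    by_cases h2 : v = t
    · rw [if_pos h2] at h ⊢
      exact Option.some.inj h
    · rw [if_neg h2] at h ⊢
      by_cases h3 : ∃ x, y x = v
      · rw [dif_pos h3] at h ⊢
        by_cases h4 : ∃ c, U h3.choose.1 = some (h3.choose.2, c)
        · rw [if_pos h4] at h
          obtain ⟨c', hc'⟩ := h4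
          rw [hc'] at h
          have h5 : c' = c := Option.some.inj h
          have h6 := hU _ _ hc'
          exact h6.trans h5
        · rw [if_neg h4] at h
          exact absurd h (by simp)
      · rw [dif_neg h3] at h ⊢
        exact Option.some.inj h

theorem colU_vtx {y : Fin r × Fin N → Fin n} (hy : Function.Injective y) {s t : Fin n}
    (hst : s ≠ t) (hs : ∀ x, y x ≠ s) (ht : ∀ x, y x ≠ t) (P : Pth r N) {i q : ℕ}
    (hi : i ≤ r + 1) (hq : q ≤ r) :
    colU y s t (UP P q) (vtx y s t P i) = some (decide (i ≤ q)) := by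
  unfold colU
  cases i with
  | zero =>
    rw [if_pos (show vtx y s t P 0 = s from rfl)]
    simp
  | succ i =>
    by_cases h : i < r
    · have h1 : vtx y s t P (i + 1) = y (⟨i, h⟩, P ⟨i, h⟩) := by
        show (if h : i < r then y (⟨i, h⟩, P ⟨i, h⟩) else t) = _
        rw [dif_pos h]
      rw [h1, if_neg (hs _), if_neg (ht _)]
      have h2 : ∃ x, y x = y (⟨i, h⟩, P ⟨i, h⟩) := ⟨_, rfl⟩
      rw [dif_pos h2]
      have h3 : h2.choose = (⟨i, h⟩, P ⟨i, h⟩) := hy h2.choose_spec
      rw [h3]
      have h4 : UP P q ⟨i, h⟩ = some (P ⟨i, h⟩, decide (i < q)) := rfl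
      rw [if_pos ⟨_, h4⟩, h4]
      simp only [Option.map_some, Nat.succ_le_iff]
    · have h1 : vtx y s t P (i + 1) = t := by
        show (if h : i < r then y (⟨i, h⟩, P ⟨i, h⟩) else t) = _
        rw [dif_neg h]
      rw [h1, if_neg hst.symm, if_pos rfl]
      congr 1
      symm
      rw [decide_eq_false_iff_not]
      omega

theorem vtx_inj {y : Fin r × Fin N → Fin n} (hy : Function.Injective y) {s t : Fin n}
    (hst : s ≠ t) (hs : ∀ x, y x ≠ s) (ht : ∀ x, y x ≠ t) (P P' : Pth r N) {i i' : ℕ}
    (hi : i ≤ r + 1) (hi' : i' ≤ r + 1) (h : vtx y s t P i = vtx y s t P' i') : i = i' := by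
  cases i with
  | zero =>
    cases i' with
    | zero => rfl
    | succ i' =>
      exfalso
      have h1 : s = (if h : i' < r then y (⟨i', h⟩, P' ⟨i', h⟩) else t) := h
      by_cases h2 : i' < r
      · rw [dif_pos h2] at h1
        exact hs _ h1.symm
      · rw [dif_neg h2] at h1
        exact hst h1
  | succ i =>
    cases i' with
    | zero =>
      exfalso
      have h1 : (if h : i < r then y (⟨i, h⟩, P ⟨i, h⟩) else t) = s := h
      by_cases h2 : i < r
      · rw [dif_pos h2] at h1
        exact hs _ h1
      · rw [dif_neg h2] at h1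
        exact hst h1.symm
    | succ i' =>
      have h1 : (if h : i < r then y (⟨i, h⟩, P ⟨i, h⟩) else t) =
        (if h : i' < r then y (⟨i', h⟩, P' ⟨i', h⟩) else t) := h
      by_cases h2 : i < r
      · rw [dif_pos h2] at h1
        by_cases h3 : i' < r
        · rw [dif_pos h3] at h1
          have h4 := congrArg (fun x => (x.1 : ℕ)) (hy h1)
          simp only at h4
          omega
        · rw [dif_neg h3] at h1
          exact absurd h1 (ht _)
      · rw [dif_neg h2] at h1
        by_cases h3 : i' < r
        · rw [dif_pos h3] at h1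
          exact absurd h1.symm (ht _)
        · omega

end EmbedAux

open EmbedAux

theorem explicit {n S T r N k θ K : ℕ} (hn : r * N + 2 ≤ n) (hN : 1 ≤ N) {s t : Fin n}
    (hst : s ≠ t) (M : Mach (Fin n × Fin n) S) (out : Fin S)
    (hM : Decides M out T (r + 1) s t)
    (hθ : T * (S * ((2 * N + 1) ^ r * θ)) < 2 ^ (r * N - r))
    (hK : (2 ^ r - 1) ^ K * 2 ^ (r * N) ≤ θ * (2 ^ r) ^ K)
    (hk : 2 ^ (k + 1) ≤ r) :
    N ^ (k + 2) ≤ T * (S * (r * (2 * K * r + 1) ^ r) * Nat.clog 2 T) ^ k := by
  -- the vertices of the layers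
  obtain ⟨y, hy, hs, ht⟩ : ∃ y : Fin r × Fin N → Fin n, Function.Injective y ∧
      (∀ x, y x ≠ s) ∧ ∀ x, y x ≠ t := by
    have h1 : Fintype.card (Fin r × Fin N) ≤ Fintype.card {v : Fin n // v ≠ s ∧ v ≠ t} := by
      rw [Fintype.card_prod, Fintype.card_fin, Fintype.card_fin, Fintype.card_subtype]
      have h2 : (univ.filter (fun v : Fin n => v ≠ s ∧ v ≠ t)) = (univ.erase s).erase t := by
        ext v
        simp [and_comm]
      rw [h2, card_erase_of_mem (mem_erase.2 ⟨hst.symm, mem_univ _⟩),
        card_erase_of_mem (mem_univ _), card_univ, Fintype.card_fin]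
      omega
    obtain ⟨f⟩ := Function.Embedding.nonempty_of_card_le h1
    exact ⟨fun x => (f x).1, fun x x' h => f.injective (Subtype.ext h), fun x => (f x).2.1,
      fun x => (f x).2.2⟩
  let ep : Pth r N → ℕ → Sym2 (Fin n) := fun P q => s(vtx y s t P q, vtx y s t P (q + 1))
  let yes : Pth r N → Sym2 (Fin n) → Bool := fun P e => decide (∃ q ≤ r, ep P q = e)
  let no : Col r N → Sym2 (Fin n) → Bool := fun χ e => decide (∃ c, ∀ v ∈ e, col y s t χ v = c)
  let X : Sym2 (Fin n) → Finset (PC r N) := fun e =>
    univ.filter (fun U => ∃ c, ∀ v ∈ e, colU y s t U v = some c)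
  have hinj := fun P P' (i i' : ℕ) => vtx_inj hy hst hs ht P P' (i := i) (i' := i')
  refine core (k := k) (θ := θ) (K := K) (symMach M) hN yes no ep X ?_ ?_ ?_ ?_ out ?_ ?_ hθ hK hk
  · -- hX1
    intro e U χ hU hag
    obtain ⟨c, hc⟩ := (mem_filter.1 hU).2
    exact decide_eq_true ⟨c, fun v hv => col_of_colU hag (hc v hv)⟩
  · -- hX2
    intro P e he q hq hne
    obtain ⟨q', hq', rfl⟩ := of_decide_eq_true he
    have hqq : q' ≠ q := fun h => hne (by rw [h])
    refine mem_filter.2 ⟨mem_univ _, decide (q' ≤ q), ?_⟩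
    intro v hv
    rcases Sym2.mem_iff.1 hv with rfl | rfl
    · exact colU_vtx hy hst hs ht P (by omega) hq
    · rw [colU_vtx hy hst hs ht P (by omega) hq]
      congr 1
      rw [decide_eq_decide]
      omega
  · -- hep
    intro P q hq q' hq' h
    rcases Sym2.eq_iff.1 h with h1 | h1
    · exact hinj P P q q' (by omega) (by omega) h1.1
    · have h2 := hinj P P q (q' + 1) (by omega) (by omega) h1.1
      have h3 := hinj P P (q + 1) q' (by omega) (by omega) h1.2
      omega
  · -- hep2
    intro P P' q hq1 hqr h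
    have h0 : ∀ j : Fin r, ∀ Q : Pth r N, vtx y s t Q ((j : ℕ) + 1) = y (j, Q j) := by
      intro j Q
      show (if h : (j : ℕ) < r then y (⟨j, h⟩, Q ⟨j, h⟩) else t) = _
      rw [dif_pos j.2]
    rcases Sym2.eq_iff.1 h with h1 | h1
    · intro j hj
      rcases hj with hj | hj
      · have h2 := h1.1
        rw [← hj, h0, h0] at h2
        exact congrArg Prod.snd (hy h2)
      · have h2 := h1.2
        rw [← hj, h0, h0] at h2
        exact congrArg Prod.snd (hy h2)
    · exfalso
      have h2 := hinj P P' q (q + 1) (by omega) (by omega) h1.1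
      omega
  · -- hyes
    intro P
    rw [run_symMach]
    let G : Fin n → Fin n → Bool := fun a b => yes P s(a, b)
    have hG : ∀ a b, G a b = G b a := fun a b => by
      show yes P s(a, b) = yes P s(b, a)
      rw [Sym2.eq_swap]
    refine (hM G hG).1 ⟨r + 1, le_rfl, ?_⟩
    have h1 : ∀ i ≤ r + 1, HasWalk G i s (vtx y s t P i) := by
      intro i
      induction i with
      | zero => intro _; rfl
      | succ i ih =>
        intro hi
        exact ⟨_, ih (by omega), decide_eq_true ⟨i, by omega, rfl⟩⟩
    have h2 := h1 (r + 1) le_rfl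
    have h3 : vtx y s t P (r + 1) = t := by
      show (if h : r < r then y (⟨r, h⟩, P ⟨r, h⟩) else t) = _
      rw [dif_neg (lt_irrefl r)]
    rwa [h3] at h2
  · -- hno
    intro χ
    rw [run_symMach]
    let G : Fin n → Fin n → Bool := fun a b => no χ s(a, b)
    have hG : ∀ a b, G a b = G b a := fun a b => by
      show no χ s(a, b) = no χ s(b, a)
      rw [Sym2.eq_swap]
    refine (hM G hG).2 ?_
    intro hr
    have h1 : ∀ v, Reach G s v → col y s t χ v = true := by
      intro v hv
      induction hv with
      | refl => unfold col; rw [if_pos rfl]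
      | tail _ h5 ih =>
        obtain ⟨c, hc⟩ := of_decide_eq_true h5
        rw [hc _ (Sym2.mem_mk_right _ _), ← hc _ (Sym2.mem_mk_left _ _)]
        exact ih
    have h2 := h1 t hr
    unfold col at h2
    rw [if_neg hst.symm, if_pos rfl] at h2
    exact Bool.noConfusion h2

end MTS
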