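import Pool.Agent.Lib.MTS.CoreP
import Pool.Agent.Lib.MTS.AvgA
import Pool.Agent.Lib.MTS.AvgB

/-!
# MTS.EmbedP (MP_e46137_lc): the advantage for random paths and random cuts
-/

namespace MTS

open Classical Finset

namespace EmbedPAux

/-- the machine reading unordered pairs -/
def symMach {n S : ℕ} (M : Mach (Fin n × Fin n) S) : Mach (Sym2 (Fin n)) S where
  init := M.init
  arc := fun t => s((M.arc t).1, (M.arc t).2)
  next := M.next
  mono := M.mono

theorem run_symMach {n S : ℕ} (M : Mach (Fin n × Fin n) S) (g : Sym2 (Fin n) → Bool) (T : ℕ) :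
    (symMach M).run g T = M.run (fun e => g s(e.1, e.2)) T := by
  induction T with
  | zero => rfl
  | succ T ih =>
    show M.next T ((symMach M).run g T) _ = M.next T (M.run _ T) _
    rw [ih]
    rfl

variable {n r N : ℕ}

/-- the vertices of the layered path -/
def seq (y : Fin r × Fin N → Fin n) (P : Pth r N) : Fin r → Fin n := fun j => y (j, P j)

/-- colour of a vertex in a partial colouring -/
noncomputable def colU (y : Fin r × Fin N → Fin n) (s t : Fin n) (o : Fin n → Bool) (U : PC r N)
    (v : Fin n) : Option Bool :=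
  if v = s then some true
  else if v = t then some false
  else if h : ∃ x, y x = v then
    (if (∃ c, U h.choose.1 = some (h.choose.2, c)) then (U h.choose.1).map Prod.snd else none)
  else some (o v)

theorem col_of_colU {y : Fin r × Fin N → Fin n} {s t : Fin n} {o : Fin n → Bool} {U : PC r N}
    {χ : Col r N} (hU : Agree U χ) {v : Fin n} {c : Bool} (h : colU y s t o U v = some c) :
    colO y s t o χ v = c := by
  unfold colU at h
  unfold colO
  by_cases h1 : v = s
  · rw [if_pos h1] at h ⊢
    exact Option.some.inj h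
  · rw [if_neg h1] at h ⊢
    by_cases h2 : v = t
    · rw [if_pos h2] at h ⊢
      exact Option.some.inj h
    · rw [if_neg h2] at h ⊢
      by_cases h3 : ∃ x, y x = v
      · rw [dif_pos h3] at h ⊢
        by_cases h4 : ∃ c, U h3.choose.1 = some (h3.choose.2, c)
        · rw [if_pos h4] at h
          obtain ⟨c', hc'⟩ := h4
          rw [hc'] at h
          have h5 : c' = c := Option.some.inj h
          have h6 := hU _ _ hc'
          exact h6.trans h5
        · rw [if_neg h4] at h
          exact absurd h (by simp)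
      · rw [dif_neg h3] at h ⊢
        exact Option.some.inj h

theorem walkVertex_lt (s t : Fin n) (Q : Fin r → Fin n) {i : ℕ} (h : i < r) :
    walkVertex s t Q (i + 1) = Q ⟨i, h⟩ := by
  show (if h : i < r then Q ⟨i, h⟩ else t) = _
  rw [dif_pos h]

theorem walkVertex_ge (s t : Fin n) (Q : Fin r → Fin n) {i : ℕ} (h : ¬ i < r) :
    walkVertex s t Q (i + 1) = t := by
  show (if h : i < r then Q ⟨i, h⟩ else t) = _
  rw [dif_neg h]

theorem colU_vtx {y : Fin r × Fin N → Fin n} (hy : Function.Injective y) {s t : Fin n}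
    (hst : s ≠ t) (hs : ∀ x, y x ≠ s) (ht : ∀ x, y x ≠ t) (o : Fin n → Bool) (P : Pth r N)
    {i q : ℕ} (hq : q ≤ r) (hi : i ≤ r + 1) :
    colU y s t o (UP P q) (walkVertex s t (seq y P) i) = some (decide (i ≤ q)) := by
  unfold colU
  cases i with
  | zero =>
    rw [if_pos (show walkVertex s t (seq y P) 0 = s from rfl)]
    simp
  | succ i =>
    by_cases h : i < r
    · have h1 : walkVertex s t (seq y P) (i + 1) = y (⟨i, h⟩, P ⟨i, h⟩) :=
        walkVertex_lt s t (seq y P) h
      rw [h1, if_neg (hs _), if_neg (ht _)]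
      have h2 : ∃ x, y x = y (⟨i, h⟩, P ⟨i, h⟩) := ⟨_, rfl⟩
      rw [dif_pos h2]
      have h3 : h2.choose = (⟨i, h⟩, P ⟨i, h⟩) := hy h2.choose_spec
      rw [h3]
      have h4 : UP P q ⟨i, h⟩ = some (P ⟨i, h⟩, decide (i < q)) := rfl
      rw [if_pos ⟨_, h4⟩, h4]
      simp only [Option.map_some, Nat.succ_le_iff]
    · rw [walkVertex_ge s t (seq y P) h, if_neg hst.symm, if_pos rfl]
      congr 1
      symm
      rw [decide_eq_false_iff_not]
      omega

theorem vtx_inj {y : Fin r × Fin N → Fin n} (hy : Function.Injective y) {s t : Fin n}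
    (hst : s ≠ t) (hs : ∀ x, y x ≠ s) (ht : ∀ x, y x ≠ t) (P P' : Pth r N) {i i' : ℕ}
    (hi : i ≤ r + 1) (hi' : i' ≤ r + 1)
    (h : walkVertex s t (seq y P) i = walkVertex s t (seq y P') i') : i = i' := by
  cases i with
  | zero =>
    cases i' with
    | zero => rfl
    | succ i' =>
      exfalso
      by_cases h2 : i' < r
      · rw [walkVertex_lt s t (seq y P') h2] at h
        exact hs _ h.symm
      · rw [walkVertex_ge s t (seq y P') h2] at h
        exact hst h
  | succ i =>
    cases i' with
    | zero =>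
      exfalso
      by_cases h2 : i < r
      · rw [walkVertex_lt s t (seq y P) h2] at h
        exact hs _ h
      · rw [walkVertex_ge s t (seq y P) h2] at h
        exact hst h.symm
    | succ i' =>
      by_cases h2 : i < r
      · rw [walkVertex_lt s t (seq y P) h2] at h
        by_cases h3 : i' < r
        · rw [walkVertex_lt s t (seq y P') h3] at h
          have h4 := congrArg (fun x => (x.1 : ℕ)) (hy h)
          simp only at h4
          omega
        · rw [walkVertex_ge s t (seq y P') h3] at h
          exact absurd h (ht _)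
      · rw [walkVertex_ge s t (seq y P) h2] at h
        by_cases h3 : i' < r
        · rw [walkVertex_lt s t (seq y P') h3] at h
          exact absurd h.symm (ht _)
        · omega

theorem pathGraph_eq (s t : Fin n) (Q : Fin r → Fin n) (u v : Fin n) :
    pathGraph s t Q u v =
      decide (∃ q ≤ r, s(walkVertex s t Q q, walkVertex s t Q (q + 1)) = s(u, v)) := by
  unfold pathGraph
  rw [decide_eq_decide]
  constructor
  · rintro ⟨q, hq, h⟩
    refine ⟨q, hq, Sym2.eq_iff.2 ?_⟩
    rcases h with ⟨h1, h2⟩ | ⟨h1, h2⟩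
    · exact Or.inl ⟨h1.symm, h2.symm⟩
    · exact Or.inr ⟨h1.symm, h2.symm⟩
  · rintro ⟨q, hq, h⟩
    refine ⟨q, hq, ?_⟩
    rcases Sym2.eq_iff.1 h with ⟨h1, h2⟩ | ⟨h1, h2⟩
    · exact Or.inl ⟨h1.symm, h2.symm⟩
    · exact Or.inr ⟨h1.symm, h2.symm⟩

theorem cutGraph_eq (y : Fin r × Fin N → Fin n) (s t : Fin n) (o : Fin n → Bool) (χ : Col r N)
    (u v : Fin n) : cutGraph (cutSet y s t o χ) u v =
      decide (∃ c, ∀ w ∈ s(u, v), colO y s t o χ w = c) := by
  unfold cutGraph
  rw [decide_eq_decide]
  have h0 : ∀ w, w ∈ cutSet y s t o χ ↔ colO y s t o χ w = true := fun w => by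
    unfold cutSet
    rw [mem_filter]
    exact ⟨fun h => h.2, fun h => ⟨mem_univ _, h⟩⟩
  rw [h0, h0, ← Bool.eq_iff_iff]
  constructor
  · intro h
    refine ⟨colO y s t o χ u, fun w hw => ?_⟩
    rcases Sym2.mem_iff.1 hw with rfl | rfl
    · rfl
    · exact h.symm
  · rintro ⟨c, hc⟩
    rw [hc u (Sym2.mem_mk_left _ _), hc v (Sym2.mem_mk_right _ _)]

end EmbedPAux

open EmbedPAux

theorem explicit_adv {n S T r N k θ K : ℕ} (hn : r * N + 2 ≤ n) (hN : 1 ≤ N) {s t : Fin n}
    (hst : s ≠ t) (M : Mach (Fin n × Fin n) S) (out : Fin S) (hθ : θ < 2 ^ (r * N - r))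
    (hK : (2 ^ r - 1) ^ K * 2 ^ (r * N) ≤ θ * (2 ^ r) ^ K)
    (hk : 2 ^ (k + 1) ≤ r) (hs : r * (2 * K * r + 1) ^ r * 2 ^ r ≤ N) :
    accPath M out T r s t - accCut M out T s t ≤
    ((T * (S * (r * (2 * K * r + 1) ^ r) * Nat.clog 2 T) ^ k : ℕ) : ℝ) / (N : ℝ) ^ (k + 2) +
      ((T * (S * ((2 * N + 1) ^ r * θ)) : ℕ) : ℝ) / (2 : ℝ) ^ (r * N) := by
  obtain ⟨y, hy, hys, hyt, hA⟩ := exists_layers (r := r) (N := N) hn hN hst
    (fun P => M.run (fun e => pathGraph s t P e.1 e.2) T out)
  obtain ⟨o, hB⟩ := exists_outside hst y hy hys hyt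
    (fun C => M.run (fun e => cutGraph C e.1 e.2) T out)
  let ep : Pth r N → ℕ → Sym2 (Fin n) := fun P q =>
    s(walkVertex s t (seq y P) q, walkVertex s t (seq y P) (q + 1))
  let yes : Pth r N → Sym2 (Fin n) → Bool := fun P e => decide (∃ q ≤ r, ep P q = e)
  let no : Col r N → Sym2 (Fin n) → Bool := fun χ e =>
    decide (∃ c, ∀ v ∈ e, colO y s t o χ v = c)
  let X : Sym2 (Fin n) → Finset (PC r N) := fun e =>
    univ.filter (fun U => ∃ c, ∀ v ∈ e, colU y s t o U v = some c)
  have hinj := fun P P' (i i' : ℕ) => vtx_inj hy hst hys hyt P P' (i := i) (i' := i')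
  have hcore := core_adv (T := T) (k := k) (θ := θ) (K := K) (symMach M) hN yes no ep X
    (by -- hX1
      intro e U χ hU hag
      obtain ⟨c, hc⟩ := (mem_filter.1 hU).2
      exact decide_eq_true ⟨c, fun v hv => col_of_colU hag (hc v hv)⟩)
    (by -- hX2
      intro P e he q hq hne
      obtain ⟨q', hq', rfl⟩ := of_decide_eq_true he
      have hqq : q' ≠ q := fun h => hne (by rw [h])
      refine mem_filter.2 ⟨mem_univ _, decide (q' ≤ q), ?_⟩
      intro v hv
      rcases Sym2.mem_iff.1 hv with rfl | rfl
      · exact colU_vtx hy hst hys hyt o P hq (by omega)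
      · rw [colU_vtx hy hst hys hyt o P hq (by omega)]
        congr 1
        rw [decide_eq_decide]
        omega)
    (by -- hep
      intro P q hq q' hq' h
      rcases Sym2.eq_iff.1 h with h1 | h1
      · exact hinj P P q q' (by omega) (by omega) h1.1
      · have h2 := hinj P P q (q' + 1) (by omega) (by omega) h1.1
        have h3 := hinj P P (q + 1) q' (by omega) (by omega) h1.2
        omega)
    (by -- hep2
      intro P P' q hq1 hqr h
      have h0 : ∀ j : Fin r, ∀ Q : Pth r N,
          walkVertex s t (seq y Q) ((j : ℕ) + 1) = y (j, Q j) := by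
        intro j Q
        exact walkVertex_lt s t (seq y Q) j.2
      rcases Sym2.eq_iff.1 h with h1 | h1
      · intro j hj
        rcases hj with hj | hj
        · have h2 := h1.1
          rw [← hj, h0, h0] at h2
          exact congrArg Prod.snd (hy h2)
        · have h2 := h1.2
          rw [← hj, h0, h0] at h2
          exact congrArg Prod.snd (hy h2)
      · exfalso
        have h2 := hinj P P' q (q + 1) (by omega) (by omega) h1.1
        omega)
    out hθ hK hk hs
  have hyes : ∀ P : Pth r N, (symMach M).run (yes P) T =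
      M.run (fun e => pathGraph s t (fun j => y (j, P j)) e.1 e.2) T := by
    intro P
    rw [run_symMach]
    congr 1
    funext e
    exact (pathGraph_eq s t (seq y P) e.1 e.2).symm
  have hno : ∀ χ : Col r N, (symMach M).run (no χ) T =
      M.run (fun e => cutGraph (cutSet y s t o χ) e.1 e.2) T := by
    intro χ
    rw [run_symMach]
    congr 1
    funext e
    exact (cutGraph_eq y s t o χ e.1 e.2).symm
  have h1 : (univ.filter (fun P : Pth r N => (symMach M).run (yes P) T out = true)) =
      univ.filter (fun P : Pth r N =>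
        M.run (fun e => pathGraph s t (fun j => y (j, P j)) e.1 e.2) T out = true) :=
    filter_congr (fun P _ => by rw [hyes P])
  have h2 : (univ.filter (fun χ : Col r N => (symMach M).run (no χ) T out = true)) =
      univ.filter (fun χ : Col r N =>
        M.run (fun e => cutGraph (cutSet y s t o χ) e.1 e.2) T out = true) :=
    filter_congr (fun χ _ => by rw [hno χ])
  rw [h1, h2] at hcore
  have hA' : accPath M out T r s t ≤ _ := hA
  have hB' : _ ≤ accCut M out T s t := hB
  linarith

end MTS
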