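import Pool.Agent.Lib.MTS.UpB

/-!
# MTS.Upper (MP_e46137_lc): upper bound
-/

namespace MTS

open Classical Finset

/-- **Upper bound** (Savitch's recursion in batches of `B` vertices; `q = n / B + 1`,
`m₀ = k + 4` blocks, `S = (k + 4) B + 1`). -/
theorem upper (k : ℕ) : ∃ c : ℕ, ∀ (n B : ℕ), 1 ≤ B → B ≤ n → ∀ d ≤ 2 ^ (k + 2),
    ∀ s t : Fin n, ∃ S ≤ c * B, ∃ (M : Mach (Fin n × Fin n) S) (T : ℕ) (out : Fin S),
      IsSLP M ∧ T * B ^ k ≤ c * n ^ (k + 2) ∧
        ∀ G : Fin n → Fin n → Bool, M.run (fun e => G e.1 e.2) T out = true ↔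
          ∃ d' ≤ d, HasWalk G d' s t := by
  refine ⟨4 ^ (k + 3) * 2 ^ (k + 2) + (k + 5), ?_⟩
  intro n B hB hBn d hd s t
  have hn : 1 ≤ n := hB.trans hBn
  obtain ⟨q, hq⟩ : ∃ q, q = n / B + 1 := ⟨_, rfl⟩
  have hq1 : n ≤ q * B := by
    rw [hq, add_mul, one_mul]
    have h1 := Nat.div_add_mod n B
    have h2 := Nat.mod_lt n hB
    have h3 : B * (n / B) = n / B * B := mul_comm _ _
    omega
  have hq2 : q * B ≤ 2 * n := by
    rw [hq, add_mul, one_mul]
    have h1 := Nat.div_mul_le_self n B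
    omega
  let iu : Fin (k + 4) := ⟨0, by omega⟩
  let iv : Fin (k + 4) := ⟨1, by omega⟩
  have hne : iu ≠ iv := by
    intro h
    have := congrArg Fin.val h
    simp [iu, iv] at this
  obtain ⟨l, hlen, hl⟩ := exists_prog (n := n) (B := B) (q := q) (m₀ := k + 4) hn hB hq1 (k + 2) d hd
    (fun _ => s) (fun _ => t) iu iv 2 hne (by show 0 < 2; omega) (by show 1 < 2; omega) (by omega)
  have hcard : Fintype.card (Reg (k + 4) B) = (k + 4) * B + 1 := by
    simp [Fintype.card_option, Fintype.card_prod]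
  let e : Reg (k + 4) B ≃ Fin ((k + 4) * B + 1) := Fintype.equivFinOfCardEq hcard
  obtain ⟨M, hM, hrun⟩ := exists_slp e l (fun x => decide (∃ b, x = some (iu, b))) (s, t) none
  refine ⟨(k + 4) * B + 1, ?_, M, l.length, e (some (iv, ⟨0, hB⟩)), hM, ?_, ?_⟩
  · calc (k + 4) * B + 1 ≤ (k + 4) * B + B := by omega
      _ = (k + 5) * B := by ring
      _ ≤ _ := Nat.mul_le_mul_right _ (Nat.le_add_left _ _)
  · calc l.length * B ^ k ≤ (4 * q) ^ (k + 2) * (4 * B ^ 2) * B ^ k := Nat.mul_le_mul_right _ hlen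
      _ = 4 ^ (k + 3) * (q * B) ^ (k + 2) := by
          rw [mul_pow, mul_pow]
          ring
      _ ≤ 4 ^ (k + 3) * (2 * n) ^ (k + 2) :=
          Nat.mul_le_mul_left _ (Nat.pow_le_pow_left hq2 _)
      _ = 4 ^ (k + 3) * 2 ^ (k + 2) * n ^ (k + 2) := by
          rw [mul_pow]
          ring
      _ ≤ _ := Nat.mul_le_mul_right _ (Nat.le_add_right _ _)
  · intro G
    rw [hrun, (hl G _).1]
    constructor
    · rintro (h | ⟨_, _, h⟩)
      · exfalso
        rw [decide_eq_true_eq] at h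
        obtain ⟨b, hb⟩ := h
        have h2 := congrArg Prod.fst (Option.some.inj hb)
        exact hne h2.symm
      · exact h
    · intro h
      refine Or.inr ⟨⟨0, hB⟩, ?_, h⟩
      rw [decide_eq_true_eq]
      exact ⟨_, rfl⟩

end MTS
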