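import Pool.Agent.Lib.MTS.Adv

/-!
# MTS.Prob (MP_e46137_lc): probabilistic machines
-/

namespace MTS

open Classical Finset

namespace ProbAux

theorem walk_path {n r : ℕ} (s t : Fin n) (P : Fin r → Fin n) :
    HasWalk (pathGraph s t P) (r + 1) s t := by
  have key : ∀ l, l ≤ r + 1 → HasWalk (pathGraph s t P) l s (walkVertex s t P l) := by
    intro l
    induction l with
    | zero => intro _; rfl
    | succ l ih =>
      intro hl
      refine ⟨walkVertex s t P l, ih (by omega), ?_⟩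
      unfold pathGraph
      rw [decide_eq_true_iff]
      exact ⟨l, by omega, Or.inl ⟨rfl, rfl⟩⟩
  have h := key (r + 1) le_rfl
  have e : walkVertex s t P (r + 1) = t := by
    show (if h : r < r then P ⟨r, h⟩ else t) = t
    rw [dif_neg (lt_irrefl r)]
  rwa [e] at h

theorem path_symm {n r : ℕ} (s t : Fin n) (P : Fin r → Fin n) (a b : Fin n) :
    pathGraph s t P a b = pathGraph s t P b a := by
  unfold pathGraph
  rw [decide_eq_decide]
  constructor
  · rintro ⟨q, hq, h | h⟩
    · exact ⟨q, hq, Or.inr h⟩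
    · exact ⟨q, hq, Or.inl h⟩
  · rintro ⟨q, hq, h | h⟩
    · exact ⟨q, hq, Or.inr h⟩
    · exact ⟨q, hq, Or.inl h⟩

theorem cut_symm {n : ℕ} (C : Finset (Fin n)) (a b : Fin n) : cutGraph C a b = cutGraph C b a := by
  unfold cutGraph
  rw [decide_eq_decide]
  exact ⟨fun h => h.symm, fun h => h.symm⟩

theorem cut_reach {n : ℕ} {C : Finset (Fin n)} {s t : Fin n} (hs : s ∈ C) (ht : t ∉ C) :
    ¬ Reach (cutGraph C) s t := by
  have key : ∀ v, Reach (cutGraph C) s v → v ∈ C := by
    intro v h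
    unfold Reach at h
    induction h with
    | refl => exact hs
    | tail _ h2 ih =>
      unfold cutGraph at h2
      rw [decide_eq_true_iff] at h2
      exact h2.1 ih
  exact fun h => ht (key t h)

theorem seqs_nonempty {n r : ℕ} {s t : Fin n} (hst : s ≠ t) (h : r + 2 ≤ n) :
    (seqs n r s t).Nonempty := by
  have hcard : Fintype.card (Fin r) ≤ Fintype.card {x : Fin n // x ≠ s ∧ x ≠ t} := by
    rw [Fintype.card_fin, Fintype.card_subtype]
    have h1 : (univ.filter fun x : Fin n => x ≠ s ∧ x ≠ t) = univ \ {s, t} := by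
      ext x
      simp
    rw [h1, card_sdiff_of_subset (subset_univ _), card_pair hst, card_univ, Fintype.card_fin]
    omega
  obtain ⟨f⟩ := Function.Embedding.nonempty_of_card_le hcard
  refine ⟨fun i => (f i).1, ?_⟩
  rw [seqs, mem_filter]
  exact ⟨mem_univ _, fun i j hij => f.injective (Subtype.ext hij), fun i => (f i).2⟩

theorem cuts_nonempty {n : ℕ} {s t : Fin n} (hst : s ≠ t) : (cuts n s t).Nonempty := by
  refine ⟨{s}, ?_⟩
  rw [cuts, mem_filter]
  exact ⟨mem_univ _, mem_singleton_self s, fun h => hst (mem_singleton.1 h).symm⟩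

theorem sum_swap {Ω β : Type} [Fintype Ω] (u : Finset β) (w : Ω → ℝ) (p : Ω → β → Bool) :
    ∑ ω, w ω * ((u.filter (fun P => p ω P = true)).card : ℝ) =
      ∑ P ∈ u, ∑ ω ∈ univ.filter (fun ω => p ω P = true), w ω := by
  have h1 : ∀ ω, w ω * ((u.filter (fun P => p ω P = true)).card : ℝ) =
      ∑ P ∈ u, if p ω P = true then w ω else 0 := by
    intro ω
    rw [card_filter]
    push_cast
    rw [mul_sum]
    exact sum_congr rfl fun P _ => by rw [mul_ite, mul_one, mul_zero]
  have h2 : ∀ P, ∑ ω ∈ univ.filter (fun ω => p ω P = true), w ω =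
      ∑ ω, if p ω P = true then w ω else 0 := by
    intro P
    rw [sum_filter]
  rw [sum_congr rfl fun ω _ => h1 ω, sum_congr rfl fun P _ => h2 P, sum_comm]

end ProbAux

open ProbAux in
/-- **Lower bound** for probabilistic machines (path with `r + 1` edges). -/
theorem lower_prob (k r : ℕ) (hk : 2 ^ (k + 1) ≤ r) : ∃ c : ℕ, ∀ (n S T : ℕ) (s t : Fin n),
    s ≠ t → ∀ (Ω : Type) [Fintype Ω] (p : Ω → ℝ), (∀ ω, 0 ≤ p ω) → ∑ ω, p ω = 1 →
      ∀ (M : Ω → Mach (Fin n × Fin n) S) (out : Ω → Fin S), DecidesProb p M out T (r + 1) s t →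
      (n : ℝ) ^ (k + 2) ≤ T * (S : ℝ) ^ k * (c * Real.log n) ^ c := by
  obtain ⟨c₀, hc₀⟩ := adv k r hk
  refine ⟨c₀ + 2 * (r + 2) + (k + 2) + 3, ?_⟩
  intro n S T s t hst Ω _ p hp0 hp1 M out hD
  set c : ℕ := c₀ + 2 * (r + 2) + (k + 2) + 3 with hc
  obtain ⟨ω₀, hω₀⟩ : ∃ ω₀, 0 < p ω₀ := by
    by_contra hcon
    push Not at hcon
    have h1 : ∑ ω, p ω ≤ 0 := sum_nonpos fun ω _ => hcon ω
    linarith
  have hS : 1 ≤ S := Nat.one_le_iff_ne_zero.2 (by
    rintro rfl
    exact (out ω₀).elim0)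
  have hn2 : 2 ≤ n := by
    by_contra h
    have h1 : n ≤ 1 := by omega
    exact hst (Fin.ext (by have := s.2; have := t.2; omega))
  have hr2 : 2 ≤ r := le_trans (by
    calc 2 = 2 ^ 1 := by norm_num
      _ ≤ 2 ^ (k + 1) := Nat.pow_le_pow_right (by norm_num) (by omega)) hk
  have hT : 1 ≤ T := by
    by_contra h0
    have hT0 : T = 0 := by omega
    subst hT0
    have h1 := (hD (fun _ _ => true) (fun _ _ => rfl)).1 ⟨1, by omega, s, rfl, rfl⟩
    have h2 := (hD (fun _ _ => false) (fun _ _ => rfl)).2 (by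
      intro h
      unfold Reach at h
      rcases Relation.ReflTransGen.cases_head h with h3 | ⟨w, h3, -⟩
      · exact hst h3
      · exact absurd h3 (by simp))
    have h1' : 2 / 3 ≤ ∑ ω ∈ univ.filter (fun ω => (M ω).init (out ω) = true), p ω := h1
    have h2' : ∑ ω ∈ univ.filter (fun ω => (M ω).init (out ω) = true), p ω ≤ 1 / 3 := h2
    linarith
  have hTS : (1 : ℝ) ≤ T * (S : ℝ) ^ k := by
    have h1 : (1 : ℝ) ≤ T := by exact_mod_cast hT
    have h2 : (1 : ℝ) ≤ (S : ℝ) ^ k := one_le_pow₀ (by exact_mod_cast hS)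
    nlinarith
  have hlog2 : (1 : ℝ) / 2 ≤ Real.log n := by
    have h1 : Real.log 2 ≤ Real.log n := Real.log_le_log (by norm_num) (by exact_mod_cast hn2)
    have h2 := Real.log_two_gt_d9
    linarith
  by_cases hn : r + 2 ≤ n
  · -- the main case
    have hlog1 : (1 : ℝ) ≤ Real.log n := by
      have h1 : Real.log (2 ^ 2) ≤ Real.log n := Real.log_le_log (by norm_num) (by
        have : 4 ≤ n := by omega
        calc (2 : ℝ) ^ 2 = ((4 : ℕ) : ℝ) := by norm_num
          _ ≤ n := by exact_mod_cast this)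
      rw [Real.log_pow] at h1
      have h2 := Real.log_two_gt_d9
      push_cast at h1
      linarith
    have hsq := seqs_nonempty hst hn
    have hct := cuts_nonempty hst
    have hsq0 : (0 : ℝ) < (seqs n r s t).card := by exact_mod_cast card_pos.2 hsq
    have hct0 : (0 : ℝ) < (cuts n s t).card := by exact_mod_cast card_pos.2 hct
    have hA : 2 / 3 ≤ ∑ ω, p ω * accPath (M ω) (out ω) T r s t := by
      unfold accPath
      rw [sum_congr rfl fun ω _ => (mul_div_assoc (p ω) _ _).symm, ← sum_div,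
        sum_swap _ p (fun ω P => (M ω).run (fun e => pathGraph s t P e.1 e.2) T (out ω)),
        le_div_iff₀ hsq0]
      have h1 : ∀ P ∈ seqs n r s t, (2 : ℝ) / 3 ≤ ∑ ω ∈ univ.filter (fun ω =>
          (M ω).run (fun e => pathGraph s t P e.1 e.2) T (out ω) = true), p ω := fun P _ =>
        (hD (pathGraph s t P) (path_symm s t P)).1 ⟨r + 1, le_rfl, walk_path s t P⟩
      have h4 := card_nsmul_le_sum (seqs n r s t) _ _ h1
      rw [nsmul_eq_mul] at h4
      linarith
    have hB : ∑ ω, p ω * accCut (M ω) (out ω) T s t ≤ 1 / 3 := by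
      unfold accCut
      rw [sum_congr rfl fun ω _ => (mul_div_assoc (p ω) _ _).symm, ← sum_div,
        sum_swap _ p (fun ω C => (M ω).run (fun e => cutGraph C e.1 e.2) T (out ω)),
        div_le_iff₀ hct0]
      have h1 : ∀ C ∈ cuts n s t, ∑ ω ∈ univ.filter (fun ω =>
          (M ω).run (fun e => cutGraph C e.1 e.2) T (out ω) = true), p ω ≤ (1 : ℝ) / 3 := by
        intro C hC
        rw [cuts, mem_filter] at hC
        exact (hD (cutGraph C) (cut_symm C)).2 (cut_reach hC.2.1 hC.2.2)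
      have h4 := sum_le_card_nsmul (cuts n s t) _ _ h1
      rw [nsmul_eq_mul] at h4
      linarith
    have hex : ∃ ω, (1 : ℝ) / 3 ≤ accPath (M ω) (out ω) T r s t - accCut (M ω) (out ω) T s t := by
      by_contra hcon
      push Not at hcon
      have h1 : ∑ ω, p ω * (accPath (M ω) (out ω) T r s t - accCut (M ω) (out ω) T s t) <
          ∑ ω, p ω * (1 / 3) := by
        refine sum_lt_sum (fun ω _ => mul_le_mul_of_nonneg_left (hcon ω).le (hp0 ω))
          ⟨ω₀, mem_univ _, mul_lt_mul_of_pos_left (hcon ω₀) hω₀⟩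
      rw [← sum_mul, hp1, sum_congr rfl fun ω _ => mul_sub (p ω) _ _, sum_sub_distrib] at h1
      linarith
    obtain ⟨ω, hω⟩ := hex
    have h5 := hω.trans (hc₀ n S T s t hst (M ω) (out ω))
    have hnpos : (0 : ℝ) < (n : ℝ) ^ (k + 2) := by positivity
    rw [le_div_iff₀ hnpos] at h5
    have h6 : (n : ℝ) ^ (k + 2) ≤ T * (S : ℝ) ^ k * (3 * (c₀ * Real.log n) ^ c₀) := by linarith
    refine h6.trans ?_
    refine mul_le_mul_of_nonneg_left ?_ (by positivity)
    have hl0 : (0 : ℝ) ≤ Real.log n := by linarith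
    have h7 : (c₀ * Real.log n) ^ c₀ ≤ (c * Real.log n) ^ c₀ := by
      refine pow_le_pow_left₀ (by positivity) ?_ _
      refine mul_le_mul_of_nonneg_right ?_ hl0
      exact_mod_cast (by omega : c₀ ≤ c)
    have h8 : (3 : ℝ) ≤ c * Real.log n := by
      have : (3 : ℝ) ≤ c := by exact_mod_cast (by omega : 3 ≤ c)
      nlinarith
    have h9 : (3 : ℝ) ≤ (c * Real.log n) ^ (c - c₀) := by
      have h10 : (c * Real.log n) ^ 1 ≤ (c * Real.log n) ^ (c - c₀) :=
        pow_le_pow_right₀ (by linarith) (by omega)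
      rw [pow_one] at h10
      linarith
    have h11 : (c * Real.log n) ^ c = (c * Real.log n) ^ (c - c₀) * (c * Real.log n) ^ c₀ := by
      rw [← pow_add]
      congr 1
      omega
    rw [h11]
    refine mul_le_mul h9 h7 (by positivity) (by positivity)
  · -- few vertices
    have hnr : (n : ℝ) ≤ (r + 2 : ℕ) := by exact_mod_cast (by omega : n ≤ r + 2)
    have h1 : (n : ℝ) ^ (k + 2) ≤ ((r + 2 : ℕ) : ℝ) ^ (k + 2) :=
      pow_le_pow_left₀ (by positivity) hnr _
    have h2 : ((r + 2 : ℕ) : ℝ) ≤ c * Real.log n := by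
      have h3 : (2 * (r + 2) : ℝ) ≤ c := by
        have : 2 * (r + 2) ≤ c := by omega
        exact_mod_cast this
      push_cast
      nlinarith
    have h4 : ((r + 2 : ℕ) : ℝ) ^ (k + 2) ≤ (c * Real.log n) ^ c := by
      have h5 : (1 : ℝ) ≤ ((r + 2 : ℕ) : ℝ) := by push_cast; linarith [(Nat.cast_nonneg r : (0:ℝ) ≤ r)]
      calc ((r + 2 : ℕ) : ℝ) ^ (k + 2) ≤ ((r + 2 : ℕ) : ℝ) ^ c :=
            pow_le_pow_right₀ h5 (by omega)
        _ ≤ (c * Real.log n) ^ c := pow_le_pow_left₀ (by positivity) h2 _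
    have h6 : (0 : ℝ) ≤ (c * Real.log n) ^ c := le_trans (by positivity) h4
    calc (n : ℝ) ^ (k + 2) ≤ (c * Real.log n) ^ c := h1.trans h4
      _ = 1 * (c * Real.log n) ^ c := (one_mul _).symm
      _ ≤ T * (S : ℝ) ^ k * (c * Real.log n) ^ c := mul_le_mul_of_nonneg_right hTS h6

end MTS
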