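import Pool.Agent.Lib.MTS.Basic

/-!
# MTS.RecA (MP_e46137_lc): the recursion over time windows
-/

namespace MTS

open Classical Finset

/-- `E X a b t₁ t₂`: the paths which agree with `X` outside the layers `a, …, b - 1` and for which
all arcs `a, …, b` are outside `Z t₁ P` and inside `Z t₂ P`. -/
noncomputable def E {r N : ℕ} (Z : ℕ → Pth r N → Set ℕ) (X : Pth r N) (a b t₁ t₂ : ℕ) :
    Finset (Pth r N) :=
  univ.filter (fun P => (∀ j : Fin r, ¬ (a ≤ (j : ℕ) ∧ (j : ℕ) < b) → P j = X j) ∧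
    (∀ q, a ≤ q → q ≤ b → q ∉ Z t₁ P) ∧ ∀ q, a ≤ q → q ≤ b → q ∈ Z t₂ P)

namespace RecAAux

variable {r N : ℕ}

theorem mem_E {Z : ℕ → Pth r N → Set ℕ} {X : Pth r N} {a b t₁ t₂ : ℕ} {P : Pth r N} :
    P ∈ E Z X a b t₁ t₂ ↔ (∀ j : Fin r, ¬ (a ≤ (j : ℕ) ∧ (j : ℕ) < b) → P j = X j) ∧
      (∀ q, a ≤ q → q ≤ b → q ∉ Z t₁ P) ∧ ∀ q, a ≤ q → q ≤ b → q ∈ Z t₂ P := by
  unfold E
  rw [mem_filter]
  exact ⟨fun h => h.2, fun h => ⟨mem_univ _, h⟩⟩

/-- the layers `a, …, b - 1` -/
def lay (r a b : ℕ) : Finset (Fin r) := univ.filter (fun j : Fin r => a ≤ (j : ℕ) ∧ (j : ℕ) < b)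

theorem mem_lay {a b : ℕ} {j : Fin r} : j ∈ lay r a b ↔ a ≤ (j : ℕ) ∧ (j : ℕ) < b := by
  unfold lay
  rw [mem_filter]
  exact ⟨fun h => h.2, fun h => ⟨mem_univ _, h⟩⟩

theorem card_lay (r a b : ℕ) : (lay r a b).card ≤ b - a := by
  rw [← Nat.card_Ico a b]
  refine card_le_card_of_injOn (fun j => (j : ℕ)) ?_ ?_
  · intro j hj
    have := mem_lay.1 (mem_coe.1 hj)
    exact mem_coe.2 (mem_Ico.2 this)
  · intro j _ j' _ h
    exact Fin.ext h

theorem card_le_of_restrict (A : Finset (Pth r N)) (L : Finset (Fin r))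
    (hA : ∀ P ∈ A, ∀ P' ∈ A, (∀ j ∈ L, P j = P' j) → P = P') : A.card ≤ N ^ L.card := by
  have h1 : (univ : Finset (L → Fin N)).card = N ^ L.card := by
    rw [card_univ, Fintype.card_fun, Fintype.card_fin, Fintype.card_coe]
  rw [← h1]
  refine card_le_card_of_injOn (fun P (l : L) => P l.1) (fun _ _ => mem_coe.2 (mem_univ _)) ?_
  intro P hP P' hP' h
  exact hA P hP P' hP' (fun j hj => congrFun h ⟨j, hj⟩)

theorem fiber_sum (A : Finset (Pth r N)) (L : Finset (Fin r)) (m R : ℕ)
    (hfib : ∀ P₀ ∈ A, (A.filter (fun P => ∀ j ∈ L, P j = P₀ j)).card * m ≤ R) :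
    A.card * m ≤ N ^ L.card * R := by
  have h1 : (univ : Finset (L → Fin N)).card = N ^ L.card := by
    rw [card_univ, Fintype.card_fun, Fintype.card_fin, Fintype.card_coe]
  let f : Pth r N → (L → Fin N) := fun P l => P l.1
  have h2 : A.card = ∑ φ ∈ A.image f, (A.filter (fun P => f P = φ)).card :=
    card_eq_sum_card_image f A
  rw [h2, sum_mul]
  have h3 : ∀ φ ∈ A.image f, (A.filter (fun P => f P = φ)).card * m ≤ R := by
    intro φ hφ
    obtain ⟨P₀, hP₀, rfl⟩ := mem_image.1 hφ
    refine le_trans (Nat.mul_le_mul_right m (card_le_card ?_)) (hfib P₀ hP₀)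
    intro P hP
    rw [mem_filter] at hP ⊢
    exact ⟨hP.1, fun j hj => congrFun hP.2 ⟨j, hj⟩⟩
  refine le_trans (sum_le_card_nsmul _ _ _ h3) ?_
  rw [smul_eq_mul]
  refine Nat.mul_le_mul_right R ?_
  rw [← h1]
  exact card_le_card (subset_univ _)

theorem enter {Z : ℕ → Set ℕ} {q t₁ : ℕ} : ∀ τ : ℕ, q ∉ Z t₁ → q ∈ Z (t₁ + τ) →
    ∃ i < τ, q ∉ Z (t₁ + i) ∧ q ∈ Z (t₁ + i + 1) := by
  intro τ
  induction τ with
  | zero => intro h h'; exact absurd h' h
  | succ τ ih =>
    intro h h'
    by_cases h2 : q ∈ Z (t₁ + τ)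
    · obtain ⟨i, hi, h3⟩ := ih h h2
      exact ⟨i, by omega, h3⟩
    · exact ⟨τ, by omega, h2, h'⟩

theorem base {T : ℕ} (Z : ℕ → Pth r N → Set ℕ)
    (hread : ∀ t < T, ∀ P P' : Pth r N, ∀ q, 1 ≤ q → q < r → q ∉ Z t P → q ∈ Z (t + 1) P →
      q ∉ Z t P' → q ∈ Z (t + 1) P' → ∀ j : Fin r, (j : ℕ) + 1 = q ∨ (j : ℕ) = q → P j = P' j)
    (τ : ℕ) (X : Pth r N) (a b t₁ : ℕ) (hT : t₁ + τ ≤ T) (hb : b ≤ r) (hab : a + 2 ≤ b) :
    (E Z X a b t₁ (t₁ + τ)).card * N ^ 2 ≤ τ * N ^ (b - a) := by
  let A : ℕ → Finset (Pth r N) := fun i => (E Z X a b t₁ (t₁ + τ)).filter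
    (fun P => a + 1 ∉ Z (t₁ + i) P ∧ a + 1 ∈ Z (t₁ + i + 1) P)
  have h1 : E Z X a b t₁ (t₁ + τ) ⊆ (range τ).biUnion A := by
    intro P hP
    obtain ⟨h2, h3, h4⟩ := mem_E.1 hP
    obtain ⟨i, hi, h5⟩ := enter (Z := fun t => Z t P) τ (h3 (a + 1) (by omega) (by omega))
      (h4 (a + 1) (by omega) (by omega))
    exact mem_biUnion.2 ⟨i, mem_range.2 hi, mem_filter.2 ⟨hP, h5⟩⟩
  have h2 : ∀ i ∈ range τ, (A i).card ≤ N ^ (b - (a + 2)) := by
    intro i hi
    have hi' := mem_range.1 hi
    have h3 : (A i).card ≤ N ^ (lay r (a + 2) b).card := by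
      refine card_le_of_restrict (A i) (lay r (a + 2) b) ?_
      intro P hP P' hP' hL
      obtain ⟨hP1, hP2⟩ := mem_filter.1 hP
      obtain ⟨hP1', hP2'⟩ := mem_filter.1 hP'
      have h4 := hread (t₁ + i) (by omega) P P' (a + 1) (by omega) (by omega) hP2.1 hP2.2
        hP2'.1 hP2'.2
      funext j
      by_cases hj : a ≤ (j : ℕ) ∧ (j : ℕ) < b
      · by_cases hj2 : a + 2 ≤ (j : ℕ)
        · exact hL j (mem_lay.2 ⟨hj2, hj.2⟩)
        · exact h4 j (by omega)
      · rw [(mem_E.1 hP1).1 j hj, (mem_E.1 hP1').1 j hj]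
    refine le_trans h3 ?_
    rcases Nat.eq_zero_or_pos N with hN | hN
    · subst hN
      have h5 : (lay r (a + 2) b).card = b - (a + 2) := by
        refine le_antisymm (card_lay r (a + 2) b) ?_
        rw [← Nat.card_Ico (a + 2) b]
        refine card_le_card_of_surjOn (fun j : Fin r => (j : ℕ)) ?_
        intro x hx
        have hx' := mem_Ico.1 (mem_coe.1 hx)
        exact ⟨⟨x, by omega⟩, mem_coe.2 (mem_lay.2 hx'), rfl⟩
      rw [h5]
    · exact Nat.pow_le_pow_right hN (card_lay r (a + 2) b)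
  have h3 : (E Z X a b t₁ (t₁ + τ)).card ≤ τ * N ^ (b - (a + 2)) := by
    refine le_trans (card_le_card h1) (le_trans card_biUnion_le ?_)
    refine le_trans (sum_le_card_nsmul _ _ _ h2) ?_
    rw [card_range, smul_eq_mul]
  refine le_trans (Nat.mul_le_mul_right _ h3) (le_of_eq ?_)
  rw [mul_assoc, ← pow_add]
  congr 2
  omega

end RecAAux

open RecAAux

theorem rec_window {r N T κ : ℕ} (Z : ℕ → Pth r N → Set ℕ)
    (Cov : ℕ → Finset (Fin r × Fin N))
    (hstep : ∀ t < T, ∀ P, ∃ q₀, ∀ q ≤ r, q ∈ Z (t + 1) P → q ∈ Z t P ∨ q = q₀)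
    (hread : ∀ t < T, ∀ P P' : Pth r N, ∀ q, 1 ≤ q → q < r → q ∉ Z t P → q ∈ Z (t + 1) P →
      q ∉ Z t P' → q ∈ Z (t + 1) P' → ∀ j : Fin r, (j : ℕ) + 1 = q ∨ (j : ℕ) = q → P j = P' j)
    (hmix : ∀ t ≤ T, ∀ P, ∀ q ≤ r, ∀ q' ≤ r, q ∉ Z t P → q' ∈ Z t P →
      ∃ j : Fin r, min q q' ≤ (j : ℕ) ∧ (j : ℕ) < max q q' ∧ (j, P j) ∈ Cov t)
    (hcov : ∀ t ≤ T, (Cov t).card ≤ κ) :
    ∀ (h τ : ℕ) (X : Pth r N) (a b t₁ : ℕ), t₁ + τ ≤ T → b ≤ r → a + 2 ^ (h + 1) ≤ b →
      (E Z X a b t₁ (t₁ + τ)).card * N ^ (h + 2) ≤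
        κ ^ h * (τ * Nat.clog 2 τ ^ h) * N ^ (b - a) := by
  intro h
  induction h with
  | zero =>
    intro τ X a b t₁ hT hb hab
    simpa using base Z hread τ X a b t₁ hT hb (by simpa using hab)
  | succ h ih =>
    intro τ
    induction τ using Nat.strong_induction_on with
    | _ τ ihτ =>
      intro X a b t₁ hT hb hab
      have hp : 1 ≤ 2 ^ h := Nat.one_le_two_pow
      have hpow : 2 ^ (h + 1 + 1) = 4 * 2 ^ h := by ring
      have hpow' : 2 ^ (h + 1) = 2 * 2 ^ h := by ring
      rcases Nat.lt_or_ge τ 2 with hτ | hτ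
      · have hempty : E Z X a b t₁ (t₁ + τ) = ∅ := by
          rw [eq_empty_iff_forall_notMem]
          intro P hP
          obtain ⟨_, h3, h4⟩ := mem_E.1 hP
          rcases Nat.lt_or_ge τ 1 with h0 | h1
          · have : τ = 0 := by omega
            subst this
            exact h3 a (le_refl a) (by omega) (h4 a (le_refl a) (by omega))
          · have : τ = 1 := by omega
            subst this
            obtain ⟨q₀, hq₀⟩ := hstep t₁ (by omega) P
            have h5 := hq₀ a (by omega) (h4 a (le_refl a) (by omega))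
            have h6 := hq₀ (a + 1) (by omega) (h4 (a + 1) (by omega) (by omega))
            rcases h5 with h5 | h5
            · exact h3 a (le_refl a) (by omega) h5
            · rcases h6 with h6 | h6
              · exact h3 (a + 1) (by omega) (by omega) h6
              · omega
        rw [hempty, card_empty, zero_mul]
        exact Nat.zero_le _
      · -- the window is cut in the middle
        have hτ1 : τ / 2 < τ := by omega
        have hτ2 : τ - τ / 2 < τ := by omega
        let c := t₁ + τ / 2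
        have hsum : c + (τ - τ / 2) = t₁ + τ := by simp only [c]; omega
        have hE1 := ihτ (τ / 2) hτ1 X a b t₁ (by omega) hb hab
        have hE2 := ihτ (τ - τ / 2) hτ2 X a b c (by omega) hb hab
        rw [hsum] at hE2
        let C := (Cov c).filter (fun x => a ≤ (x.1 : ℕ) ∧ (x.1 : ℕ) < b)
        let A : Fin r × Fin N → Finset (Pth r N) := fun x =>
          (E Z X a b t₁ (t₁ + τ)).filter (fun P => P x.1 = x.2)
        have hsub : E Z X a b t₁ (t₁ + τ) ⊆
            (E Z X a b t₁ c ∪ E Z X a b c (t₁ + τ)) ∪ C.biUnion A := by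
          intro P hP
          obtain ⟨h2, h3, h4⟩ := mem_E.1 hP
          by_cases hall : ∀ q, a ≤ q → q ≤ b → q ∈ Z c P
          · exact mem_union_left _ (mem_union_left _ (mem_E.2 ⟨h2, h3, hall⟩))
          · by_cases hnone : ∀ q, a ≤ q → q ≤ b → q ∉ Z c P
            · exact mem_union_left _ (mem_union_right _ (mem_E.2 ⟨h2, hnone, h4⟩))
            · push Not at hall hnone
              obtain ⟨q, hq1, hq2, hq3⟩ := hall
              obtain ⟨q', hq1', hq2', hq3'⟩ := hnone
              obtain ⟨j, hj1, hj2, hj3⟩ := hmix c (by simp only [c]; omega) P q (by omega) q'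
                (by omega) hq3 hq3'
              refine mem_union_right _ (mem_biUnion.2 ⟨(j, P j), mem_filter.2 ⟨hj3, ?_⟩,
                mem_filter.2 ⟨hP, rfl⟩⟩)
              constructor
              · exact le_trans (le_min hq1 hq1') hj1
              · exact lt_of_lt_of_le hj2 (max_le hq2 hq2')
        have hcardsub : (E Z X a b t₁ (t₁ + τ)).card ≤ (E Z X a b t₁ c).card +
            (E Z X a b c (t₁ + τ)).card + ∑ x ∈ C, (A x).card := by
          refine le_trans (card_le_card hsub) (le_trans (card_union_le _ _) ?_)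
          exact Nat.add_le_add (card_union_le _ _) card_biUnion_le
        have hA : ∀ x ∈ C, (A x).card * N ^ (h + 1 + 2) ≤
            κ ^ h * (τ * Nat.clog 2 τ ^ h) * N ^ (b - a) := by
          intro x hx
          obtain ⟨_, hx1, hx2⟩ := mem_filter.1 hx
          obtain ⟨j, α⟩ := x
          simp only at hx1 hx2
          rcases Nat.lt_or_ge (j : ℕ) (a + 2 ^ (h + 1)) with hj | hj
          · -- the right part is long
            have h5 : (A (j, α)).card * N ^ (h + 2) ≤ N ^ (lay r a j).card *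
                (κ ^ h * (τ * Nat.clog 2 τ ^ h) * N ^ (b - (j + 1))) := by
              refine fiber_sum (A (j, α)) (lay r a j) _ _ ?_
              intro P₀ hP₀
              refine le_trans (Nat.mul_le_mul_right _ (card_le_card ?_))
                (ih τ P₀ (j + 1) b t₁ hT hb (by omega))
              intro P hP
              obtain ⟨hP1, hP2⟩ := mem_filter.1 hP
              obtain ⟨hP3, hP4⟩ := mem_filter.1 hP1
              obtain ⟨hP5, hP6, hP7⟩ := mem_E.1 hP3
              obtain ⟨hP3', hP4'⟩ := mem_filter.1 hP₀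
              obtain ⟨hP5', _, _⟩ := mem_E.1 hP3'
              refine mem_E.2 ⟨?_, fun q hq hq' => hP6 q (by omega) hq',
                fun q hq hq' => hP7 q (by omega) hq'⟩
              intro i hi
              by_cases hi1 : a ≤ (i : ℕ) ∧ (i : ℕ) < b
              · by_cases hi2 : (i : ℕ) < j
                · exact hP2 i (mem_lay.2 ⟨hi1.1, hi2⟩)
                · have : i = j := Fin.ext (by omega)
                  subst this
                  exact hP4.trans hP4'.symm
              · rw [hP5 i hi1, hP5' i hi1]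
            have h6 : (lay r a j).card ≤ j - a := card_lay r a j
            have hNpos : 0 < N := lt_of_le_of_lt (Nat.zero_le _) α.2
            calc (A (j, α)).card * N ^ (h + 1 + 2) = (A (j, α)).card * N ^ (h + 2) * N := by ring
              _ ≤ N ^ (lay r a j).card *
                (κ ^ h * (τ * Nat.clog 2 τ ^ h) * N ^ (b - (j + 1))) * N :=
                  Nat.mul_le_mul_right _ h5
              _ ≤ N ^ (j - a) *
                (κ ^ h * (τ * Nat.clog 2 τ ^ h) * N ^ (b - (j + 1))) * N :=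
                  Nat.mul_le_mul_right _ (Nat.mul_le_mul_right _
                    (Nat.pow_le_pow_right hNpos h6))
              _ = κ ^ h * (τ * Nat.clog 2 τ ^ h) * (N ^ (j - a) * N ^ (b - (j + 1)) * N ^ 1) := by
                  ring
              _ = κ ^ h * (τ * Nat.clog 2 τ ^ h) * N ^ (b - a) := by
                  rw [← pow_add, ← pow_add]
                  congr 2
                  omega
          · -- the left part is long
            have h5 : (A (j, α)).card * N ^ (h + 2) ≤ N ^ (lay r (j + 1) b).card *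
                (κ ^ h * (τ * Nat.clog 2 τ ^ h) * N ^ (j - a)) := by
              refine fiber_sum (A (j, α)) (lay r (j + 1) b) _ _ ?_
              intro P₀ hP₀
              refine le_trans (Nat.mul_le_mul_right _ (card_le_card ?_))
                (ih τ P₀ a j t₁ hT (by omega) (by omega))
              intro P hP
              obtain ⟨hP1, hP2⟩ := mem_filter.1 hP
              obtain ⟨hP3, hP4⟩ := mem_filter.1 hP1
              obtain ⟨hP5, hP6, hP7⟩ := mem_E.1 hP3
              obtain ⟨hP3', hP4'⟩ := mem_filter.1 hP₀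
              obtain ⟨hP5', _, _⟩ := mem_E.1 hP3'
              refine mem_E.2 ⟨?_, fun q hq hq' => hP6 q hq (by omega),
                fun q hq hq' => hP7 q hq (by omega)⟩
              intro i hi
              by_cases hi1 : a ≤ (i : ℕ) ∧ (i : ℕ) < b
              · by_cases hi2 : (j : ℕ) + 1 ≤ i
                · exact hP2 i (mem_lay.2 ⟨hi2, hi1.2⟩)
                · have : i = j := Fin.ext (by omega)
                  subst this
                  exact hP4.trans hP4'.symm
              · rw [hP5 i hi1, hP5' i hi1]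
            have h6 : (lay r (j + 1) b).card ≤ b - (j + 1) := card_lay r (j + 1) b
            have hNpos : 0 < N := lt_of_le_of_lt (Nat.zero_le _) α.2
            calc (A (j, α)).card * N ^ (h + 1 + 2) = (A (j, α)).card * N ^ (h + 2) * N := by ring
              _ ≤ N ^ (lay r (j + 1) b).card *
                (κ ^ h * (τ * Nat.clog 2 τ ^ h) * N ^ (j - a)) * N :=
                  Nat.mul_le_mul_right _ h5
              _ ≤ N ^ (b - (j + 1)) *
                (κ ^ h * (τ * Nat.clog 2 τ ^ h) * N ^ (j - a)) * N :=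
                  Nat.mul_le_mul_right _ (Nat.mul_le_mul_right _
                    (Nat.pow_le_pow_right hNpos h6))
              _ = κ ^ h * (τ * Nat.clog 2 τ ^ h) * (N ^ (j - a) * N ^ (b - (j + 1)) * N ^ 1) := by
                  ring
              _ = κ ^ h * (τ * Nat.clog 2 τ ^ h) * N ^ (b - a) := by
                  rw [← pow_add, ← pow_add]
                  congr 2
                  omega
        have hsumA : (∑ x ∈ C, (A x).card) * N ^ (h + 1 + 2) ≤
            κ ^ (h + 1) * (τ * Nat.clog 2 τ ^ h) * N ^ (b - a) := by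
          rw [sum_mul]
          refine le_trans (sum_le_card_nsmul _ _ _ hA) ?_
          rw [smul_eq_mul]
          have h7 : C.card ≤ κ :=
            le_trans (card_le_card (filter_subset _ _)) (hcov c (by simp only [c]; omega))
          refine le_trans (Nat.mul_le_mul_right _ h7) (le_of_eq ?_)
          ring
        have hlog : Nat.clog 2 τ = Nat.clog 2 (τ - τ / 2) + 1 := by
          rw [Nat.clog_of_two_le (by norm_num) hτ]
          congr 2
          omega
        have hlog1 : Nat.clog 2 (τ / 2) ≤ Nat.clog 2 (τ - τ / 2) :=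
          Nat.clog_mono_right 2 (by omega)
        have hfin : τ / 2 * Nat.clog 2 (τ / 2) ^ (h + 1) +
            (τ - τ / 2) * Nat.clog 2 (τ - τ / 2) ^ (h + 1) + τ * Nat.clog 2 τ ^ h ≤
            τ * Nat.clog 2 τ ^ (h + 1) := by
          rw [hlog]
          set l := Nat.clog 2 (τ - τ / 2) with hl
          have h8 : τ / 2 * Nat.clog 2 (τ / 2) ^ (h + 1) ≤ τ / 2 * l ^ (h + 1) :=
            Nat.mul_le_mul_left _ (Nat.pow_le_pow_left hlog1 _)
          have h9 : τ / 2 * l ^ (h + 1) + (τ - τ / 2) * l ^ (h + 1) = τ * l ^ (h + 1) := by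
            rw [← add_mul]
            congr 1
            omega
          have h10 : l ^ (h + 1) + (l + 1) ^ h ≤ (l + 1) ^ (h + 1) := by
            have : l ^ h ≤ (l + 1) ^ h := Nat.pow_le_pow_left (Nat.le_succ l) h
            calc l ^ (h + 1) + (l + 1) ^ h = l ^ h * l + (l + 1) ^ h := by ring
              _ ≤ (l + 1) ^ h * l + (l + 1) ^ h :=
                Nat.add_le_add_right (Nat.mul_le_mul_right _ this) _
              _ = (l + 1) ^ (h + 1) := by ring
          calc τ / 2 * Nat.clog 2 (τ / 2) ^ (h + 1) + (τ - τ / 2) * l ^ (h + 1) +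
                τ * (l + 1) ^ h
              ≤ τ / 2 * l ^ (h + 1) + (τ - τ / 2) * l ^ (h + 1) + τ * (l + 1) ^ h :=
                Nat.add_le_add_right (Nat.add_le_add_right h8 _) _
            _ = τ * (l ^ (h + 1) + (l + 1) ^ h) := by rw [h9]; ring
            _ ≤ τ * (l + 1) ^ (h + 1) := Nat.mul_le_mul_left _ h10
        calc (E Z X a b t₁ (t₁ + τ)).card * N ^ (h + 1 + 2)
            ≤ ((E Z X a b t₁ c).card + (E Z X a b c (t₁ + τ)).card +
                ∑ x ∈ C, (A x).card) * N ^ (h + 1 + 2) := Nat.mul_le_mul_right _ hcardsub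
          _ = (E Z X a b t₁ c).card * N ^ (h + 1 + 2) +
                (E Z X a b c (t₁ + τ)).card * N ^ (h + 1 + 2) +
                (∑ x ∈ C, (A x).card) * N ^ (h + 1 + 2) := by ring
          _ ≤ κ ^ (h + 1) * (τ / 2 * Nat.clog 2 (τ / 2) ^ (h + 1)) * N ^ (b - a) +
                κ ^ (h + 1) * ((τ - τ / 2) * Nat.clog 2 (τ - τ / 2) ^ (h + 1)) * N ^ (b - a) +
                κ ^ (h + 1) * (τ * Nat.clog 2 τ ^ h) * N ^ (b - a) :=
              Nat.add_le_add (Nat.add_le_add hE1 hE2) hsumA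
          _ = κ ^ (h + 1) * (τ / 2 * Nat.clog 2 (τ / 2) ^ (h + 1) +
                (τ - τ / 2) * Nat.clog 2 (τ - τ / 2) ^ (h + 1) +
                τ * Nat.clog 2 τ ^ h) * N ^ (b - a) := by ring
          _ ≤ κ ^ (h + 1) * (τ * Nat.clog 2 τ ^ (h + 1)) * N ^ (b - a) :=
              Nat.mul_le_mul_right _ (Nat.mul_le_mul_left _ hfin)

end MTS
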