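import Pool.Agent.Lib.MTS.RecA

/-!
# MTS.RecP (MP_e46137_lc): the recursion over time windows, for a part of the paths
-/

namespace MTS

open Classical Finset

theorem rec_part {r N T κ k : ℕ} (Z : ℕ → Pth r N → Set ℕ)
    (Cov : ℕ → Finset (Fin r × Fin N)) (hN : 1 ≤ N)
    (h0 : ∀ P, ∀ q ≤ r, q ∉ Z 0 P)
    (hstep : ∀ t < T, ∀ P, ∃ q₀, ∀ q ≤ r, q ∈ Z (t + 1) P → q ∈ Z t P ∨ q = q₀)
    (hread : ∀ t < T, ∀ P P' : Pth r N, ∀ q, 1 ≤ q → q < r → q ∉ Z t P → q ∈ Z (t + 1) P →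
      q ∉ Z t P' → q ∈ Z (t + 1) P' → ∀ j : Fin r, (j : ℕ) + 1 = q ∨ (j : ℕ) = q → P j = P' j)
    (hmix : ∀ t ≤ T, ∀ P, ∀ q ≤ r, ∀ q' ≤ r, q ∉ Z t P → q' ∈ Z t P →
      ∃ j : Fin r, min q q' ≤ (j : ℕ) ∧ (j : ℕ) < max q q' ∧ (j, P j) ∈ Cov t)
    (hcov : ∀ t ≤ T, (Cov t).card ≤ κ) (hk : 2 ^ (k + 1) ≤ r) (W : Finset (Pth r N))
    (hW : ∀ P ∈ W, ∀ q ≤ r, q ∈ Z T P) :
    W.card * N ^ (k + 2) ≤
      T * (κ * Nat.clog 2 T) ^ k * N ^ r := by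
  have h1 := rec_window Z Cov hstep hread hmix hcov k T (fun _ => ⟨0, hN⟩) 0 r 0 (by omega)
    le_rfl (by omega)
  have h2 : W ⊆ E Z (fun _ : Fin r => (⟨0, hN⟩ : Fin N)) 0 r 0 (0 + T) := by
    intro P hP
    refine RecAAux.mem_E.2 ⟨fun j hj => absurd ⟨Nat.zero_le _, j.2⟩ hj,
      fun q _ hq => h0 P q hq, fun q _ hq => ?_⟩
    rw [Nat.zero_add]
    exact hW P hP q hq
  rw [Nat.sub_zero] at h1
  refine (Nat.mul_le_mul_right _ (card_le_card h2)).trans (h1.trans (le_of_eq ?_))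
  rw [mul_pow]
  ring

end MTS
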