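import Pool.Agent.Lib.MTS.Embed

/-!
# MTS.UpA (MP_e46137_lc): monotone straight line programs
-/

namespace MTS

open Classical Finset

/-- run a list of (input bit, instruction) -/
def exec {A ι : Type} [DecidableEq ι] (g : A → Bool) :
    List (A × Instr ι) → (ι → Bool) → (ι → Bool)
  | [], σ => σ
  | (a, I) :: l, σ => exec g l (I.apply σ (g a))

theorem exec_append {A ι : Type} [DecidableEq ι] (g : A → Bool) (l l' : List (A × Instr ι))
    (σ : ι → Bool) : exec g (l ++ l') σ = exec g l' (exec g l σ) := by
  induction l generalizing σ with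
  | nil => rfl
  | cons p l ih =>
    obtain ⟨a, I⟩ := p
    exact ih (I.apply σ (g a))

namespace UpAAux

theorem update_mono {ι : Type} [DecidableEq ι] {σ σ' : ι → Bool} (h : σ ≤ σ') (i : ι) {b b' : Bool}
    (hb : b ≤ b') : Function.update σ i b ≤ Function.update σ' i b' := by
  intro j
  by_cases hj : j = i
  · subst hj
    rw [Function.update_self, Function.update_self]
    exact hb
  · rw [Function.update_of_ne hj, Function.update_of_ne hj]
    exact h j

theorem and_mono {a b a' b' : Bool} (h : a ≤ a') (h' : b ≤ b') : (a && b) ≤ (a' && b') := by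
  revert a b a' b'
  decide

theorem or_mono {a b a' b' : Bool} (h : a ≤ a') (h' : b ≤ b') : (a || b) ≤ (a' || b') := by
  revert a b a' b'
  decide

theorem apply_mono {ι : Type} [DecidableEq ι] (I : Instr ι) (σ σ' : ι → Bool) (x x' : Bool)
    (h : σ ≤ σ') (hx : x ≤ x') : I.apply σ x ≤ I.apply σ' x' := by
  cases I with
  | const i b => exact update_mono h i le_rfl
  | input i => exact update_mono h i hx
  | and i j l => exact update_mono h i (and_mono (h j) (h l))
  | or i j l => exact update_mono h i (or_mono (h j) (h l))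

/-- the machine of a list of instructions -/
def mach {A : Type} {S : ℕ} (σ₀ : Fin S → Bool) (l : List (A × Instr (Fin S)))
    (p₀ : A × Instr (Fin S)) : Mach A S where
  init := σ₀
  arc := fun t => (l.getD t p₀).1
  next := fun t => (l.getD t p₀).2.apply
  mono := fun t σ σ' x x' h hx => apply_mono (l.getD t p₀).2 σ σ' x x' h hx

theorem run_mach {A : Type} {S : ℕ} (σ₀ : Fin S → Bool) (l : List (A × Instr (Fin S)))
    (p₀ : A × Instr (Fin S)) (g : A → Bool) :
    ∀ t ≤ l.length, (mach σ₀ l p₀).run g t = exec g (l.take t) σ₀ := by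
  intro t
  induction t with
  | zero => intro _; rfl
  | succ t ih =>
    intro ht
    have h1 := ih (by omega)
    have h2 : t < l.length := by omega
    have h3 : l.take (t + 1) = l.take t ++ [l.getD t p₀] := by
      rw [List.getD_eq_getElem _ _ h2, List.take_succ_eq_append_getElem h2]
    rw [h3, exec_append, ← h1]
    rfl

/-- renaming of registers -/
def ren {ι κ : Type} (e : ι ≃ κ) : Instr ι → Instr κ
  | .const i b => .const (e i) b
  | .input i => .input (e i)
  | .and i j l => .and (e i) (e j) (e l)
  | .or i j l => .or (e i) (e j) (e l)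

theorem update_comp {ι κ : Type} [DecidableEq ι] [DecidableEq κ] (e : ι ≃ κ) (σ : ι → Bool)
    (τ : κ → Bool) (h : ∀ i, τ (e i) = σ i) (i : ι) (b : Bool) :
    ∀ j, Function.update τ (e i) b (e j) = Function.update σ i b j := by
  intro j
  by_cases hj : j = i
  · subst hj
    rw [Function.update_self, Function.update_self]
  · rw [Function.update_of_ne hj, Function.update_of_ne (fun h' => hj (e.injective h')), h]

theorem apply_ren {ι κ : Type} [DecidableEq ι] [DecidableEq κ] (e : ι ≃ κ) (σ : ι → Bool)
    (τ : κ → Bool) (h : ∀ i, τ (e i) = σ i) (I : Instr ι) (x : Bool) :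
    ∀ j, (ren e I).apply τ x (e j) = I.apply σ x j := by
  cases I with
  | const i b => exact update_comp e σ τ h i b
  | input i => exact update_comp e σ τ h i x
  | and i j l =>
    intro m
    have := update_comp e σ τ h i (σ j && σ l) m
    rw [← h j, ← h l] at this
    simpa only [ren, Instr.apply, h] using this
  | or i j l =>
    intro m
    have := update_comp e σ τ h i (σ j || σ l) m
    rw [← h j, ← h l] at this
    simpa only [ren, Instr.apply, h] using this

theorem exec_ren {A ι κ : Type} [DecidableEq ι] [DecidableEq κ] (e : ι ≃ κ) (g : A → Bool)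
    (l : List (A × Instr ι)) : ∀ (σ : ι → Bool) (τ : κ → Bool), (∀ i, τ (e i) = σ i) →
      ∀ j, exec g (l.map (fun p => (p.1, ren e p.2))) τ (e j) = exec g l σ j := by
  induction l with
  | nil => intro σ τ h j; exact h j
  | cons p l ih =>
    obtain ⟨a, I⟩ := p
    intro σ τ h j
    exact ih _ _ (apply_ren e σ τ h I (g a)) j

end UpAAux

open UpAAux

theorem exists_slp {A ι : Type} [DecidableEq ι] {S : ℕ} (e : ι ≃ Fin S) (l : List (A × Instr ι))
    (σ₀ : ι → Bool) (a₀ : A) (i₀ : ι) :
    ∃ M : Mach A S, IsSLP M ∧ ∀ g i, M.run g l.length (e i) = exec g l σ₀ i := by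
  let l' : List (A × Instr (Fin S)) := l.map (fun p => (p.1, ren e p.2))
  have hl : l'.length = l.length := List.length_map _
  refine ⟨mach (fun j => σ₀ (e.symm j)) l' (a₀, Instr.input (e i₀)),
    fun t => ⟨(l'.getD t (a₀, Instr.input (e i₀))).2, rfl⟩, fun g i => ?_⟩
  rw [← hl, run_mach _ l' _ g l'.length le_rfl, List.take_length]
  exact exec_ren e g l σ₀ _ (fun i => by rw [Equiv.symm_apply_apply]) i

end MTS
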