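import Pool.Agent.Lib.MTS.UpB1

/-!
# MTS.UpB (MP_e46137_lc): Savitch's recursion in batches of `B` vertices
-/

namespace MTS

open Classical Finset

namespace UpBAux

/-- clearing a block -/
theorem clear_spec {n B m₀ : ℕ} (a₀ : Fin n × Fin n) (iw : Fin m₀) :
    ∃ l : List ((Fin n × Fin n) × Instr (Reg m₀ B)), l.length ≤ B ∧
      ∀ (G : Fin n → Fin n → Bool) (σ : Reg m₀ B → Bool),
        (∀ c, exec (fun e => G e.1 e.2) l σ (some (iw, c)) = false) ∧
        ∀ i : Fin m₀, i ≠ iw → ∀ b, exec (fun e => G e.1 e.2) l σ (some (i, b)) =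
          σ (some (i, b)) := by
  have key : ∀ L : List (Fin B), ∀ (G : Fin n → Fin n → Bool) (σ : Reg m₀ B → Bool),
      (∀ c, exec (fun e => G e.1 e.2)
          (L.map (fun c => (a₀, Instr.const (some (iw, c)) false))) σ (some (iw, c)) = true ↔
        (c ∉ L ∧ σ (some (iw, c)) = true)) ∧
      ∀ i : Fin m₀, i ≠ iw → ∀ b, exec (fun e => G e.1 e.2)
          (L.map (fun c => (a₀, Instr.const (some (iw, c)) false))) σ (some (i, b)) =
        σ (some (i, b)) := by
    intro L
    induction L with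
    | nil =>
      intro G σ
      exact ⟨fun c => by simp [exec], fun i _ b => rfl⟩
    | cons x L ih =>
      intro G σ
      simp only [List.map_cons, exec, Instr.apply]
      obtain ⟨h1, h2⟩ := ih G (Function.update σ (some (iw, x)) false)
      constructor
      · intro c
        rw [h1 c]
        by_cases hc : c = x
        · subst hc
          rw [Function.update_self]
          simp
        · rw [Function.update_of_ne (by simp [hc])]
          simp [hc]
      · intro i hi b
        rw [h2 i hi b, Function.update_of_ne (by simp [hi])]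
  refine ⟨(List.finRange B).map (fun c => (a₀, Instr.const (some (iw, c)) false)), by simp, ?_⟩
  intro G σ
  obtain ⟨h1, h2⟩ := key (List.finRange B) G σ
  refine ⟨fun c => ?_, h2⟩
  rw [Bool.eq_false_iff]
  intro h
  exact ((h1 c).1 h).1 (List.mem_finRange c)

/-- specification: add to the block `iv` what is related to the block `iu` -/
def Spec {n B m₀ : ℕ} (l : List ((Fin n × Fin n) × Instr (Reg m₀ B))) (iu iv : Fin m₀) (w : ℕ)
    (R : (Fin n → Fin n → Bool) → Fin B → Fin B → Prop) : Prop :=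
  ∀ (G : Fin n → Fin n → Bool) (σ : Reg m₀ B → Bool),
    (∀ b, exec (fun e => G e.1 e.2) l σ (some (iv, b)) = true ↔
      (σ (some (iv, b)) = true ∨ ∃ a, σ (some (iu, a)) = true ∧ R G a b)) ∧
    ∀ i : Fin m₀, (i : ℕ) < w → i ≠ iv → ∀ b,
      exec (fun e => G e.1 e.2) l σ (some (i, b)) = σ (some (i, b))

theorem one {n B m₀ : ℕ} (a₀ : Fin n × Fin n) (iu iv iw : Fin m₀)
    (hu : (iu : ℕ) < iw) (hv : (iv : ℕ) < iw) (L : ℕ)
    (R₁ R₂ : (Fin n → Fin n → Bool) → Fin B → Fin B → Prop)
    (h₁ : ∃ l : List ((Fin n × Fin n) × Instr (Reg m₀ B)), l.length ≤ L ∧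
      Spec l iu iw (iw + 1) R₁)
    (h₂ : ∃ l : List ((Fin n × Fin n) × Instr (Reg m₀ B)), l.length ≤ L ∧
      Spec l iw iv (iw + 1) R₂) :
    ∃ l : List ((Fin n × Fin n) × Instr (Reg m₀ B)), l.length ≤ B + 2 * L ∧
      Spec l iu iv iw (fun G a b => ∃ c, R₁ G a c ∧ R₂ G c b) := by
  obtain ⟨l₀, hl₀, h₀⟩ := clear_spec (B := B) a₀ iw
  obtain ⟨l₁, hl₁, h₁⟩ := h₁
  obtain ⟨l₂, hl₂, h₂⟩ := h₂
  have huw : iu ≠ iw := by
    intro h
    rw [h] at hu
    exact lt_irrefl _ hu
  have hvw : iv ≠ iw := by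
    intro h
    rw [h] at hv
    exact lt_irrefl _ hv
  refine ⟨l₀ ++ (l₁ ++ l₂), ?_, ?_⟩
  · rw [List.length_append, List.length_append]
    omega
  · intro G σ
    rw [exec_append, exec_append]
    obtain ⟨a1, a2⟩ := h₀ G σ
    set σ1 := exec (fun e => G e.1 e.2) l₀ σ with hσ1
    obtain ⟨b1, b2⟩ := h₁ G σ1
    set σ2 := exec (fun e => G e.1 e.2) l₁ σ1 with hσ2
    obtain ⟨c1, c2⟩ := h₂ G σ2
    constructor
    · intro b
      rw [c1 b, b2 iv (by omega) hvw b, a2 iv hvw b]
      apply or_congr Iff.rfl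
      constructor
      · rintro ⟨c, hc, hc2⟩
        rcases (b1 c).1 hc with h | ⟨a, ha, ha2⟩
        · rw [a1 c] at h
          exact absurd h (by simp)
        · rw [a2 iu huw a] at ha
          exact ⟨a, ha, c, ha2, hc2⟩
      · rintro ⟨a, ha, c, hc, hc2⟩
        refine ⟨c, (b1 c).2 (Or.inr ⟨a, ?_, hc⟩), hc2⟩
        rw [a2 iu huw a]
        exact ha
    · intro i hi hiv b
      have hiw : i ≠ iw := by
        intro h
        rw [h] at hi
        exact lt_irrefl _ hi
      rw [c2 i (by omega) hiv b, b2 i (by omega) hiw b, a2 i hiw b]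

theorem loop {n B m₀ : ℕ} {ι : Type} (iu iv : Fin m₀) (huv : iu ≠ iv) (w : ℕ)
    (hu : (iu : ℕ) < w) (L : ℕ) (R : ι → (Fin n → Fin n → Bool) → Fin B → Fin B → Prop)
    (h : ∀ M, ∃ l : List ((Fin n × Fin n) × Instr (Reg m₀ B)), l.length ≤ L ∧
      Spec l iu iv w (R M)) (Ms : List ι) :
    ∃ l : List ((Fin n × Fin n) × Instr (Reg m₀ B)), l.length ≤ Ms.length * L ∧
      Spec l iu iv w (fun G a b => ∃ M ∈ Ms, R M G a b) := by
  induction Ms with
  | nil =>
    refine ⟨[], by simp, ?_⟩
    intro G σ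
    exact ⟨fun b => by simp [exec], fun i _ _ b => rfl⟩
  | cons M Ms ih =>
    obtain ⟨l', hl', h'⟩ := ih
    obtain ⟨l, hl, h⟩ := h M
    refine ⟨l ++ l', ?_, ?_⟩
    · rw [List.length_append, List.length_cons, add_mul, one_mul]
      omega
    · intro G σ
      rw [exec_append]
      obtain ⟨a1, a2⟩ := h G σ
      obtain ⟨b1, b2⟩ := h' G (exec (fun e => G e.1 e.2) l σ)
      constructor
      · intro b
        rw [b1 b, a1 b]
        constructor
        · rintro ((h | ⟨a, ha, hR⟩) | ⟨a, ha, N, hN, hR⟩)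
          · exact Or.inl h
          · exact Or.inr ⟨a, ha, M, List.mem_cons_self, hR⟩
          · rw [a2 iu hu huv a] at ha
            exact Or.inr ⟨a, ha, N, List.mem_cons_of_mem _ hN, hR⟩
        · rintro (h | ⟨a, ha, N, hN, hR⟩)
          · exact Or.inl (Or.inl h)
          · rw [List.mem_cons] at hN
            rcases hN with rfl | hN
            · exact Or.inl (Or.inr ⟨a, ha, hR⟩)
            · refine Or.inr ⟨a, ?_, N, hN, hR⟩
              rw [a2 iu hu huv a]
              exact ha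
      · intro i hi hiv b
        rw [b2 i hi hiv b, a2 i hi hiv b]

end UpBAux

/-- The recursion over `m`: for all `M < q` (middle batch `c ↦ min (M B + c) (n - 1)`) clear the
block `w`, add to the block `w` what is reached from the block `iu` by at most `(d + 1) / 2` arcs,
add to the block `iv` what is reached from the block `w` by at most `d / 2` arcs. -/
theorem exists_prog {n B q m₀ : ℕ} (hn : 1 ≤ n) (hB : 1 ≤ B) (hq : n ≤ q * B) :
    ∀ (m d : ℕ), d ≤ 2 ^ m → ∀ (f g : Fin B → Fin n) (iu iv : Fin m₀) (w : ℕ), iu ≠ iv →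
      (iu : ℕ) < w → (iv : ℕ) < w → w + m ≤ m₀ →
    ∃ l : List ((Fin n × Fin n) × Instr (Reg m₀ B)), l.length ≤ (4 * q) ^ m * (4 * B ^ 2) ∧
      ∀ (G : Fin n → Fin n → Bool) (σ : Reg m₀ B → Bool),
        (∀ b, exec (fun e => G e.1 e.2) l σ (some (iv, b)) = true ↔
          (σ (some (iv, b)) = true ∨
            ∃ a, σ (some (iu, a)) = true ∧ ∃ d' ≤ d, HasWalk G d' (f a) (g b))) ∧
        ∀ i : Fin m₀, (i : ℕ) < w → i ≠ iv → ∀ b,
          exec (fun e => G e.1 e.2) l σ (some (i, b)) = σ (some (i, b)) := by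
  intro m
  induction m with
  | zero =>
    intro d hd f g iu iv w hne _ _ _
    rw [pow_zero] at hd
    obtain ⟨l, hl, h⟩ := prog_base (n := n) (B := B) d hd f g iu iv hne
    refine ⟨l, ?_, ?_⟩
    · rw [pow_zero, one_mul]
      omega
    · intro G σ
      obtain ⟨h1, h2⟩ := h G σ
      exact ⟨h1, fun i _ hi b => h2 i hi b⟩
  | succ m ih =>
    intro d hd f g iu iv w hne hu hv hw
    have hd1 : (d + 1) / 2 ≤ 2 ^ m := by
      rw [pow_succ] at hd
      omega
    have hd2 : d / 2 ≤ 2 ^ m := by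
      rw [pow_succ] at hd
      omega
    have hwm : w < m₀ := by omega
    set iw : Fin m₀ := ⟨w, hwm⟩ with hiw
    have huw : iu ≠ iw := by
      intro h
      have := congrArg Fin.val h
      simp only [hiw] at this
      omega
    have hvw : iw ≠ iv := by
      intro h
      have := congrArg Fin.val h
      simp only [hiw] at this
      omega
    let h : ℕ → Fin B → Fin n := fun M c => ⟨min (M * B + c) (n - 1), by omega⟩
    have hone : ∀ M : ℕ, ∃ l : List ((Fin n × Fin n) × Instr (Reg m₀ B)),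
        l.length ≤ B + 2 * ((4 * q) ^ m * (4 * B ^ 2)) ∧
        UpBAux.Spec l iu iv w (fun G a b => ∃ c,
          (∃ d' ≤ (d + 1) / 2, HasWalk G d' (f a) (h M c)) ∧
          (∃ d' ≤ d / 2, HasWalk G d' (h M c) (g b))) := by
      intro M
      exact UpBAux.one (⟨0, by omega⟩, ⟨0, by omega⟩) iu iv iw hu hv _
        (fun G a c => ∃ d' ≤ (d + 1) / 2, HasWalk G d' (f a) (h M c))
        (fun G c b => ∃ d' ≤ d / 2, HasWalk G d' (h M c) (g b))
        (ih _ hd1 f (h M) iu iw (w + 1) huw (by omega) (by simp only [hiw]; omega) (by omega))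
        (ih _ hd2 (h M) g iw iv (w + 1) hvw (by simp only [hiw]; omega) (by omega) (by omega))
    obtain ⟨l, hl, hs⟩ := UpBAux.loop iu iv hne w hu _ _ hone (List.range q)
    refine ⟨l, hl.trans ?_, ?_⟩
    · rw [List.length_range]
      have hq1 : 1 ≤ q := by
        rcases Nat.eq_zero_or_pos q with h0 | h0
        · rw [h0, zero_mul] at hq
          omega
        · exact h0
      have h1 : 1 ≤ (4 * q) ^ m := Nat.one_le_pow _ _ (by omega)
      have h2 : B ≤ 2 * ((4 * q) ^ m * (4 * B ^ 2)) := by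
        have h3 : B * 1 ≤ B * B := Nat.mul_le_mul_left _ hB
        have h4 : 1 * (4 * B ^ 2) ≤ (4 * q) ^ m * (4 * B ^ 2) := Nat.mul_le_mul_right _ h1
        nlinarith
      calc q * (B + 2 * ((4 * q) ^ m * (4 * B ^ 2)))
          ≤ q * (2 * ((4 * q) ^ m * (4 * B ^ 2)) + 2 * ((4 * q) ^ m * (4 * B ^ 2))) :=
            Nat.mul_le_mul_left _ (Nat.add_le_add_right h2 _)
        _ = (4 * q) ^ (m + 1) * (4 * B ^ 2) := by ring
    · intro G σ
      obtain ⟨h1, h2⟩ := hs G σ
      refine ⟨?_, h2⟩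
      intro b
      rw [h1 b]
      apply or_congr Iff.rfl
      apply exists_congr
      intro a
      apply and_congr Iff.rfl
      have hdd : (d + 1) / 2 + d / 2 = d := by omega
      have hws := walk_split G ((d + 1) / 2) (d / 2) (f a) (g b)
      rw [hdd] at hws
      rw [hws]
      constructor
      · rintro ⟨M, _, c, hc1, hc2⟩
        exact ⟨h M c, hc1, hc2⟩
      · rintro ⟨z, hz1, hz2⟩
        have hz : h (z / B) ⟨z % B, Nat.mod_lt _ hB⟩ = z := by
          apply Fin.ext
          simp only [h]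
          rw [Nat.div_add_mod' (z : ℕ) B]
          have := z.isLt
          omega
        refine ⟨(z : ℕ) / B, ?_, ⟨(z : ℕ) % B, Nat.mod_lt _ hB⟩, ?_, ?_⟩
        · rw [List.mem_range]
          apply (Nat.div_lt_iff_lt_mul hB).2
          exact lt_of_lt_of_le z.isLt hq
        · rw [hz]
          exact hz1
        · rw [hz]
          exact hz2

end MTS
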