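import Pool.Agent.Lib.MTS.UpA

/-!
# MTS.UpB1 (MP_e46137_lc): the program between two batches, one arc
-/

namespace MTS

open Classical Finset

/-- registers: `none` is auxiliary, `some (i, b)` is register `b` of the block `i` -/
abbrev Reg (m B : ℕ) := Option (Fin m × Fin B)

namespace UpB1Aux

theorem walk_add {V : Type} (G : V → V → Bool) (a : ℕ) : ∀ (b : ℕ) (u v : V),
    HasWalk G (a + b) u v ↔ ∃ z, HasWalk G a u z ∧ HasWalk G b z v
  | 0, u, v => ⟨fun h => ⟨v, h, rfl⟩, fun ⟨z, h, hz⟩ => by
      have hz' : z = v := hz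
      subst hz'
      exact h⟩
  | b + 1, u, v => by
    constructor
    · rintro ⟨w, h1, h2⟩
      obtain ⟨z, h3, h4⟩ := (walk_add G a b u w).1 h1
      exact ⟨z, h3, w, h4, h2⟩
    · rintro ⟨z, h3, w, h4, h2⟩
      exact ⟨w, (walk_add G a b u w).2 ⟨z, h3, h4⟩, h2⟩

/-- the instructions for one pair -/
def step {n B m₀ : ℕ} (d : ℕ) (f g : Fin B → Fin n) (iu iv : Fin m₀) (p : Fin B × Fin B) :
    List ((Fin n × Fin n) × Instr (Reg m₀ B)) :=
  if f p.1 = g p.2 then
    [((f p.1, g p.2), .or (some (iv, p.2)) (some (iv, p.2)) (some (iu, p.1)))]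
  else if d = 0 then []
  else [((f p.1, g p.2), .input none), ((f p.1, g p.2), .and none none (some (iu, p.1))),
    ((f p.1, g p.2), .or (some (iv, p.2)) (some (iv, p.2)) none)]

theorem step_length {n B m₀ : ℕ} (d : ℕ) (f g : Fin B → Fin n) (iu iv : Fin m₀)
    (p : Fin B × Fin B) : (step d f g iu iv p).length ≤ 3 := by
  unfold step
  split_ifs <;> simp

theorem step_spec {n B m₀ : ℕ} (d : ℕ) (hd : d ≤ 1) (f g : Fin B → Fin n) (iu iv : Fin m₀)
    (hne : iu ≠ iv) (p : Fin B × Fin B) (G : Fin n → Fin n → Bool) (σ : Reg m₀ B → Bool) :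
    (∀ b, exec (fun e => G e.1 e.2) (step d f g iu iv p) σ (some (iv, b)) = true ↔
      (σ (some (iv, b)) = true ∨ (b = p.2 ∧ σ (some (iu, p.1)) = true ∧
        ∃ d' ≤ d, HasWalk G d' (f p.1) (g p.2)))) ∧
    ∀ i : Fin m₀, i ≠ iv → ∀ b, exec (fun e => G e.1 e.2) (step d f g iu iv p) σ (some (i, b)) =
      σ (some (i, b)) := by
  unfold step
  by_cases h : f p.1 = g p.2
  · rw [if_pos h]
    have hw : ∃ d' ≤ d, HasWalk G d' (f p.1) (g p.2) := ⟨0, Nat.zero_le _, h⟩
    constructor
    · intro b
      simp only [exec, Instr.apply]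
      by_cases hb : b = p.2
      · subst hb
        rw [Function.update_self, Bool.or_eq_true]
        simp [hw]
      · rw [Function.update_of_ne (by simp [hb])]
        simp [hb]
    · intro i hi b
      simp only [exec, Instr.apply]
      rw [Function.update_of_ne (by simp [hi])]
  · rw [if_neg h]
    by_cases h0 : d = 0
    · rw [if_pos h0]
      have hw : ¬ ∃ d' ≤ d, HasWalk G d' (f p.1) (g p.2) := by
        rintro ⟨d', hd', hw⟩
        have : d' = 0 := by omega
        subst this
        exact h hw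
      exact ⟨fun b => by simp [exec, hw], fun i _ b => rfl⟩
    · rw [if_neg h0]
      have hw : (∃ d' ≤ d, HasWalk G d' (f p.1) (g p.2)) ↔ G (f p.1) (g p.2) = true := by
        constructor
        · rintro ⟨d', hd', hw⟩
          have : d' = 0 ∨ d' = 1 := by omega
          rcases this with rfl | rfl
          · exact absurd hw h
          · obtain ⟨w, h1, h2⟩ := hw
            have h1' : f p.1 = w := h1
            rw [h1']
            exact h2
        · intro hG
          exact ⟨1, by omega, f p.1, rfl, hG⟩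
      constructor
      · intro b
        simp only [exec, Instr.apply]
        by_cases hb : b = p.2
        · subst hb
          rw [Function.update_self, Function.update_of_ne (by simp), Function.update_of_ne (by simp),
            Function.update_self, Function.update_self, Function.update_of_ne (by simp),
            Bool.or_eq_true, Bool.and_eq_true]
          simp [hw, and_comm]
        · rw [Function.update_of_ne (by simp [hb]), Function.update_of_ne (by simp),
            Function.update_of_ne (by simp)]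
          simp [hb]
      · intro i hi b
        simp only [exec, Instr.apply]
        rw [Function.update_of_ne (by simp [hi]), Function.update_of_ne (by simp),
            Function.update_of_ne (by simp)]

theorem all_spec {n B m₀ : ℕ} (d : ℕ) (hd : d ≤ 1) (f g : Fin B → Fin n) (iu iv : Fin m₀)
    (hne : iu ≠ iv) (G : Fin n → Fin n → Bool) : ∀ (L : List (Fin B × Fin B)) (σ : Reg m₀ B → Bool),
    (∀ b, exec (fun e => G e.1 e.2) (L.flatMap (step d f g iu iv)) σ (some (iv, b)) = true ↔
      (σ (some (iv, b)) = true ∨ ∃ a, (a, b) ∈ L ∧ σ (some (iu, a)) = true ∧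
        ∃ d' ≤ d, HasWalk G d' (f a) (g b))) ∧
    ∀ i : Fin m₀, i ≠ iv → ∀ b,
      exec (fun e => G e.1 e.2) (L.flatMap (step d f g iu iv)) σ (some (i, b)) = σ (some (i, b))
  | [], σ => ⟨fun b => by simp [exec], fun i _ b => rfl⟩
  | p :: L, σ => by
    obtain ⟨h1, h2⟩ := step_spec d hd f g iu iv hne p G σ
    obtain ⟨h3, h4⟩ := all_spec d hd f g iu iv hne G L
      (exec (fun e => G e.1 e.2) (step d f g iu iv p) σ)
    have e : ∀ x, exec (fun e => G e.1 e.2) ((p :: L).flatMap (step d f g iu iv)) σ x =
        exec (fun e => G e.1 e.2) (L.flatMap (step d f g iu iv))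
          (exec (fun e => G e.1 e.2) (step d f g iu iv p) σ) x := by
      intro x
      rw [List.flatMap_cons, exec_append]
    constructor
    · intro b
      rw [e, h3 b, h1 b]
      constructor
      · rintro ((h | ⟨h, h', h''⟩) | ⟨a, ha, h, h'⟩)
        · exact Or.inl h
        · subst h
          exact Or.inr ⟨p.1, List.mem_cons_self, h', h''⟩
        · rw [h2 iu hne] at h
          exact Or.inr ⟨a, List.mem_cons_of_mem _ ha, h, h'⟩
      · rintro (h | ⟨a, ha, h, h'⟩)
        · exact Or.inl (Or.inl h)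
        · rw [List.mem_cons] at ha
          rcases ha with ha | ha
          · subst ha
            exact Or.inl (Or.inr ⟨rfl, h, h'⟩)
          · exact Or.inr ⟨a, ha, by rw [h2 iu hne]; exact h, h'⟩
    · intro i hi b
      rw [e, h4 i hi b, h2 i hi b]

theorem all_length {n B m₀ : ℕ} (d : ℕ) (f g : Fin B → Fin n) (iu iv : Fin m₀) :
    ∀ L : List (Fin B × Fin B), (L.flatMap (step d f g iu iv)).length ≤ 3 * L.length
  | [] => by simp
  | p :: L => by
    have h1 := step_length d f g iu iv p
    have h2 := all_length d f g iu iv L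
    rw [List.flatMap_cons, List.length_append, List.length_cons]
    omega

end UpB1Aux

open UpB1Aux

/-- walks with at most `d₁ + d₂` arcs -/
theorem walk_split {V : Type} (G : V → V → Bool) (d₁ d₂ : ℕ) (u v : V) :
    (∃ d ≤ d₁ + d₂, HasWalk G d u v) ↔
      ∃ z, (∃ d ≤ d₁, HasWalk G d u z) ∧ ∃ d ≤ d₂, HasWalk G d z v := by
  constructor
  · rintro ⟨d, hd, h⟩
    have e : d = min d d₁ + (d - min d d₁) := by omega
    rw [e] at h
    obtain ⟨z, h1, h2⟩ := (walk_add G _ _ u v).1 h
    exact ⟨z, ⟨_, min_le_right _ _, h1⟩, ⟨_, by omega, h2⟩⟩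
  · rintro ⟨z, ⟨a, ha, h1⟩, ⟨b, hb, h2⟩⟩
    exact ⟨a + b, by omega, (walk_add G a b u v).2 ⟨z, h1, h2⟩⟩

/-- The blocks `iu`, `iv` hold sets of positions of the batches `f`, `g` of vertices; add to the
second all positions reached from the first by at most `d ≤ 1` arcs.  (For all `a b`: nothing, or
`v_b := v_b ∨ u_a` if `f a = g b`, or read the arc `(f a, g b)` to `none`, `none := none ∧ u_a`,
`v_b := v_b ∨ none`.) -/
theorem prog_base {n B m₀ : ℕ} (d : ℕ) (hd : d ≤ 1) (f g : Fin B → Fin n) (iu iv : Fin m₀)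
    (hne : iu ≠ iv) :
    ∃ l : List ((Fin n × Fin n) × Instr (Reg m₀ B)), l.length ≤ 3 * B ^ 2 ∧
      ∀ (G : Fin n → Fin n → Bool) (σ : Reg m₀ B → Bool),
        (∀ b, exec (fun e => G e.1 e.2) l σ (some (iv, b)) = true ↔
          (σ (some (iv, b)) = true ∨
            ∃ a, σ (some (iu, a)) = true ∧ ∃ d' ≤ d, HasWalk G d' (f a) (g b))) ∧
        ∀ i : Fin m₀, i ≠ iv → ∀ b, exec (fun e => G e.1 e.2) l σ (some (i, b)) =
          σ (some (i, b)) := by
  refine ⟨((Finset.univ : Finset (Fin B × Fin B)).toList).flatMap (step d f g iu iv), ?_, ?_⟩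
  · have h := all_length d f g iu iv (Finset.univ : Finset (Fin B × Fin B)).toList
    rw [Finset.length_toList, Finset.card_univ, Fintype.card_prod, Fintype.card_fin] at h
    rw [pow_two]
    exact h
  · intro G σ
    obtain ⟨h1, h2⟩ := all_spec d hd f g iu iv hne G (Finset.univ : Finset (Fin B × Fin B)).toList σ
    refine ⟨fun b => ?_, h2⟩
    rw [h1 b]
    simp

end MTS
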