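import Pool.Agent.Lib.MTS.Embed

/-!
# MTS.Zero (MP_e46137_lc): all arcs are read
-/

namespace MTS

open Classical Finset

namespace ZeroAux

theorem run_congr {A : Type} {S : ℕ} (M : Mach A S) (g g' : A → Bool) : ∀ T : ℕ,
    (∀ τ < T, g (M.arc τ) = g' (M.arc τ)) → M.run g T = M.run g' T
  | 0, _ => rfl
  | T + 1, h => by
    show M.next T (M.run g T) (g (M.arc T)) = M.next T (M.run g' T) (g' (M.arc T))
    rw [run_congr M g g' T fun τ hτ => h τ (Nat.lt_succ_of_lt hτ), h T (Nat.lt_succ_self T)]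

end ZeroAux

open ZeroAux

theorem read_all {n S T : ℕ} {s t : Fin n} (hst : s ≠ t) (M : Mach (Fin n × Fin n) S) (out : Fin S)
    (hM : Decides M out T 3 s t) {a b : Fin n} (hab : a ≠ b) (ha : a ≠ s ∧ a ≠ t)
    (hb : b ≠ s ∧ b ≠ t) : ∃ τ < T, M.arc τ = (a, b) ∨ M.arc τ = (b, a) := by
  by_contra hno
  push Not at hno
  let G₂ : Fin n → Fin n → Bool := fun x y => decide ((x = s ∧ y = a) ∨ (x = b ∧ y = t) ∨
    (y = s ∧ x = a) ∨ (y = b ∧ x = t))
  let G₁ : Fin n → Fin n → Bool := fun x y => decide ((x = a ∧ y = b) ∨ (x = b ∧ y = a) ∨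
    G₂ x y = true)
  have hG₂ : ∀ x y, G₂ x y = G₂ y x := by
    intro x y
    simp only [G₂]
    rw [decide_eq_decide]
    tauto
  have hG₁ : ∀ x y, G₁ x y = G₁ y x := by
    intro x y
    simp only [G₁]
    rw [decide_eq_decide, hG₂ x y]
    tauto
  have h1 : M.run (fun e => G₁ e.1 e.2) T out = true := by
    refine (hM G₁ hG₁).1 ⟨3, le_rfl, b, ⟨a, ⟨s, rfl, ?_⟩, ?_⟩, ?_⟩
    · simp [G₁, G₂]
    · simp [G₁]
    · simp [G₁, G₂]
  have h2 : M.run (fun e => G₂ e.1 e.2) T out = false := by
    refine (hM G₂ hG₂).2 fun hr => ?_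
    have h3 : ∀ y, Reach G₂ s y → y = s ∨ y = a := by
      intro y hy
      induction hy with
      | refl => exact Or.inl rfl
      | tail _ h5 ih =>
        have h6 := of_decide_eq_true h5
        rcases h6 with ⟨_, h7⟩ | ⟨h7, _⟩ | ⟨h7, _⟩ | ⟨_, h7⟩
        · exact Or.inr h7
        · rcases ih with h8 | h8
          · exact absurd (h7.symm.trans h8) hb.1
          · exact absurd (h8.symm.trans h7) hab
        · exact Or.inl h7
        · rcases ih with h8 | h8
          · exact absurd (h8.symm.trans h7) hst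
          · exact absurd (h8.symm.trans h7) ha.2
    rcases h3 t hr with h4 | h4
    · exact hst h4.symm
    · exact ha.2 h4.symm
  have h3 : M.run (fun e => G₁ e.1 e.2) T = M.run (fun e => G₂ e.1 e.2) T := by
    apply run_congr
    intro τ hτ
    have h4 := hno τ hτ
    have h5 : ¬ ((M.arc τ).1 = a ∧ (M.arc τ).2 = b) := fun h => h4.1 (Prod.ext h.1 h.2)
    have h6 : ¬ ((M.arc τ).1 = b ∧ (M.arc τ).2 = a) := fun h => h4.2 (Prod.ext h.1 h.2)
    have h7 : G₁ (M.arc τ).1 (M.arc τ).2 = G₂ (M.arc τ).1 (M.arc τ).2 := by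
      rw [Bool.eq_iff_iff]
      simp only [G₁, decide_eq_true_eq]
      constructor
      · rintro (h | h | h)
        · exact absurd h h5
        · exact absurd h h6
        · exact h
      · exact fun h => Or.inr (Or.inr h)
    exact h7
  rw [h3, h2] at h1
  exact Bool.noConfusion h1

/-- **Lower bound** for `k = 0`: all arcs must be read. -/
theorem lower_zero : ∃ c : ℕ, ∀ (n S T : ℕ) (s t : Fin n), s ≠ t →
    ∀ (M : Mach (Fin n × Fin n) S) (out : Fin S), Decides M out T 3 s t →
      (n : ℝ) ^ 2 ≤ T * (c * Real.log n) ^ c := by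
  refine ⟨6, fun n S T s t hst M out hM => ?_⟩
  have hn2 : 2 ≤ n := by
    have h1 := s.isLt
    have h2 := t.isLt
    have h3 : (s : ℕ) ≠ t := fun h => hst (Fin.ext h)
    omega
  -- at least one step
  have hT : 1 ≤ T := by
    rcases Nat.eq_zero_or_pos T with h0 | h0
    · exfalso
      subst h0
      have h1 := (hM (fun _ _ => true) (fun _ _ => rfl)).1 ⟨1, by norm_num, s, rfl, rfl⟩
      have h2 := (hM (fun _ _ => false) (fun _ _ => rfl)).2 (fun hr => by
        rcases Relation.ReflTransGen.cases_head hr with h3 | ⟨y, h3, _⟩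
        · exact hst h3
        · exact Bool.noConfusion h3)
      have h3 : M.init out = true := h1
      have h4 : M.init out = false := h2
      rw [h3] at h4
      exact Bool.noConfusion h4
    · exact h0
  -- the number of steps
  have hcard : (n - 2) * (n - 2) - (n - 2) ≤ T + T := by
    let Q : Finset (Fin n) := (univ.erase s).erase t
    have hQ : Q.card = n - 2 := by
      have h1 : t ∈ (univ : Finset (Fin n)).erase s :=
        Finset.mem_erase.2 ⟨hst.symm, Finset.mem_univ _⟩
      rw [Finset.card_erase_of_mem h1, Finset.card_erase_of_mem (Finset.mem_univ _),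
        Finset.card_univ, Fintype.card_fin]
      omega
    have h2 : Q.offDiag ⊆ (Finset.range T).image M.arc ∪
        (Finset.range T).image (fun τ => (M.arc τ).swap) := by
      rintro ⟨a, b⟩ hab
      rw [Finset.mem_offDiag] at hab
      obtain ⟨ha, hb, hne⟩ := hab
      have ha' := Finset.mem_erase.1 ha
      have hb' := Finset.mem_erase.1 hb
      obtain ⟨τ, hτ, he⟩ := read_all hst M out hM hne
        ⟨(Finset.mem_erase.1 ha'.2).1, ha'.1⟩ ⟨(Finset.mem_erase.1 hb'.2).1, hb'.1⟩
      rcases he with he | he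
      · exact Finset.mem_union_left _ (Finset.mem_image.2 ⟨τ, Finset.mem_range.2 hτ, he⟩)
      · refine Finset.mem_union_right _ (Finset.mem_image.2 ⟨τ, Finset.mem_range.2 hτ, ?_⟩)
        simp only [he]
        rfl
    have h3 := (Finset.card_le_card h2).trans ((Finset.card_union_le _ _).trans
      (Nat.add_le_add Finset.card_image_le Finset.card_image_le))
    rw [Finset.offDiag_card, hQ, Finset.card_range] at h3
    exact h3
  have hn : n ^ 2 ≤ 32 * T := by
    by_cases h4 : 4 ≤ n
    · obtain ⟨m, rfl⟩ : ∃ m, n = m + 4 := ⟨n - 4, by omega⟩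
      have e : (m + 4 - 2) * (m + 4 - 2) - (m + 4 - 2) = (m + 2) * (m + 1) := by
        rw [show m + 4 - 2 = m + 2 by omega]
        have : (m + 2) * (m + 2) = (m + 2) * (m + 1) + (m + 2) := by ring
        omega
      rw [e] at hcard
      nlinarith
    · interval_cases n <;> omega
  have hlog : (1 / 2 : ℝ) ≤ Real.log n := by
    have h1 : Real.log 2 ≤ Real.log n :=
      Real.log_le_log (by norm_num) (by exact_mod_cast hn2)
    have h2 := Real.log_two_gt_d9
    linarith
  have hpow : (32 : ℝ) ≤ ((6 : ℕ) * Real.log n) ^ 6 := by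
    have h1 : (2 : ℝ) ≤ (6 : ℕ) * Real.log n := by
      push_cast
      linarith
    calc (32 : ℝ) ≤ 2 ^ 6 := by norm_num
      _ ≤ _ := pow_le_pow_left₀ (by norm_num) h1 6
  have hn' : (n : ℝ) ^ 2 ≤ 32 * T := by exact_mod_cast hn
  have hT0 : (0 : ℝ) ≤ T := Nat.cast_nonneg T
  calc (n : ℝ) ^ 2 ≤ 32 * T := hn'
    _ = T * 32 := by ring
    _ ≤ T * ((6 : ℕ) * Real.log n) ^ 6 := mul_le_mul_of_nonneg_left hpow hT0

end MTS
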